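import Pool.Agent.U3.SD.Defs2

/-!
# Algebraic self-correspondences which separate the degrees of the cohomology: definitions
-/

set_option autoImplicit false

open CategoryTheory AlgebraicGeometry Polynomial

universe u v w

namespace Pool.Agent.U3.SD

open Pool.Agent.H914 Pool.Agent.H914.VarClass Pool.Agent.H914.VarClass.Obj Pool.Agent.W492.BB
  Pool.Agent.W550.Corr Pool.Agent.TH133 Pool.Agent.Y107

variable {k : Type u} [Field k] {𝒱 : VarClass k}

/-- The value `P(b)` of the polynomial `P` at the self-correspondence `b`, in the ring of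
self-correspondences modulo rational equivalence. -/
noncomputable def evalCor (C : TheoryData.{u, v, 0} 𝒱 ℚ) {X : 𝒱.Obj} (b : C.A (X.prod X))
    (P : ℚ[X]) : C.A (X.prod X) := P.sum fun i q => q • corPow C b i

/-- The self-correspondence `b` of degree zero of `X` is algebraic over `ℚ` modulo rational
equivalence (`P(b) = 0` for a nonzero polynomial `P`), and it has no common eigenvalue on `H^m(X)`
and `H^n(X)` for `m ≠ n`: there are pairwise coprime polynomials `M n` such that `M n (b)` acts as
zero on `H^n(X)`. -/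
structure Separates {C : TheoryData.{u, v, 0} 𝒱 ℚ} {K : Type w} [Field K]
    (H : WeilTheoryData.{u, v, w} C K) {X : 𝒱.Obj} (b : C.A (X.prod X)) : Prop where
  deg : C.Deg X.dim b
  alg : ∃ P : ℚ[X], P ≠ 0 ∧ evalCor C b P = 0
  sep : ∃ M : ℕ → ℚ[X],
    (∀ m ≤ 2 * X.dim, ∀ n ≤ 2 * X.dim, m ≠ n → IsCoprime (M m) (M n)) ∧
    ∀ n ≤ 2 * X.dim, ∀ x : H.A X, H.Deg n x → H.act (H.cl (evalCor C b (M n))) x = 0

end Pool.Agent.U3.SD
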