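import Pool.Agent.U3.SD.Corner

/-!
# Spectral idempotents of algebraic elements
-/

set_option autoImplicit false

open Polynomial

universe u

namespace Pool.Agent.U3.SD

/-- `P` is the product of its `M`-primary part and a factor coprime to `M`. -/
lemma exists_split (M : ℚ[X]) (n : ℕ) : ∀ P : ℚ[X], P ≠ 0 → P.natDegree ≤ n →
    ∃ (P' P'' : ℚ[X]) (k : ℕ), P = P' * P'' ∧ P' ∣ M ^ k ∧ IsCoprime P'' M := by
  induction n with
  | zero =>
    intro P hP hn
    refine ⟨1, P, 0, (one_mul P).symm, one_dvd _, ?_⟩
    have : IsUnit P := by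
      rw [eq_C_of_natDegree_le_zero hn] at hP ⊢
      rw [isUnit_C]
      exact isUnit_iff_ne_zero.2 fun h => hP (by rw [h, C_0])
    obtain ⟨U, hU⟩ := this
    exact ⟨↑U⁻¹, 0, by rw [← hU, Units.inv_mul, zero_mul, add_zero]⟩
  | succ n ih =>
    intro P hP hn
    by_cases hc : IsCoprime P M
    · exact ⟨1, P, 0, (one_mul P).symm, one_dvd _, hc⟩
    · have hg : ¬ IsUnit (EuclideanDomain.gcd P M) := fun h =>
        hc (EuclideanDomain.gcd_isUnit_iff.1 h)
      obtain ⟨P₁, hP₁⟩ := EuclideanDomain.gcd_dvd_left P M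
      set g := EuclideanDomain.gcd P M with hgd
      have hgM : g ∣ M := EuclideanDomain.gcd_dvd_right P M
      have hg0 : g ≠ 0 := fun h => hP (by rw [hP₁, h, zero_mul])
      have hP₁0 : P₁ ≠ 0 := fun h => hP (by rw [hP₁, h, mul_zero])
      have hdeg : 0 < g.natDegree := by
        by_contra h
        apply hg
        rw [eq_C_of_natDegree_le_zero (by omega : g.natDegree ≤ 0)] at hg0 ⊢
        rw [isUnit_C]
        exact isUnit_iff_ne_zero.2 fun h => hg0 (by rw [h, C_0])
      have h2 : P.natDegree = g.natDegree + P₁.natDegree := by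
        conv_lhs => rw [hP₁]
        exact natDegree_mul hg0 hP₁0
      obtain ⟨Q', Q'', k, e1, e2, e3⟩ := ih P₁ hP₁0 (by omega)
      refine ⟨g * Q', Q'', k + 1, ?_, ?_, e3⟩
      · rw [mul_assoc, ← e1]; exact hP₁
      · rw [pow_succ']
        exact mul_dvd_mul hgM e2

/-- The polynomials defining the spectral idempotents. -/
theorem exists_spectral (P : ℚ[X]) (hP : P ≠ 0) (N : ℕ) (M : ℕ → ℚ[X])
    (hM : ∀ m ≤ N, ∀ n ≤ N, m ≠ n → IsCoprime (M m) (M n)) :
    ∃ E : ℕ → ℚ[X], (∀ m ≤ N, ∀ n ≤ N, P ∣ E m * E n - if m = n then E m else 0) ∧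
      (∀ n, ∃ u v, 1 - E n = u * P + v * M n) ∧
      (∀ m ≤ N, ∀ n ≤ N, m ≠ n → ∃ u v, E m = u * P + v * M n) := by
  choose P' P'' k hfac hdvd hcop using fun n => exists_split (M n) P.natDegree P hP le_rfl
  have hc1 : ∀ n, IsCoprime (P' n) (P'' n) := fun n =>
    (IsCoprime.of_isCoprime_of_dvd_left ((hcop n).symm.pow_left (m := k n)) (hdvd n))
  choose u v huv using hc1
  have hc2 : ∀ m ≤ N, ∀ n ≤ N, m ≠ n → IsCoprime (P' m) (M n) := fun m hm n hn hmn =>
    IsCoprime.of_isCoprime_of_dvd_left ((hM m hm n hn hmn).pow_left (m := k m)) (hdvd m)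
  have hc3 : ∀ m ≤ N, ∀ n ≤ N, m ≠ n → IsCoprime (P' m) (P' n) := fun m hm n hn hmn =>
    IsCoprime.of_isCoprime_of_dvd_right ((hc2 m hm n hn hmn).pow_right (n := k n)) (hdvd n)
  refine ⟨fun n => v n * P'' n, ?_, ?_, ?_⟩
  · intro m hm n hn
    by_cases hmn : m = n
    · subst hmn
      rw [if_pos rfl]
      refine ⟨-(v m * u m), ?_⟩
      have e2 := hfac m
      have e1 := huv m
      linear_combination (v m * P'' m) * e1 + v m * u m * e2
    · rw [if_neg hmn, sub_zero]
      have h1 : P' m ∣ P'' n := by
        have h2 : P' m ∣ P' n * P'' n := by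
          rw [← hfac n]
          exact ⟨P'' m, hfac m⟩
        exact (hc3 m hm n hn hmn).dvd_of_dvd_mul_left h2
      have h2 : P ∣ P'' m * P'' n := by
        conv_lhs => rw [hfac m, mul_comm]
        exact mul_dvd_mul_left _ h1
      have h3 : v m * P'' m * (v n * P'' n) = (P'' m * P'' n) * (v m * v n) := by ring
      rw [h3]
      exact Dvd.dvd.mul_right h2 _
  · intro n
    obtain ⟨a, b, hab⟩ := hcop n
    refine ⟨u n * a, u n * P' n * b, ?_⟩
    have e1 := huv n
    have e2 := hfac n
    change 1 - v n * P'' n = _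
    linear_combination -e1 - (u n * P' n) * hab - u n * a * e2
  · intro m hm n hn hmn
    obtain ⟨a, b, hab⟩ := hc2 m hm n hn hmn
    refine ⟨v m * a, v m * P'' m * b, ?_⟩
    have e2 := hfac m
    change v m * P'' m = _
    linear_combination -(v m * P'' m) * hab - v m * a * e2

section ring

variable {R : Type u} [Ring R] [Algebra ℚ R]

/-- Left invertible algebraic elements are invertible, and their inverses are polynomials. -/
lemma comm_of_left_inv {b c : R} {l : ℚ} (hl : l ≠ 0) (hcb : c * b = l • (1 : R)) (n : ℕ) :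
    ∀ P : ℚ[X], P ≠ 0 → P.natDegree ≤ n → aeval b P = 0 → b * c = c * b := by
  induction n with
  | zero =>
    intro P hP hn h
    have h0 : P.coeff 0 ≠ 0 := fun h0 => hP (by
      rw [eq_C_of_natDegree_le_zero hn, h0, C_0])
    rw [eq_C_of_natDegree_le_zero hn, aeval_C, Algebra.algebraMap_eq_smul_one] at h
    have h1 : (1 : R) = 0 := by
      have := congrArg (fun x => (P.coeff 0)⁻¹ • x) h
      simpa [smul_smul, inv_mul_cancel₀ h0] using this
    rw [← mul_one (b * c), ← mul_one (c * b), h1, mul_zero, mul_zero]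
  | succ n ih =>
    intro P hP hn h
    have h1 : P = X * P.divX + C (P.coeff 0) := (X_mul_divX_add P).symm
    by_cases h0 : P.coeff 0 = 0
    · have h2 : P.divX ≠ 0 := fun h2 => hP (by rw [h1, h2, h0, mul_zero, C_0, add_zero])
      have h3 : aeval b P.divX = 0 := by
        rw [h1, h0, C_0, add_zero, map_mul, aeval_X] at h
        have h4 := congrArg (fun x => c * x) h
        simp only [mul_zero] at h4
        rw [← mul_assoc, hcb, smul_mul_assoc, one_mul] at h4
        have := congrArg (fun x => l⁻¹ • x) h4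
        simpa [smul_smul, inv_mul_cancel₀ hl] using this
      exact ih P.divX h2 (by rw [natDegree_divX_eq_natDegree_tsub_one]; omega) h3
    · -- `b` is invertible with inverse a polynomial
      have h2 : b * aeval b P.divX = -(P.coeff 0) • (1 : R) := by
        rw [h1, map_add, map_mul, aeval_X, aeval_C, Algebra.algebraMap_eq_smul_one] at h
        rw [neg_smul]
        exact eq_neg_of_add_eq_zero_left h
      have h3 : -(P.coeff 0) • c = l • aeval b P.divX := by
        have := congrArg (fun x => c * x) h2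
        simp only [mul_smul_comm, mul_one] at this
        rw [← mul_assoc, hcb, smul_mul_assoc, one_mul] at this
        exact this.symm
      have h4 : aeval b P.divX * b = b * aeval b P.divX := by
        have := congrArg (aeval b) (mul_comm P.divX X)
        rwa [map_mul, map_mul, aeval_X] at this
      have h5 : -(P.coeff 0) • (b * c) = -(P.coeff 0) • (c * b) := by
        rw [← mul_smul_comm, h3, ← smul_mul_assoc, h3, mul_smul_comm, smul_mul_assoc, h4]
      have h6 := congrArg (fun x => (-(P.coeff 0))⁻¹ • x) h5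
      simpa only [smul_smul, inv_mul_cancel₀ (neg_ne_zero.2 h0), one_smul] using h6

lemma commute_aeval' {z b : R} (h : z * b = b * z) (P : ℚ[X]) : z * aeval b P = aeval b P * z :=
  (Commute.symm (show Commute (aeval b P) z from by
    induction P using Polynomial.induction_on' with
    | add p q hp hq => rw [map_add]; exact hp.add_left hq
    | monomial n a =>
      rw [aeval_monomial]
      have hc : Commute b z := h.symm
      exact (Algebra.commute_algebraMap_left a z).mul_left (hc.pow_left n))).eq

end ring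

end Pool.Agent.U3.SD
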