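import Pool.Agent.U3.SD.Mod
import Pool.Agent.U3.SD.Spec
import Pool.Agent.U3.SD.Defs3

/-!
# Chow-Kunneth decompositions from algebraic self-correspondences
-/

set_option autoImplicit false

open CategoryTheory AlgebraicGeometry Polynomial

universe u v w

namespace Pool.Agent.U3.SD

open Pool.Agent.H914 Pool.Agent.H914.VarClass Pool.Agent.H914.VarClass.Obj Pool.Agent.W492.BB
  Pool.Agent.W550.Corr Pool.Agent.TH133 Pool.Agent.Y107 Pool.Agent.TH829.Kim

set_option linter.unusedSectionVars false

variable {k : Type u} [Field k] {𝒱 : VarClass k}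

variable {C : TheoryData.{u, v, 0} 𝒱 ℚ} [hC : IsChowProj C] {X Y Z W : 𝒱.Obj}
variable {K : Type w} [Field K] {H : WeilTheoryData.{u, v, w} C K} [hH : IsWeilProj H]

lemma tp_aeval {R : Type*} [Ring R] [Algebra ℚ R] {t : R →+ R} (ht : IsInv t) (b : R)
    (P : ℚ[X]) : t (aeval b P) = aeval (t b) P := by
  induction P using Polynomial.induction_on' with
  | add p q hp hq => rw [map_add, map_add, map_add, hp, hq]
  | monomial n a =>
    rw [aeval_monomial, aeval_monomial, ht.mul, ht.algebraMap, ← Algebra.commutes]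
    congr 1
    induction n with
    | zero => rw [pow_zero, pow_zero, ht.one]
    | succ n ih => rw [pow_succ, ht.mul, ih, ← pow_succ']

include hC

lemma evalCor_eq (b : Cor C X) (P : ℚ[X]) : evalCor C (X := X) b P = (aeval b P : Cor C X) := by
  have h : ∀ i, corPow C (X := X) b i = (b ^ i : Cor C X) := fun i => corPow_eq b i
  unfold evalCor
  rw [aeval_def, eval₂_eq_sum]
  have h2 : ∀ (i : ℕ) (q : ℚ), (q • corPow C (X := X) b i : C.A (X.prod X)) =
      (algebraMap ℚ (Cor C X) q * b ^ i : Cor C X) := fun i q => by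
    rw [h i, ← Algebra.smul_def]
    rfl
  simp only [h2]
  rfl

lemma aeval_coe (b : cor0 C X) (P : ℚ[X]) :
    ((aeval b P : cor0 C X) : Cor C X) = aeval (b : Cor C X) P :=
  (Polynomial.aeval_subalgebra_coe P (cor0 C X) b).symm ▸ rfl

include hH

/-- The family of spectral idempotents. -/
theorem exists_family (b : cor0 C X) (hb : Separates H (X := X) (b : Cor C X)) :
    ∃ E : ℕ → ℚ[X], (∀ m ≤ 2 * X.dim, ∀ n ≤ 2 * X.dim,
        aeval b (E m) * aeval b (E n) = if m = n then aeval b (E m) else 0) ∧
      ∀ n ≤ 2 * X.dim, ∀ (m : ℤ) (x : H.A X), x ∈ H.gr X m →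
        rhoH H X (aeval b (E n)) x = if m = n then x else 0 := by
  obtain ⟨P, hP, hPb⟩ := hb.alg
  obtain ⟨M, hM, hMb⟩ := hb.sep
  obtain ⟨E, e1, e2, e3⟩ := exists_spectral P hP (2 * X.dim) M hM
  have hPb' : aeval b P = 0 := by
    apply Subtype.ext
    rw [aeval_coe, ← evalCor_eq, hPb]
    rfl
  have hMb' : ∀ n ≤ 2 * X.dim, ∀ x ∈ H.gr X n, rhoH H X (aeval b (M n)) x = 0 := by
    intro n hn x hx
    have h1 := hMb n hn x hx
    rw [rhoH_apply, aeval_coe, ← evalCor_eq]
    exact h1
  have hdvd : ∀ Q : ℚ[X], P ∣ Q → aeval b Q = 0 := by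
    rintro _ ⟨Q, rfl⟩
    rw [map_mul, hPb', zero_mul]
  refine ⟨E, fun m hm n hn => ?_, fun n hn m x hx => ?_⟩
  · have h1 := hdvd _ (e1 m hm n hn)
    rw [map_sub, map_mul, sub_eq_zero] at h1
    rw [h1]
    split_ifs
    · rfl
    · exact map_zero _
  · by_cases hx0 : x = 0
    · subst hx0
      rw [map_zero]
      split_ifs <;> rfl
    have hm0 := nonneg_of_mem H hx hx0
    have hm1 : m ≤ 2 * X.dim := by
      by_contra hcon
      rw [gr_top H (by omega)] at hx
      exact hx0 ((Submodule.mem_bot _).1 hx)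
    obtain ⟨m, rfl⟩ := Int.eq_ofNat_of_zero_le hm0
    have hm1' : m ≤ 2 * X.dim := by omega
    by_cases hmn : m = n
    · subst hmn
      rw [if_pos rfl]
      obtain ⟨u, v, huv⟩ := e2 m
      have h2 := congrArg (fun Q => rhoH H X (aeval b Q) x) huv
      simp only [map_sub, map_add, map_mul, map_one, hPb', map_zero, mul_zero, zero_add,
        Module.End.mul_apply, LinearMap.sub_apply, Module.End.one_apply] at h2
      rw [hMb' m hm1' x hx, map_zero, sub_eq_zero] at h2
      exact h2.symm
    · rw [if_neg (by exact_mod_cast hmn)]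
      obtain ⟨u, v, huv⟩ := e3 n hn m hm1' (Ne.symm hmn)
      have h2 := congrArg (fun Q => rhoH H X (aeval b Q) x) huv
      simp only [map_add, map_mul, hPb', map_zero, mul_zero, zero_add,
        Module.End.mul_apply] at h2
      rw [hMb' m hm1' x hx, map_zero] at h2
      exact h2

/-- Chow-Kunneth decompositions from algebraic correspondences. -/
theorem exists_CK_of_separates {b : C.A (X.prod X)} (hb : Separates H b) :
    ∃ π : ℕ → C.A (X.prod X), IsCK H X π ∧
      ∀ z : C.A (X.prod X), C.comp z b = C.comp b z → ∀ n, C.comp z (π n) = C.comp (π n) z := by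
  classical
  let b₀ : cor0 C X := ⟨b, hb.deg⟩
  obtain ⟨E, h1, h2⟩ := exists_family b₀ hb
  set d := 2 * X.dim with hd
  set ε : ℕ → cor0 C X := fun n => aeval b₀ (E n) with hε
  set φ : cor0 C X := 1 - ∑ n ∈ Finset.range (d + 1), ε n with hφ
  have εsum : ∀ m ≤ d, ε m * ∑ n ∈ Finset.range (d + 1), ε n = ε m := by
    intro m hm
    rw [Finset.mul_sum, Finset.sum_eq_single m]
    · rw [h1 m hm m hm, if_pos rfl]
    · intro n hn hnm
      rw [Finset.mem_range] at hn
      rw [h1 m hm n (by omega), if_neg (Ne.symm hnm)]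
    · intro h
      exact absurd (Finset.mem_range.2 (by omega)) h
  have sumε : ∀ m ≤ d, (∑ n ∈ Finset.range (d + 1), ε n) * ε m = ε m := by
    intro m hm
    rw [Finset.sum_mul, Finset.sum_eq_single m]
    · rw [h1 m hm m hm, if_pos rfl]
    · intro n hn hnm
      rw [Finset.mem_range] at hn
      rw [h1 n (by omega) m hm, if_neg hnm]
    · intro h
      exact absurd (Finset.mem_range.2 (by omega)) h
  have εφ : ∀ m ≤ d, ε m * φ = 0 := fun m hm => by
    rw [hφ, mul_sub, mul_one, εsum m hm, sub_self]
  have φε : ∀ m ≤ d, φ * ε m = 0 := fun m hm => by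
    rw [hφ, sub_mul, one_mul, sumε m hm, sub_self]
  have φφ : φ * φ = φ := by
    conv_lhs => rw [hφ, sub_mul, one_mul]
    rw [Finset.sum_mul, Finset.sum_eq_zero fun n hn => εφ n (by
      rw [Finset.mem_range] at hn; omega), sub_zero]
  have hact : ∀ n ≤ d, ∀ (m : ℤ) (x : H.A X), x ∈ H.gr X m →
      rhoH H X (ε n) x = if m = n then x else 0 := h2
  have hφact : rhoH H X φ = 0 := by
    apply ext_gr H
    intro m x hx
    rw [LinearMap.zero_apply, hφ, map_sub, map_one, map_sum, LinearMap.sub_apply,
      LinearMap.sum_apply, Module.End.one_apply, sub_eq_zero]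
    rw [Finset.sum_congr rfl fun n hn => hact n (by rw [Finset.mem_range] at hn; omega) m x hx]
    by_cases hx0 : x = 0
    · subst hx0
      simp
    have hm0 := nonneg_of_mem H hx hx0
    have hm1 : m ≤ 2 * X.dim := by
      by_contra hcon
      rw [gr_top H (by omega)] at hx
      exact hx0 ((Submodule.mem_bot _).1 hx)
    obtain ⟨m, rfl⟩ := Int.eq_ofNat_of_zero_le hm0
    rw [Finset.sum_eq_single m]
    · rw [if_pos rfl]
    · intro n _ hn
      rw [if_neg]
      intro h
      apply hn
      exact_mod_cast h.symm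
    · intro h
      exact absurd (Finset.mem_range.2 (by omega)) h
  let p : ℕ → cor0 C X := fun n => if n = 0 then ε 0 + φ else if n ≤ d then ε n else 0
  have p0 : p 0 = ε 0 + φ := by simp only [p]; rw [if_pos trivial]
  have p1 : ∀ n, n ≠ 0 → n ≤ d → p n = ε n := fun n hn hn' => by
    simp only [p]; rw [if_neg hn, if_pos hn']
  have p2 : ∀ n, d < n → p n = 0 := fun n hn => by
    simp only [p]; rw [if_neg (by omega), if_neg (by omega)]
  have pp : ∀ m n, p m * p n = if m = n then p m else 0 := by
    intro m n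
    rcases Nat.eq_zero_or_pos m with hm | hm
    · subst hm
      rcases Nat.eq_zero_or_pos n with hn | hn
      · subst hn
        rw [if_pos rfl, p0, mul_add, add_mul, add_mul, h1 0 (by omega) 0 (by omega), if_pos rfl,
          φε 0 (by omega), εφ 0 (by omega), φφ, add_zero, zero_add]
      · by_cases hn' : n ≤ d
        · rw [p0, p1 n (by omega) hn', add_mul, h1 0 (by omega) n hn', if_neg (by omega),
            φε n hn', add_zero, if_neg (by omega)]
        · rw [p2 n (by omega), mul_zero, if_neg (by omega)]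
    · by_cases hm' : m ≤ d
      · rcases Nat.eq_zero_or_pos n with hn | hn
        · subst hn
          rw [p0, p1 m (by omega) hm', mul_add, h1 m hm' 0 (by omega), if_neg (by omega),
            εφ m hm', add_zero]
        · by_cases hn' : n ≤ d
          · rw [p1 m (by omega) hm', p1 n (by omega) hn', h1 m hm' n hn']
          · rw [p2 n (by omega), mul_zero, if_neg (by omega)]
      · rw [p2 m (by omega), zero_mul]
        split_ifs <;> rfl
  have psum : ∑ n ∈ Finset.range (d + 1), p n = 1 := by
    have e1 : ∑ n ∈ Finset.range (d + 1), p n = ∑ n ∈ Finset.range (d + 1), ε n + φ := by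
      rw [Finset.sum_range_succ', Finset.sum_range_succ' (fun n => ε n), p0]
      rw [Finset.sum_congr rfl fun n hn => p1 (n + 1) (by omega) (by
        rw [Finset.mem_range] at hn; omega)]
      abel
    rw [e1, hφ, add_sub_cancel]
  refine ⟨fun n => (p n : Cor C X), isCK_of (H := H) (P := fun n => (p n : Cor C X))
    (fun n => (p n).2) (fun n hn => ?_) (fun m n => ?_) ?_ (fun n m x hx => ?_), fun z hz n => ?_⟩
  · rw [p2 n hn]; rfl
  · rw [← MulMemClass.coe_mul, pp]
    split_ifs
    · rfl
    · rfl
  · have := congrArg Subtype.val psum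
    rwa [AddSubmonoidClass.coe_finset_sum] at this
  · change rhoH H X (p n) x = _
    rcases Nat.eq_zero_or_pos n with hn | hn
    · subst hn
      rw [p0, map_add, hφact, add_zero, hact 0 (by omega) m x hx]
    · by_cases hn' : n ≤ d
      · rw [p1 n (by omega) hn', hact n hn' m x hx]
      · rw [p2 n (by omega), map_zero, LinearMap.zero_apply]
        split_ifs with hmn
        · rw [hmn, gr_top H (by omega)] at hx
          exact ((Submodule.mem_bot _).1 hx).symm
        · rfl
  · -- commutation
    have key : ∀ z : Cor C X, z * (b₀ : Cor C X) = (b₀ : Cor C X) * z →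
        z * (p n : Cor C X) = (p n : Cor C X) * z := by
      intro z hz
      have hz' : ∀ m, z * (ε m : Cor C X) = (ε m : Cor C X) * z := fun m => by
        simp only [hε]
        rw [aeval_coe]
        exact commute_aeval' hz (E m)
      have hzφ : z * (φ : Cor C X) = (φ : Cor C X) * z := by
        rw [hφ, AddSubgroupClass.coe_sub, AddSubmonoidClass.coe_finset_sum, mul_sub, sub_mul,
          Finset.mul_sum, Finset.sum_mul, Finset.sum_congr rfl fun m _ => hz' m]
        congr 1
        exact (mul_one z).trans (one_mul z).symm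
      rcases Nat.eq_zero_or_pos n with hn | hn
      · subst hn
        rw [p0, AddMemClass.coe_add, mul_add, add_mul, hz', hzφ]
      · by_cases hn' : n ≤ d
        · rw [p1 n (by omega) hn', hz']
        · rw [p2 n (by omega), ZeroMemClass.coe_zero, mul_zero, zero_mul]
    exact (key z hz.symm).symm

/-- A self-dual decomposition from its lower half, with its commutant. -/
lemma exists_SD_of_half (X : 𝒱.Obj) (q : ℕ → cor0 C X)
    (hqq : ∀ m < X.dim, ∀ n < X.dim, q m * q n = if m = n then q m else 0)
    (h1 : ∀ m < X.dim, ∀ n < X.dim, q m * tp0 C X (q n) = 0)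
    (h2 : ∀ m < X.dim, ∀ n < X.dim, tp0 C X (q m) * q n = 0)
    (hact : ∀ n < X.dim, ∀ (m : ℤ) (x : H.A X), x ∈ H.gr X m →
      rhoH H X (q n) x = if m = n then x else 0) :
    ∃ P : ℕ → Cor C X, IsCK H X P ∧ IsSelfDual C (X := X) P ∧ ∀ z : Cor C X,
      (∀ n < X.dim, z * (q n : Cor C X) = (q n : Cor C X) * z ∧
        z * tpR C X (q n : Cor C X) = tpR C X (q n : Cor C X) * z) → ∀ n, z * P n = P n * z := by
  classical
  let Q : ℕ → Cor C X := fun n => if n < X.dim then (q n : Cor C X) else 0
  have hQ : ∀ n < X.dim, Q n = q n := fun n hn => by simp only [Q]; rw [if_pos hn]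
  have hQ' : ∀ n, X.dim ≤ n → Q n = 0 := fun n hn => by simp only [Q]; rw [if_neg (by omega)]
  have hact' : ∀ (n : ℕ) (m : ℤ) (x : H.A X), n < X.dim → x ∈ H.gr X m →
      actH C X H (Q n) x = if m = n then x else 0 := fun n m x hn hx => by
    rw [hQ n hn]
    exact hact n hn m x hx
  obtain ⟨π, p1, p2, p3⟩ := half_strong (H := H) (X := X) Q
    (fun n => by
      by_cases hn : n < X.dim
      · rw [hQ n hn]; exact (q n).2
      · rw [hQ' n (by omega)]; exact (cor0 C X).zero_mem)
    (fun n hn => hQ' n hn)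
    (fun m n => by
      by_cases hm : m < X.dim
      · by_cases hn : n < X.dim
        · rw [hQ m hm, hQ n hn, ← MulMemClass.coe_mul, hqq m hm n hn]
          split_ifs
          · rfl
          · rfl
        · rw [hQ' n (by omega), mul_zero, if_neg (by omega)]
      · rw [hQ' m (by omega), zero_mul]
        split_ifs <;> rfl)
    (fun m n => by
      by_cases hm : m < X.dim
      · by_cases hn : n < X.dim
        · rw [hQ m hm, hQ n hn, ← tp0_coe, ← MulMemClass.coe_mul, h1 m hm n hn]
          rfl
        · rw [hQ' n (by omega), map_zero, mul_zero]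
      · rw [hQ' m (by omega), zero_mul])
    (fun m n => by
      by_cases hm : m < X.dim
      · by_cases hn : n < X.dim
        · rw [hQ m hm, hQ n hn, ← tp0_coe, ← MulMemClass.coe_mul, h2 m hm n hn]
          rfl
        · rw [hQ' n (by omega), mul_zero]
      · rw [hQ' m (by omega), map_zero, zero_mul])
    hact' (fun n m x hn hx => act_tp_proj (by omega) (fun m x hx => hact' n m x hn hx) m x hx)
  let P : ℕ → Cor C X := π
  have hP : IsCK H X P := p1
  refine ⟨P, p1, p2, fun z hz => ?_⟩
  have c1 : ∀ n < X.dim, P n = q n := fun n hn => (p3 n hn).trans (hQ n hn)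
  have c2 : ∀ n, X.dim < n → n ≤ 2 * X.dim → P n = tpR C X (P (2 * X.dim - n)) :=
    fun n hn hn' => by
      have h3 : tpR C X (P (2 * X.dim - n)) = P (2 * X.dim - (2 * X.dim - n)) := p2 _ (by omega)
      rw [h3]
      congr 1
      omega
  have hne : ∀ n, n ≠ X.dim → z * P n = P n * z := by
    intro n hn
    by_cases h3 : n < X.dim
    · rw [c1 n h3]; exact (hz n h3).1
    by_cases h4 : n ≤ 2 * X.dim
    · rw [c2 n (by omega) h4, c1 _ (by omega)]; exact (hz _ (by omega)).2
    · have h5 : P n = 0 := p1.out n (by omega)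
      rw [h5, mul_zero, zero_mul]
  intro n
  by_cases hn : n = X.dim
  · subst hn
    have h3 : P X.dim = 1 - ∑ j ∈ (Finset.range (2 * X.dim + 1)).erase X.dim, P j := by
      have h4 := hP.sum_eq
      rw [← Finset.add_sum_erase _ _ (Finset.mem_range.2 (show X.dim < 2 * X.dim + 1 by omega))]
        at h4
      exact eq_sub_of_add_eq h4
    rw [h3, mul_sub, sub_mul, mul_one, one_mul, Finset.mul_sum, Finset.sum_mul,
      Finset.sum_congr rfl fun j hj => hne j (Finset.ne_of_mem_erase hj)]
  · exact hne n hn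

/-- Self-dual decompositions from normal algebraic correspondences. -/
theorem exists_SD_of_separates {b : C.A (X.prod X)} (hb : Separates H b)
    (hn : C.comp b (tp C b) = C.comp (tp C b) b) :
    ∃ π : ℕ → C.A (X.prod X), IsCK H X π ∧ IsSelfDual C π ∧
      ∀ z : C.A (X.prod X), C.comp z b = C.comp b z → C.comp z (tp C b) = C.comp (tp C b) z →
        ∀ n, C.comp z (π n) = C.comp (π n) z := by
  classical
  let b₀ : cor0 C X := ⟨b, hb.deg⟩
  obtain ⟨E, h1, h2⟩ := exists_family b₀ hb
  set ε : ℕ → cor0 C X := fun n => aeval b₀ (E n) with hε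
  have tε : ∀ n, tp0 C X (ε n) = aeval (tp0 C X b₀) (E n) := fun n => tp_aeval isInv_tp0 b₀ (E n)
  have hbt : tp0 C X b₀ * b₀ = b₀ * tp0 C X b₀ := Subtype.ext hn
  have hcomm : ∀ m n, ε m * tp0 C X (ε n) = tp0 C X (ε n) * ε m := by
    intro m n
    rw [tε]
    simp only [hε]
    have e1 : tp0 C X b₀ * aeval b₀ (E m) = aeval b₀ (E m) * tp0 C X b₀ := commute_aeval' hbt _
    exact commute_aeval' e1.symm _
  have tt : ∀ m ≤ 2 * X.dim, ∀ n ≤ 2 * X.dim, tp0 C X (ε m) * tp0 C X (ε n) =
      if m = n then tp0 C X (ε m) else 0 := by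
    intro m hm n hn
    rw [← isInv_tp0.mul, h1 n hn m hm]
    by_cases h : n = m
    · rw [if_pos h, if_pos h.symm, h]
    · rw [if_neg h, if_neg (Ne.symm h), map_zero]
  have four : ∀ m n m' n', ε m * tp0 C X (ε n) * (ε m' * tp0 C X (ε n')) =
      ε m * ε m' * (tp0 C X (ε n) * tp0 C X (ε n')) := by
    intro m n m' n'
    calc ε m * tp0 C X (ε n) * (ε m' * tp0 C X (ε n'))
        = ε m * (tp0 C X (ε n) * ε m') * tp0 C X (ε n') := by simp only [mul_assoc]
      _ = _ := by rw [← hcomm]; simp only [mul_assoc]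
  have tq : ∀ m n, tp0 C X (ε m * tp0 C X (ε n)) = ε n * tp0 C X (ε m) := fun m n => by
    rw [isInv_tp0.mul, isInv_tp0.inv]
  obtain ⟨P, p1, p2, p3⟩ := exists_SD_of_half (H := H) X
    (fun n => ε n * tp0 C X (ε (2 * X.dim - n)))
    (fun m hm n hn => by
      rw [four, h1 m (by omega) n (by omega), tt _ (by omega) _ (by omega)]
      by_cases h : m = n
      · subst h
        rw [if_pos rfl, if_pos rfl, if_pos rfl]
      · rw [if_neg h, if_neg h, zero_mul])
    (fun m hm n hn => by
      rw [tq, four, h1 m (by omega) _ (by omega), if_neg (by omega), zero_mul])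
    (fun m hm n hn => by
      rw [tq, four, h1 _ (by omega) n (by omega), if_neg (by omega), zero_mul])
    (fun n hn m x hx => by
      have h3 : rhoH H X (tp0 C X (ε (2 * X.dim - n))) x = if m = n then x else 0 := by
        have h4 := act_tp_proj (C := C) (H := H) (X := X) (a := (ε (2 * X.dim - n) : Cor C X))
          (n := 2 * X.dim - n) (by omega) (fun m x hx => h2 _ (by omega) m x hx) m x hx
        rw [show 2 * X.dim - (2 * X.dim - n) = n by omega] at h4
        exact h4
      rw [map_mul, Module.End.mul_apply, h3]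
      split_ifs with h4
      · rw [h2 n (by omega) m x hx, if_pos h4]
      · exact map_zero _)
  refine ⟨P, p1, p2, fun z hz1 hz2 n => ?_⟩
  have key : ∀ z : Cor C X, z * (b₀ : Cor C X) = (b₀ : Cor C X) * z →
      z * (tp0 C X b₀ : Cor C X) = (tp0 C X b₀ : Cor C X) * z → z * P n = P n * z := by
    intro z hz1 hz2
    have hzε : ∀ m, z * (ε m : Cor C X) = (ε m : Cor C X) * z := fun m => by
      simp only [hε]
      rw [aeval_coe]
      exact commute_aeval' hz1 (E m)
    have hztε : ∀ m, z * (tp0 C X (ε m) : Cor C X) = (tp0 C X (ε m) : Cor C X) * z := fun m => by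
      rw [tε, aeval_coe]
      exact commute_aeval' hz2 (E m)
    refine p3 z (fun m hm => ⟨?_, ?_⟩) n
    · rw [MulMemClass.coe_mul, ← mul_assoc, hzε, mul_assoc, hztε, mul_assoc]
    · rw [← tp0_coe, tq, MulMemClass.coe_mul, ← mul_assoc, hzε, mul_assoc, hztε, mul_assoc]
  exact (key z hz1.symm hz2.symm).symm

/-- A Chow-Kunneth decomposition gives an algebraic correspondence separating the degrees. -/
theorem separates_of_CK {π : ℕ → C.A (X.prod X)} (hπ : IsCK H X π) :
    ∃ b : C.A (X.prod X), Separates H b ∧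
      (IsSelfDual C π → C.comp b (tp C b) = C.comp (tp C b) b) := by
  classical
  let π' : ℕ → Cor C X := π
  have hπ' : IsCK H X π' := hπ
  let P : ℕ → cor0 C X := fun n => ⟨π' n, hπ.deg n⟩
  have hP : ∀ n, (P n : Cor C X) = π' n := fun n => rfl
  have PP : ∀ m n, P m * P n = if m = n then P m else 0 := fun m n => Subtype.ext (by
      rw [MulMemClass.coe_mul, hP, hP, hπ'.mul_eq]
      split_ifs
      · rfl
      · rfl)
  have Psum : ∑ n ∈ Finset.range (2 * X.dim + 1), P n = 1 := Subtype.ext (by
      rw [AddSubmonoidClass.coe_finset_sum]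
      exact hπ.sum)
  have hact : ∀ (n : ℕ) (m : ℤ) (x : H.A X), x ∈ H.gr X m →
      rhoH H X (P n) x = if m = n then x else 0 := fun n m x hx => hπ.actH_eq n m hx
  set b : cor0 C X := ∑ n ∈ Finset.range (2 * X.dim + 1), n • P n with hb
  have bP : ∀ m ≤ 2 * X.dim, b * P m = (m : ℚ) • P m := by
    intro m hm
    rw [hb, Finset.sum_mul, Finset.sum_eq_single m]
    · rw [smul_mul_assoc, PP, if_pos rfl, Nat.cast_smul_eq_nsmul]
    · intro n _ hn
      rw [smul_mul_assoc, PP, if_neg hn, smul_zero]
    · intro h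
      exact absurd (Finset.mem_range.2 (by omega)) h
  have QP : ∀ m ≤ 2 * X.dim, ∀ Q : ℚ[X], aeval b Q * P m = Q.eval (m : ℚ) • P m := by
    intro m hm Q
    induction Q using Polynomial.induction_on' with
    | add p q hp hq => rw [map_add, add_mul, hp, hq, eval_add, add_smul]
    | monomial n a =>
      rw [aeval_monomial, eval_monomial, mul_assoc]
      have h : b ^ n * P m = ((m : ℚ) ^ n) • P m := by
        induction n with
        | zero => rw [pow_zero, one_mul, pow_zero, one_smul]
        | succ n ih => rw [pow_succ', mul_assoc, ih, mul_smul_comm, bP m hm, smul_smul, pow_succ]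
      rw [h, ← Algebra.smul_def, smul_smul]
  have hsep : ∀ n ≤ 2 * X.dim, ∀ x ∈ H.gr X n,
      rhoH H X (aeval b (Polynomial.X - Polynomial.C (n : ℚ) : ℚ[X])) x = 0 := by
    intro n hn x hx
    have h1 : rhoH H X b x = n • x := by
      rw [hb, map_sum, LinearMap.sum_apply, Finset.sum_eq_single n]
      · rw [map_nsmul, LinearMap.smul_apply, hact n n x hx, if_pos rfl]
      · intro m _ hm
        rw [map_nsmul, LinearMap.smul_apply, hact m n x hx, if_neg (by exact_mod_cast hm.symm),
          smul_zero]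
      · intro h
        exact absurd (Finset.mem_range.2 (by omega)) h
    rw [map_sub, aeval_X, aeval_C, map_natCast, map_sub, map_natCast, LinearMap.sub_apply, h1,
      Module.End.natCast_apply, sub_self]
  refine ⟨(b : Cor C X), ⟨b.2, ⟨∏ n ∈ Finset.range (2 * X.dim + 1), (Polynomial.X - Polynomial.C (n : ℚ)),
    ?_, ?_⟩, ⟨fun n => Polynomial.X - Polynomial.C (n : ℚ), ?_, ?_⟩⟩, ?_⟩
  · exact Finset.prod_ne_zero_iff.2 fun n _ => X_sub_C_ne_zero _
  · rw [evalCor_eq, ← aeval_coe]
    have h1 : aeval b (∏ n ∈ Finset.range (2 * X.dim + 1),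
        (Polynomial.X - Polynomial.C (n : ℚ))) = 0 := by
      rw [← mul_one (aeval b _), ← Psum, Finset.mul_sum]
      apply Finset.sum_eq_zero
      intro m hm
      have hm' : m ≤ 2 * X.dim := by rw [Finset.mem_range] at hm; omega
      rw [QP m hm', eval_prod, Finset.prod_eq_zero hm, zero_smul]
      rw [eval_sub, eval_X, eval_C, sub_self]
    rw [h1]
    rfl
  · intro m _ n _ hmn
    exact pairwise_coprime_X_sub_C (s := fun n : ℕ => (n : ℚ)) Nat.cast_injective hmn
  · intro n hn x hx
    have h1 := hsep n hn x hx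
    rw [rhoH_apply, aeval_coe, ← evalCor_eq] at h1
    exact h1
  · intro hsd
    have tP : ∀ n ≤ 2 * X.dim, tp0 C X (P n) = P (2 * X.dim - n) := fun n hn =>
      Subtype.ext (hsd n hn)
    have hc : tp0 C X b * b = b * tp0 C X b := by
      have e1 : Commute (tp0 C X b) b := by
        rw [hb, map_sum]
        apply Commute.sum_left
        intro m hm
        apply Commute.sum_right
        intro n _
        rw [Finset.mem_range] at hm
        rw [map_nsmul, tP m (by omega)]
        apply Commute.smul_left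
        apply Commute.smul_right
        change P _ * P _ = P _ * P _
        rw [PP, PP]
        by_cases h : 2 * X.dim - m = n
        · rw [if_pos h, if_pos h.symm, h]
        · rw [if_neg h, if_neg (Ne.symm h)]
      exact e1.eq
    exact congrArg Subtype.val hc

/-- Endomorphisms. -/
theorem exists_SD_of_endo (f : X ⟶ X) {l : ℚ} (hl : l ≠ 0) (hf : C.push f 1 = l • 1)
    (hsep : Separates H (C.cograph f)) :
    ∃ π : ℕ → C.A (X.prod X), IsCK H X π ∧ IsSelfDual C π ∧ ∀ n,
      C.comp (C.graph f) (π n) = C.comp (π n) (C.graph f) ∧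
      C.comp (C.cograph f) (π n) = C.comp (π n) (C.cograph f) := by
  obtain ⟨P, hP, hPb⟩ := hsep.alg
  have h2 : C.comp (C.cograph f) (C.graph f) = l • dg C X := by
    have h2 : C.mulCorr (l • (1 : C.A X)) = l • dg C X := map_smul (C.push _) _ _
    rw [cograph_graph, hf, h2]
  have key : ∀ b c : Cor C X, c * b = l • (1 : Cor C X) → evalCor C (X := X) b P = 0 →
      b * c = c * b := fun b c h h' => comm_of_left_inv hl h P.natDegree P hP le_rfl (by
        rw [← evalCor_eq]
        exact h')
  have h3 : C.comp (C.graph f) (C.cograph f) = C.comp (C.cograph f) (C.graph f) :=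
    key (C.cograph f) (C.graph f) h2 hPb
  have h4 := tp_cograph (C := C) f
  obtain ⟨π, p1, p2, p3⟩ := exists_SD_of_separates hsep (by rw [h4]; exact h3.symm)
  rw [h4] at p3
  exact ⟨π, p1, p2, fun n => ⟨p3 _ h3 rfl n, p3 _ rfl h3.symm n⟩⟩

end Pool.Agent.U3.SD
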