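import Pool.Agent.TH133.Defs
import Pool.Agent.TH829.Kim.Defs
import Pool.Agent.Y107.SDDefs

/-!
# Projections onto the lower half of the cohomology: definitions
-/

set_option autoImplicit false

open CategoryTheory AlgebraicGeometry

universe u v w

namespace Pool.Agent.U3.SD

open Pool.Agent.H914 Pool.Agent.H914.VarClass Pool.Agent.H914.VarClass.Obj Pool.Agent.W492.BB
  Pool.Agent.W550.Corr Pool.Agent.TH133 Pool.Agent.Y107

variable {k : Type u} [Field k] {𝒱 : VarClass k}
variable {C : TheoryData.{u, v, 0} 𝒱 ℚ} {K : Type w} [Field K] (H : WeilTheoryData.{u, v, w} C K)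

/-- The self-correspondence `a` of degree zero of `X` acts on `H^*(X)` as the projection onto
`H^n(X)`. Nothing is said about `a` modulo rational equivalence; it need not be idempotent. -/
def IsProj {X : 𝒱.Obj} (n : ℕ) (a : C.A (X.prod X)) : Prop :=
  C.Deg X.dim a ∧ ∀ (m : ℤ) (x : H.A X), H.Deg m x → H.act (H.cl a) x = if m = n then x else 0

/-- For all homologically trivial self-correspondences `x` of degree zero of `X` the
self-correspondence `a ∘ x` (first `x`) is nilpotent. For `a` the diagonal: all homologically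
trivial self-correspondences of degree zero are nilpotent. -/
def HomNil {X : 𝒱.Obj} (a : C.A (X.prod X)) : Prop :=
  ∀ x : C.A (X.prod X), C.Deg X.dim x → H.cl x = 0 → ∃ N : ℕ, corPow C (C.comp x a) N = 0

/-- The correspondence `c` on the target `Y` of the morphism `f : X ⟶ Y`, `r = dim Y - dim X`, of
degree `-r`, is an inverse of the operator `f_* f^*` from `H^n(Y)` to `H^(n + 2 r)(Y)`, and acts as
zero on `H^m(Y)` for `m ≠ n + 2 r`. (For the inclusion of a subvariety `f_* f^*` is the product with
the class of `X`; if `X` is a complete intersection of `r` divisors in the class of an ample divisor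
of `Y` and `n ≤ dim X`, such a `c` exists if `Y` satisfies the Lefschetz standard conjecture.) -/
def Inverts {X Y : 𝒱.Obj} (f : X ⟶ Y) (n : ℕ) (c : C.A (Y.prod Y)) : Prop :=
  C.Deg X.dim c ∧
  (∀ y : H.A Y, H.Deg n y → H.act (H.cl c) (H.push f (H.pull f y)) = y) ∧
  ∀ (m : ℤ) (y : H.A Y), m ≠ n + 2 * ((Y.dim : ℤ) - X.dim) → H.Deg m y → H.act (H.cl c) y = 0

/-- `X` has a self-dual Chow-Kunneth decomposition `π` such that for `n < dim X` the idempotent
`π n` is a composition `X ⟶ Y n ⟶ X` of correspondences of degrees `r n` and `- r n`, that is,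
the motive `h^n(X) = (X, π n)` is a direct factor of a twist of `h(Y n)`. -/
def HasSelfDualCK (X : 𝒱.Obj) (Y : ℕ → 𝒱.Obj) (r : ℕ → ℤ) : Prop :=
  ∃ π : ℕ → C.A (X.prod X), IsCK H X π ∧ IsSelfDual C π ∧ ∀ n < X.dim,
    ∃ (α : C.A (X.prod (Y n))) (β : C.A ((Y n).prod X)), C.Deg ((X.dim : ℤ) + r n) α ∧
      C.Deg (((Y n).dim : ℤ) - r n) β ∧ π n = C.comp α β

end Pool.Agent.U3.SD
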