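import Pool.Agent.U3.SD.Half
import Pool.Agent.U3.SD.Defs
import Pool.Agent.TH133.SelfDual
import Pool.Agent.N174.OV.Main

/-!
# Self-dual Chow-Kunneth decompositions from the lower half
-/

set_option autoImplicit false

open CategoryTheory AlgebraicGeometry

universe u v w

namespace Pool.Agent.U3.SD

open Pool.Agent.H914 Pool.Agent.H914.VarClass Pool.Agent.H914.VarClass.Obj Pool.Agent.W492.BB
  Pool.Agent.W550.Corr Pool.Agent.TH133 Pool.Agent.Y107 Pool.Agent.TH829.Kim

set_option linter.unusedSectionVars false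

variable {k : Type u} [Field k] {𝒱 : VarClass k}

variable {C : TheoryData.{u, v, 0} 𝒱 ℚ} [hC : IsChowProj C] {K : Type w} [Field K]
  {H : WeilTheoryData.{u, v, w} C K} [hH : IsWeilProj H] {X Y Z W : 𝒱.Obj}

include hC hH

/-- A self-dual Chow-Kunneth decomposition with given first half. -/
theorem half_strong (q : ℕ → Cor C X) (hm : ∀ n, q n ∈ cor0 C X)
    (hout : ∀ n, X.dim ≤ n → q n = 0)
    (hqq : ∀ m n, q m * q n = if m = n then q m else 0)
    (h1 : ∀ m n, q m * tpR C X (q n) = 0) (h2 : ∀ m n, tpR C X (q m) * q n = 0)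
    (hact : ∀ (n : ℕ) (m : ℤ) (a : H.A X), n < X.dim → a ∈ H.gr X m →
      actH C X H (q n) a = if m = n then a else 0)
    (hact' : ∀ (n : ℕ) (m : ℤ) (a : H.A X), n < X.dim → a ∈ H.gr X m →
      actH C X H (tpR C X (q n)) a = if m = (2 * X.dim - n : ℕ) then a else 0) :
    ∃ π, IsCK H X π ∧ IsSelfDual C π ∧ ∀ n < X.dim, π n = q n := by
  set d := X.dim with hd
  have htt : ∀ m n, tpR C X (q m) * tpR C X (q n) = if m = n then tpR C X (q m) else 0 := by
    intro m n
    rw [← tpR_mul, hqq]
    by_cases h : n = m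
    · rw [if_pos h, if_pos h.symm, h]
    · rw [if_neg h, if_neg (Ne.symm h), map_zero]
  let e : Cor C X := ∑ n ∈ Finset.range d, (q n + tpR C X (q n))
  have hqe : ∀ m < d, q m * e = q m := by
    intro m hm'
    simp only [e]
    rw [Finset.mul_sum, Finset.sum_eq_single m]
    · rw [mul_add, hqq, if_pos rfl, h1, add_zero]
    · intro n _ hn
      rw [mul_add, hqq, if_neg (Ne.symm hn), h1, add_zero]
    · intro h
      exact absurd (Finset.mem_range.2 hm') h
  have heq : ∀ m < d, e * q m = q m := by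
    intro m hm'
    simp only [e]
    rw [Finset.sum_mul, Finset.sum_eq_single m]
    · rw [add_mul, hqq, if_pos rfl, h2, add_zero]
    · intro n _ hn
      rw [add_mul, hqq, if_neg hn, h2, add_zero]
    · intro h
      exact absurd (Finset.mem_range.2 hm') h
  have hte : ∀ m < d, tpR C X (q m) * e = tpR C X (q m) := by
    intro m hm'
    simp only [e]
    rw [Finset.mul_sum, Finset.sum_eq_single m]
    · rw [mul_add, htt, if_pos rfl, h2, zero_add]
    · intro n _ hn
      rw [mul_add, htt, if_neg (Ne.symm hn), h2, add_zero]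
    · intro h
      exact absurd (Finset.mem_range.2 hm') h
  have het : ∀ m < d, e * tpR C X (q m) = tpR C X (q m) := by
    intro m hm'
    simp only [e]
    rw [Finset.sum_mul, Finset.sum_eq_single m]
    · rw [add_mul, htt, if_pos rfl, h1, zero_add]
    · intro n _ hn
      rw [add_mul, htt, if_neg hn, h1, add_zero]
    · intro h
      exact absurd (Finset.mem_range.2 hm') h
  have hee : e * e = e := by
    have : e * e = ∑ n ∈ Finset.range d, (q n + tpR C X (q n)) * e := by
      rw [← Finset.sum_mul]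
    rw [this]
    apply Finset.sum_congr rfl
    intro n hn
    rw [Finset.mem_range] at hn
    rw [add_mul, hqe n hn, hte n hn]
  have hem : e ∈ cor0 C X := (cor0 C X).sum_mem fun n _ =>
    (cor0 C X).add_mem (hm n) (tpR_mem (hm n))
  let Q : ℕ → Cor C X := fun n => if n < d then q n else if n = d then 1 - e else
    if n ≤ 2 * d then tpR C X (q (2 * d - n)) else 0
  have Q1 : ∀ n < d, Q n = q n := fun n hn => by simp only [Q]; rw [if_pos hn]
  have Q2 : Q d = 1 - e := by simp [Q]
  have Q3 : ∀ n, d < n → n ≤ 2 * d → Q n = tpR C X (q (2 * d - n)) := fun n hn hn' => by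
    simp only [Q]; rw [if_neg (by omega), if_neg (by omega), if_pos hn']
  have Q4 : ∀ n, 2 * d < n → Q n = 0 := fun n hn => by
    simp only [Q]; rw [if_neg (by omega), if_neg (by omega), if_neg (by omega)]
  have Qcases : ∀ n, n < d ∨ n = d ∨ (d < n ∧ n ≤ 2 * d) ∨ 2 * d < n := fun n => by omega
  have Qe : ∀ n, n ≠ d → Q n * e = Q n ∧ e * Q n = Q n := by
    intro n hn
    rcases Qcases n with h | h | h | h
    · rw [Q1 n h]; exact ⟨hqe n h, heq n h⟩
    · exact absurd h hn
    · rw [Q3 n h.1 h.2]; exact ⟨hte _ (by omega), het _ (by omega)⟩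
    · rw [Q4 n h]; exact ⟨zero_mul _, mul_zero _⟩
  have Qsum : ∑ n ∈ Finset.range (2 * d + 1), Q n = 1 := by
    have e1 : Finset.range (2 * d + 1) = Finset.range (d + (d + 1)) := by congr 1; omega
    rw [e1, Finset.sum_range_add, Finset.sum_range_succ']
    have e2 : ∑ x ∈ Finset.range d, Q x = ∑ x ∈ Finset.range d, q x :=
      Finset.sum_congr rfl fun x hx => Q1 x (Finset.mem_range.1 hx)
    have e3 : ∑ x ∈ Finset.range d, Q (d + (x + 1)) = ∑ x ∈ Finset.range d, tpR C X (q x) := by
      rw [← Finset.sum_range_reflect (fun x => tpR C X (q x))]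
      apply Finset.sum_congr rfl
      intro x hx
      rw [Finset.mem_range] at hx
      rw [Q3 _ (by omega) (by omega)]
      congr 2
      omega
    rw [e2, e3, add_zero, Q2]
    simp only [e]
    rw [Finset.sum_add_distrib]
    abel
  refine ⟨Q, isCK_of ?_ ?_ ?_ ?_ ?_, ?_, Q1⟩
  · intro n
    rcases Qcases n with h | h | h | h
    · rw [Q1 n h]; exact hm n
    · rw [h, Q2]; exact (cor0 C X).sub_mem (cor0 C X).one_mem hem
    · rw [Q3 n h.1 h.2]; exact tpR_mem (hm _)
    · rw [Q4 n h]; exact (cor0 C X).zero_mem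
  · exact Q4
  · intro m n
    by_cases hmd : m = d
    · rw [hmd]
      by_cases hnd : n = d
      · rw [if_pos hnd.symm, hnd, Q2, mul_sub, mul_one, sub_mul, one_mul, hee, sub_self,
          sub_zero]
      · rw [if_neg (Ne.symm hnd), Q2, sub_mul, one_mul, (Qe n hnd).2, sub_self]
    · by_cases hnd : n = d
      · rw [if_neg (by omega), hnd, Q2, mul_sub, mul_one, (Qe m hmd).1, sub_self]
      · rcases Qcases m with h | h | h | h
        · rw [Q1 m h]
          rcases Qcases n with h' | h' | h' | h'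
          · rw [Q1 n h', hqq]
          · exact absurd h' hnd
          · rw [Q3 n h'.1 h'.2, h1, if_neg (by omega)]
          · rw [Q4 n h', mul_zero, if_neg (by omega)]
        · exact absurd h hmd
        · rw [Q3 m h.1 h.2]
          rcases Qcases n with h' | h' | h' | h'
          · rw [Q1 n h', h2, if_neg (by omega)]
          · exact absurd h' hnd
          · rw [Q3 n h'.1 h'.2, htt]
            by_cases hmn : m = n
            · rw [if_pos (by omega), if_pos hmn]
            · rw [if_neg (by omega), if_neg hmn]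
          · rw [Q4 n h', mul_zero, if_neg (by omega)]
        · rw [Q4 m h, zero_mul]
          split_ifs
          · rfl
          · rfl
  · exact Qsum
  · have hact2 : ∀ (n : ℕ) (m : ℤ) (a : H.A X), n ≠ d → a ∈ H.gr X m →
        actH C X H (Q n) a = if m = n then a else 0 := by
      intro n m a hn ha
      rcases Qcases n with h | h | h | h
      · rw [Q1 n h, hact n m a h ha]
      · exact absurd h hn
      · rw [Q3 n h.1 h.2, hact' _ m a (by omega) ha]
        congr 1
        rw [show 2 * X.dim - (2 * d - n) = n by omega]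
      · rw [Q4 n h, map_zero, LinearMap.zero_apply]
        split_ifs with hmn
        · rw [hmn, gr_top H (by omega)] at ha
          exact ((Submodule.mem_bot _).1 ha).symm
        · rfl
    intro n m a ha
    by_cases hn : n = d
    · have h3 : actH C X H (∑ n ∈ Finset.range (2 * d + 1), Q n) a = a := by
        rw [Qsum, map_one]; rfl
      rw [map_sum, LinearMap.sum_apply, ← Finset.add_sum_erase _ _
        (Finset.mem_range.2 (show n < 2 * d + 1 by omega))] at h3
      have h4 : ∀ j ∈ (Finset.range (2 * d + 1)).erase n, actH C X H (Q j) a =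
          if m = j then a else 0 := fun j hj => hact2 j m a (by
            rw [Finset.mem_erase] at hj
            rw [← hn]; exact hj.1) ha
      rw [Finset.sum_congr rfl h4] at h3
      by_cases hmn : m = n
      · rw [Finset.sum_eq_zero, add_zero] at h3
        · rw [h3, if_pos hmn]
        · intro j hj
          rw [Finset.mem_erase] at hj
          rw [if_neg]
          intro h5
          apply hj.1
          exact_mod_cast (h5.symm.trans hmn)
      · rw [if_neg hmn]
        by_cases ha0 : a = 0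
        · rw [ha0, map_zero]
        · have hm0 := nonneg_of_mem H ha ha0
          have hm1 : m ≤ 2 * X.dim := by
            by_contra hcon
            rw [gr_top H (by omega)] at ha
            exact ha0 ((Submodule.mem_bot _).1 ha)
          obtain ⟨m, rfl⟩ := Int.eq_ofNat_of_zero_le hm0
          rw [Finset.sum_eq_single m] at h3
          · rw [if_pos rfl] at h3
            exact add_eq_right.1 h3
          · intro j _ hj
            rw [if_neg]
            intro h5
            apply hj
            exact_mod_cast h5.symm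
          · intro h5
            exfalso
            apply h5
            rw [Finset.mem_erase, Finset.mem_range]
            constructor
            · intro h6
              apply hmn
              rw [h6]
            · omega
    · exact hact2 n m a hn ha
  · intro n hn
    change tpR C X (Q n) = Q (2 * d - n)
    rcases Qcases n with h | h | h | h
    · by_cases hn0 : n < d
      · rw [Q1 n h, Q3 _ (by omega) (by omega)]
        congr 2
        omega
      · omega
    · rw [h, show 2 * d - d = d by omega, Q2, map_sub, tpR_one]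
      congr 1
      simp only [e]
      rw [map_sum]
      apply Finset.sum_congr rfl
      intro x _
      rw [map_add, tpR_tpR, add_comm]
    · rw [Q3 n h.1 h.2, tpR_tpR, Q1 _ (by omega)]
    · omega

/-! ### The involution of the ring of correspondences of degree zero -/

omit hH in
/-- The transpose on the ring of correspondences of degree zero. -/
noncomputable def tp0 (C : TheoryData.{u, v, 0} 𝒱 ℚ) [hC : IsChowProj C] (X : 𝒱.Obj) :
    cor0 C X →+ cor0 C X where
  toFun a := ⟨tpR C X a, tpR_mem a.2⟩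
  map_zero' := Subtype.ext (map_zero (tpR C X))
  map_add' a b := Subtype.ext (map_add (tpR C X) (a : Cor C X) b)

omit hH in
lemma tp0_coe (a : cor0 C X) : (tp0 C X a : Cor C X) = tpR C X a := rfl

omit hH in
lemma isInv_tp0 : IsInv (tp0 C X) where
  mul a b := Subtype.ext (tpR_mul (a : Cor C X) b)
  inv a := Subtype.ext (tpR_tpR (a : Cor C X))

lemma cl_tp_zero {a : C.A (X.prod X)} (h : H.cl a = 0) : H.cl (tp C a) = 0 := by
  rw [cl_tp, h, tp, map_zero]

lemma actH_tpR_zero {a : Cor C X} (h : actH C X H a = 0) : actH C X H (tpR C X a) = 0 := by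
  have h1 : H.cl (X := X.prod X) a = 0 := hom_zero_of_act H fun x => LinearMap.congr_fun h x
  have h2 : H.cl (X := X.prod X) (tpR C X a) = 0 := cl_tp_zero (X := X) (a := a) h1
  apply LinearMap.ext
  intro x
  rw [actH_apply, h2, LinearMap.zero_apply]
  exact H.act_zero x

variable (H X) in
/-- The ideal of homologically trivial correspondences. -/
def JH (a : cor0 C X) : Prop :=
  actH C X H (a : Cor C X) = 0

lemma isIdl_JH : IsIdl (tp0 C X) (JH H X) where
  zero := by unfold JH; rw [ZeroMemClass.coe_zero, map_zero]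
  add {a b} ha hb := by
    unfold JH at *
    rw [AddMemClass.coe_add, map_add, ha, hb, add_zero]
  neg {a} ha := by
    unfold JH at *
    rw [NegMemClass.coe_neg, map_neg, ha, neg_zero]
  left {a} r ha := by
    unfold JH at *
    rw [MulMemClass.coe_mul, map_mul, ha, mul_zero]
  right {a} r ha := by
    unfold JH at *
    rw [MulMemClass.coe_mul, map_mul, ha, zero_mul]
  inv {a} ha := by
    unfold JH at *
    rw [tp0_coe]
    exact actH_tpR_zero ha

/-- The transpose of the projection onto `H^n(X)` is the projection onto `H^(2d - n)(X)`. -/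
lemma act_tp_proj' {a : C.A (X.prod X)} {n : ℕ} (hn : n ≤ 2 * X.dim)
    (h : ∀ (m : ℤ) (x : H.A X), x ∈ H.gr X m → H.act (H.cl a) x = if m = n then x else 0)
    (m : ℤ) (b : H.A X) (hb : b ∈ H.gr X m) :
    H.act (H.cl (tp C a)) b = if m = (2 * X.dim - n : ℕ) then b else 0 := by
  split_ifs with hm
  · rw [← sub_eq_zero]
    apply H.nondeg
    have h2 : H.tr X ∘ₗ LinearMap.mulLeft K (H.act (H.cl (tp C a)) b) =
        H.tr X ∘ₗ LinearMap.mulLeft K b := by
      apply ext_gr H
      intro j x hx
      rw [LinearMap.comp_apply, LinearMap.comp_apply, LinearMap.mulLeft_apply,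
        LinearMap.mulLeft_apply, tr_act' H, h j x hx]
      split_ifs with h3
      · rfl
      · rw [mul_zero, map_zero]
        exact (tr_zero H (H.mul_mem hb hx) (by omega)).symm
    intro x
    have h3 := LinearMap.congr_fun h2 x
    rw [LinearMap.comp_apply, LinearMap.comp_apply, LinearMap.mulLeft_apply,
      LinearMap.mulLeft_apply] at h3
    rw [sub_mul, map_sub, h3, sub_self]
  · apply H.nondeg
    have h2 : H.tr X ∘ₗ LinearMap.mulLeft K (H.act (H.cl (tp C a)) b) = 0 := by
      apply ext_gr H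
      intro j x hx
      rw [LinearMap.comp_apply, LinearMap.mulLeft_apply, tr_act' H, h j x hx,
        LinearMap.zero_apply]
      split_ifs with h3
      · exact tr_zero H (H.mul_mem hb hx) (by omega)
      · rw [mul_zero, map_zero]
    exact fun x => LinearMap.congr_fun h2 x

lemma act_tp_proj {a : Cor C X} {n : ℕ} (hn : n ≤ 2 * X.dim)
    (h : ∀ (m : ℤ) (x : H.A X), x ∈ H.gr X m → actH C X H a x = if m = n then x else 0)
    (m : ℤ) (b : H.A X) (hb : b ∈ H.gr X m) :
    actH C X H (tpR C X a) b = if m = (2 * X.dim - n : ℕ) then b else 0 :=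
  act_tp_proj' (X := X) (a := a) hn h m b hb

lemma isProj_act {n : ℕ} {a : C.A (X.prod X)} (h : IsProj H n a) (m : ℤ) (x : H.A X)
    (hx : x ∈ H.gr X m) : actH C X H (a : Cor C X) x = if m = n then x else 0 := h.2 m x hx

lemma nilpotent_iff (z : Cor C X) : IsNilpotent z ↔ ∃ N : ℕ, corPow C (X := X) z N = 0 := by
  constructor
  · rintro ⟨N, hN⟩
    exact ⟨N, by rw [corPow_eq]; exact hN⟩
  · rintro ⟨N, hN⟩
    rw [corPow_eq] at hN
    exact ⟨N, hN⟩

lemma homNil_iff {a : Cor C X} : HomNil H (X := X) a ↔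
    ∀ x ∈ cor0 C X, H.cl (X := X.prod X) x = 0 → IsNilpotent (a * x) := by
  constructor
  · intro h x hx h0
    exact (nilpotent_iff (H := H) _).2 (h x hx h0)
  · intro h x hx h0
    exact (nilpotent_iff (H := H) _).1 (h x hx h0)

/-- **The main theorem** in terms of operators: a self-dual Chow-Kunneth decomposition from the
projections onto the lower half. -/
theorem exists_selfDual (a : ℕ → C.A (X.prod X)) (h : ∀ n < X.dim, IsProj H n (a n))
    (hnil : ∀ n < X.dim, HomNil H (a n)) : ∃ π, IsCK H X π ∧ IsSelfDual C π ∧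
      ∀ n < X.dim, ∃ u v : C.A (X.prod X), C.Deg X.dim u ∧ C.Deg X.dim v ∧
        π n = C.comp (C.comp u (a n)) v := by
  classical
  set d := X.dim with hd
  have ha0 : ∀ n < d, a n ∈ C.gr (X.prod X) X.dim := fun n hn => (h n hn).1
  let A : ℕ → cor0 C X := fun n => if hn : n < d then ⟨a n, ha0 n hn⟩ else 0
  have hA : ∀ n < d, (A n : Cor C X) = a n := fun n hn => by
    simp only [A]
    rw [dif_pos hn]
  have hact : ∀ n < d, ∀ (m : ℤ) (x : H.A X), x ∈ H.gr X m →
      actH C X H (A n : Cor C X) x = if m = n then x else 0 := fun n hn m x hx => by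
    rw [hA n hn]
    exact isProj_act (h n hn) m x hx
  have hact' : ∀ n < d, ∀ (m : ℤ) (x : H.A X), x ∈ H.gr X m →
      actH C X H (tpR C X (A n : Cor C X)) x = if m = (2 * X.dim - n : ℕ) then x else 0 :=
    fun n hn m x hx => act_tp_proj (by omega) (hact n hn) m x hx
  have c1 : ∀ m < d, ∀ n < d, JH H X (A m * A n - if m = n then A m else 0) := by
    intro m hm n hn
    unfold JH
    rw [AddSubgroupClass.coe_sub, MulMemClass.coe_mul, map_sub, map_mul, sub_eq_zero]
    apply ext_gr H
    intro j x hx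
    rw [Module.End.mul_apply, hact n hn j x hx]
    by_cases hmn : m = n
    · rw [if_pos hmn, hact m hm j x hx]
      by_cases hj : j = n
      · rw [if_pos hj, if_pos (by omega), hact m hm j x hx, if_pos (by omega)]
      · rw [if_neg hj, if_neg (by omega), map_zero]
    · rw [if_neg hmn, ZeroMemClass.coe_zero, map_zero, LinearMap.zero_apply]
      by_cases hj : j = n
      · rw [if_pos hj, hact m hm j x hx, if_neg (by omega)]
      · rw [if_neg hj, map_zero]
  have c2 : ∀ m < d, ∀ n < d, JH H X (A m * tp0 C X (A n)) := by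
    intro m hm n hn
    unfold JH
    rw [MulMemClass.coe_mul, map_mul, tp0_coe]
    apply ext_gr H
    intro j x hx
    rw [Module.End.mul_apply, hact' n hn j x hx, LinearMap.zero_apply]
    by_cases hj : j = (2 * X.dim - n : ℕ)
    · rw [if_pos hj, hact m hm j x hx, if_neg (by omega)]
    · rw [if_neg hj, map_zero]
  have c3 : ∀ m < d, ∀ n < d, JH H X (tp0 C X (A m) * A n) := by
    intro m hm n hn
    unfold JH
    rw [MulMemClass.coe_mul, map_mul, tp0_coe]
    apply ext_gr H
    intro j x hx
    rw [Module.End.mul_apply, hact n hn j x hx, LinearMap.zero_apply]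
    by_cases hj : j = n
    · rw [if_pos hj, hact' m hm j x hx, if_neg (by omega)]
    · rw [if_neg hj, map_zero]
  have c4 : ∀ n < d, ∀ x, JH H X x → IsNilpotent (A n * x) := by
    intro n hn x hx
    have hx0 : H.cl (X := X.prod X) (x : Cor C X) = 0 :=
      hom_zero_of_act H fun y => LinearMap.congr_fun hx y
    obtain ⟨N, hN⟩ := homNil_iff.1 (hnil n hn) (x : Cor C X) x.2 hx0
    refine ⟨N, Subtype.ext ?_⟩
    rw [SubmonoidClass.coe_pow, MulMemClass.coe_mul, hA n hn]
    exact hN
  obtain ⟨q, k1, k2, k3, k4, k5⟩ := exists_half (R := cor0 C X) isInv_tp0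
    (isIdl_JH (H := H)) d A c1 c2 c3 c4 d le_rfl
  let Q : ℕ → Cor C X := fun n => if n < d then (q n : Cor C X) else 0
  have hQ : ∀ n < d, Q n = q n := fun n hn => by simp only [Q]; rw [if_pos hn]
  have hQ' : ∀ n, d ≤ n → Q n = 0 := fun n hn => by simp only [Q]; rw [if_neg (by omega)]
  have hactQ : ∀ n < d, actH C X H (Q n) = actH C X H (A n : Cor C X) := by
    intro n hn
    have h1 : actH C X H ((q n - A n : cor0 C X) : Cor C X) = 0 := k4 n hn
    rw [AddSubgroupClass.coe_sub, map_sub, sub_eq_zero] at h1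
    rw [hQ n hn, h1]
  have hQact : ∀ n < d, ∀ (m : ℤ) (x : H.A X), x ∈ H.gr X m →
      actH C X H (Q n) x = if m = n then x else 0 := fun n hn m x hx => by
    rw [hactQ n hn, hact n hn m x hx]
  have m1 : ∀ n, Q n ∈ cor0 C X := by
    intro n
    by_cases hn : n < d
    · rw [hQ n hn]; exact (q n).2
    · rw [hQ' n (by omega)]; exact (cor0 C X).zero_mem
  have m2 : ∀ m n, Q m * Q n = if m = n then Q m else 0 := by
    intro m n
    by_cases hm : m < d
    · by_cases hn : n < d
      · rw [hQ m hm, hQ n hn, ← MulMemClass.coe_mul, k1 m hm n hn]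
        split_ifs
        · rfl
        · rfl
      · rw [hQ' n (by omega), mul_zero, if_neg (by omega)]
    · rw [hQ' m (by omega), zero_mul]
      split_ifs <;> rfl
  have m3 : ∀ m n, Q m * tpR C X (Q n) = 0 := by
    intro m n
    by_cases hm : m < d
    · by_cases hn : n < d
      · rw [hQ m hm, hQ n hn, ← tp0_coe, ← MulMemClass.coe_mul, k2 m hm n hn]
        rfl
      · rw [hQ' n (by omega), map_zero, mul_zero]
    · rw [hQ' m (by omega), zero_mul]
  have m4 : ∀ m n, tpR C X (Q m) * Q n = 0 := by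
    intro m n
    by_cases hm : m < d
    · by_cases hn : n < d
      · rw [hQ m hm, hQ n hn, ← tp0_coe, ← MulMemClass.coe_mul, k3 m hm n hn]
        rfl
      · rw [hQ' n (by omega), mul_zero]
    · rw [hQ' m (by omega), map_zero, zero_mul]
  obtain ⟨π, p1, p2, p3⟩ := half_strong (H := H) Q m1 (fun n hn => hQ' n hn) m2 m3 m4
    (fun n m x hn hx => hQact n hn m x hx)
    (fun n m x hn hx => act_tp_proj (by omega) (hQact n hn) m x hx)
  refine ⟨π, p1, p2, fun n hn => ?_⟩
  obtain ⟨u, v, huv⟩ := k5 n hn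
  refine ⟨(v : Cor C X), (u : Cor C X), v.2, u.2, ?_⟩
  have e1 : π n = ((u : Cor C X) * (A n : Cor C X)) * (v : Cor C X) := by
    rw [p3 n hn, hQ n hn, huv, MulMemClass.coe_mul, MulMemClass.coe_mul]
  rw [e1, hA n hn]
  exact (comp_assoc C (X := X) (Y := X) (Z := X) (W := X) _ _ _).symm

lemma cor_eq_zero_of_cl {a : Cor C X} (h : H.cl (X := X.prod X) a = 0) : actH C X H a = 0 := by
  apply LinearMap.ext
  intro x
  rw [actH_apply, h, LinearMap.zero_apply]
  exact H.act_zero x

lemma cl_mul_left {a b : Cor C X} (h : H.cl (X := X.prod X) b = 0) :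
    H.cl (X := X.prod X) (a * b) = 0 := by
  apply hom_zero_of_act H
  have h1 : actH C X H (a * b) = 0 := by rw [map_mul, cor_eq_zero_of_cl h, mul_zero]
  exact fun x => LinearMap.congr_fun h1 x

lemma cl_mul_right {a b : Cor C X} (h : H.cl (X := X.prod X) a = 0) :
    H.cl (X := X.prod X) (a * b) = 0 := by
  apply hom_zero_of_act H
  have h1 : actH C X H (a * b) = 0 := by rw [map_mul, cor_eq_zero_of_cl h, zero_mul]
  exact fun x => LinearMap.congr_fun h1 x

lemma comp_eq_mul (u a v : Cor C X) : C.comp (X := X) (Y := X) (Z := X)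
    (C.comp (X := X) (Y := X) (Z := X) u a) v = v * a * u :=
  comp_assoc C (X := X) (Y := X) (Z := X) (W := X) _ _ _

/-- The nilpotency passes from `a` to `u ∘ a ∘ v`. -/
lemma homNil_sandwich {a u v : Cor C X} (hu : u ∈ cor0 C X) (hv : v ∈ cor0 C X)
    (h : HomNil H (X := X) a) : HomNil H (X := X) (C.comp (X := X) (Y := X) (Z := X)
      (C.comp (X := X) (Y := X) (Z := X) u a) v) := by
  rw [homNil_iff] at h
  rw [comp_eq_mul (H := H), homNil_iff]
  intro x hx h0
  have e1 : v * a * u * x = v * (a * (u * x)) := by simp only [mul_assoc]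
  rw [e1]
  apply isNilpotent_mul_comm
  rw [mul_assoc]
  refine h _ ((cor0 C X).mul_mem ((cor0 C X).mul_mem hu hx) hv) ?_
  exact cl_mul_right (cl_mul_left h0)

/-- The characterisation. -/
theorem iff_selfDual (X : 𝒱.Obj) : (∀ n < X.dim, ∃ a, IsProj H (X := X) n a ∧ HomNil H a) ↔
    ∃ π, IsCK H X π ∧ IsSelfDual C π ∧ ∀ n < X.dim, HomNil H (π n) := by
  constructor
  · intro h
    choose! a ha using h
    obtain ⟨π, h1, h2, h3⟩ := exists_selfDual (H := H) a (fun n hn => (ha n hn).1)
      (fun n hn => (ha n hn).2)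
    refine ⟨π, h1, h2, fun n hn => ?_⟩
    obtain ⟨u, v, hu, hv, e⟩ := h3 n hn
    rw [e]
    exact homNil_sandwich (H := H) (X := X) hu hv (ha n hn).2
  · rintro ⟨π, h1, _, h3⟩ n hn
    exact ⟨π n, ⟨h1.deg n, fun m x hx => h1.actH_eq n m hx⟩, h3 n hn⟩

/-- If `a` factors through a variety `Y` all of whose homologically trivial self-correspondences of
degree zero are nilpotent, then `HomNil` holds for `a`. -/
lemma homNil_factor {r : ℤ} {α : C.A (X.prod Y)} {β : C.A (Y.prod X)}
    (hα : C.Deg ((X.dim : ℤ) + r) α) (hβ : C.Deg ((Y.dim : ℤ) - r) β)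
    (h : HomNil H (dg C Y)) : HomNil H (C.comp α β) := by
  intro x hx h0
  -- `β ∘ x ∘ α`
  set U : C.A (X.prod Y) := C.comp x α with hU
  have hclU : H.cl U = 0 := by rw [hU, cl_comp, h0, zero_comp]
  have hx' : x ∈ C.gr (X.prod X) ((X.dim : ℤ) + 0) := by rw [add_zero]; exact hx
  have hα' : α ∈ C.gr (X.prod Y) ((X.dim : ℤ) + r) := hα
  have hUmem : U ∈ C.gr (X.prod Y) ((X.dim : ℤ) + (0 + r)) := comp_mem C hx' hα'
  have hβ' : β ∈ C.gr (Y.prod X) ((Y.dim : ℤ) + -r) := hβ
  have hV : C.comp β U ∈ C.gr (Y.prod Y) ((Y.dim : ℤ) + (-r + (0 + r))) := comp_mem C hβ' hUmem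
  rw [show (Y.dim : ℤ) + (-r + (0 + r)) = Y.dim by ring] at hV
  have hVcl : H.cl (C.comp β U) = 0 := by rw [cl_comp, hclU, comp_zero]
  obtain ⟨N, hN⟩ := h (C.comp β U) hV hVcl
  rw [comp_dg] at hN
  refine ⟨N + 1, ?_⟩
  have key : ∀ m : ℕ, corPow C (C.comp U β) (m + 1) = C.comp (C.comp U (corPow C (C.comp β U) m)) β := by
    intro m
    induction m with
    | zero =>
      change C.comp (dg C X) (C.comp U β) = C.comp (C.comp U (dg C Y)) β
      rw [dg_comp, comp_dg]
    | succ m ih =>
      change C.comp (corPow C (C.comp U β) (m + 1)) (C.comp U β) =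
        C.comp (C.comp U (C.comp (corPow C (C.comp β U) m) (C.comp β U))) β
      rw [ih]
      simp only [comp_assoc]
  have e1 : C.comp x (C.comp α β) = C.comp U β := by rw [hU, comp_assoc]
  rw [e1, key, hN, comp_zero, zero_comp]

/-- Finite-dimensional motives in the sense of Kimura. -/
lemma homNil_of_kimura (h : IsKimuraFinite C (ratFam C) Y) : HomNil H (dg C Y) := by
  intro x _ h0
  rw [comp_dg]
  exact (nilpotent_iff (H := H) (X := Y) x).1
    (Pool.Agent.N174.OV.nil_of_kimura H (X := Y) h (z := x) h0)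

/-- The case of factorisations. -/
theorem hasSelfDual_of_factor (X : 𝒱.Obj) (Y : ℕ → 𝒱.Obj) (r : ℕ → ℤ)
    (α : ∀ n, C.A (X.prod (Y n))) (β : ∀ n, C.A ((Y n).prod X))
    (h : ∀ n < X.dim, (HomNil H (dg C (Y n)) ∨ IsKimuraFinite C (ratFam C) (Y n)) ∧
      C.Deg ((X.dim : ℤ) + r n) (α n) ∧ C.Deg (((Y n).dim : ℤ) - r n) (β n) ∧
      IsProj H n (C.comp (α n) (β n))) : HasSelfDualCK H X Y r := by
  have h0 : ∀ n < X.dim, HomNil H (dg C (Y n)) := fun n hn => by
    rcases (h n hn).1 with h1 | h1
    · exact h1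
    · exact homNil_of_kimura h1
  obtain ⟨π, h1, h2, h3⟩ := exists_selfDual (H := H) (fun n => C.comp (α n) (β n))
    (fun n hn => (h n hn).2.2.2)
    (fun n hn => homNil_factor (h n hn).2.1 (h n hn).2.2.1 (h0 n hn))
  refine ⟨π, h1, h2, fun n hn => ?_⟩
  obtain ⟨u, v, hu, hv, e⟩ := h3 n hn
  refine ⟨C.comp u (α n), C.comp (β n) v, ?_, ?_, ?_⟩
  · have hu' : u ∈ C.gr (X.prod X) ((X.dim : ℤ) + 0) := by rw [add_zero]; exact hu
    have hα' : α n ∈ C.gr (X.prod (Y n)) ((X.dim : ℤ) + r n) := (h n hn).2.1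
    have := comp_mem C hu' hα'
    rwa [zero_add] at this
  · have hv' : v ∈ C.gr (X.prod X) ((X.dim : ℤ) + 0) := by rw [add_zero]; exact hv
    have hβ' : β n ∈ C.gr ((Y n).prod X) (((Y n).dim : ℤ) + -r n) := (h n hn).2.2.1
    have := comp_mem C hβ' hv'
    rwa [add_zero] at this
  · rw [e]
    simp only [comp_assoc]

lemma actH_graph (f : X ⟶ Y) (x : H.A X) : H.act (H.cl (C.graph f)) x = H.push f x := by
  have : H.cl (C.graph f) = H.graph f := by
    rw [TheoryData.graph, TheoryData.graph, H.cl_push, map_one]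
  rw [this, H.act_graph]

lemma actH_cograph (f : X ⟶ Y) (y : H.A Y) : H.act (H.cl (C.cograph f)) y = H.pull f y := by
  have : H.cl (C.cograph f) = H.cograph f := by
    rw [TheoryData.cograph, TheoryData.cograph, H.cl_push, map_one]
  rw [this, H.act_cograph]

/-- Sections of finite-dimensional varieties. -/
theorem hasSelfDual_of_section (X Y : 𝒱.Obj) (i : X ⟶ Y)
    (hY : HomNil H (dg C Y) ∨ IsKimuraFinite C (ratFam C) Y)
    (h : ∀ n < X.dim, (∀ x : H.A X, H.Deg n x → ∃ y : H.A Y, H.Deg n y ∧ H.pull i y = x) ∧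
      ∃ c, Inverts H i n c) :
    HasSelfDualCK H X (fun _ => Y) (fun _ => (Y.dim : ℤ) - X.dim) := by
  classical
  have h' : ∀ n : ℕ, ∃ c : C.A (Y.prod Y), n < X.dim → Inverts H i n c := by
    intro n
    by_cases hn : n < X.dim
    · obtain ⟨c, hc⟩ := (h n hn).2
      exact ⟨c, fun _ => hc⟩
    · exact ⟨0, fun h => absurd h hn⟩
  choose c hc using h'
  have hg : C.graph i ∈ C.gr (X.prod Y) ((X.dim : ℤ) + ((Y.dim : ℤ) - X.dim)) := by
    rw [add_sub_cancel]
    exact graph_mem' i
  have hcg : C.cograph i ∈ C.gr (Y.prod X) ((Y.dim : ℤ) + 0) := by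
    rw [add_zero]
    exact cograph_mem i
  have hβ : ∀ n < X.dim, C.comp (c n) (C.cograph i) ∈
      C.gr (Y.prod X) ((Y.dim : ℤ) + ((X.dim : ℤ) - Y.dim)) := by
    intro n hn
    have hc' : c n ∈ C.gr (Y.prod Y) ((Y.dim : ℤ) + ((X.dim : ℤ) - Y.dim)) := by
      rw [add_sub_cancel]
      exact (hc n hn).1
    have := comp_mem C hc' hcg
    rwa [add_zero] at this
  refine hasSelfDual_of_factor X (fun _ => Y) (fun _ => (Y.dim : ℤ) - X.dim)
    (fun _ => C.graph i) (fun n => C.comp (c n) (C.cograph i)) fun n hn => ⟨hY, hg, ?_, ?_, ?_⟩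
  · have := hβ n hn
    rw [show (Y.dim : ℤ) + ((X.dim : ℤ) - Y.dim) = Y.dim - ((Y.dim : ℤ) - X.dim) by ring] at this
    exact this
  · have := comp_mem C hg (hβ n hn)
    rw [show (X.dim : ℤ) + ((Y.dim : ℤ) - X.dim + ((X.dim : ℤ) - Y.dim)) = X.dim by ring] at this
    exact this
  · intro m x hx
    rw [actH_comp, actH_comp, actH_cograph, actH_graph]
    split_ifs with hmn
    · subst hmn
      obtain ⟨y, hy, rfl⟩ := (h n hn).1 x hx
      rw [(hc n hn).2.1 y hy]
    · have h1 := H.push_mem i hx
      rw [(hc n hn).2.2 _ _ ?_ h1, map_zero]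
      intro h2
      apply hmn
      omega

/-- Varieties with finite-dimensional subvarieties. -/
theorem hasSelfDual_of_subvarieties (X : 𝒱.Obj) (Y : ℕ → 𝒱.Obj) (j : ∀ n, Y n ⟶ X)
    (h : ∀ n < X.dim, (HomNil H (dg C (Y n)) ∨ IsKimuraFinite C (ratFam C) (Y n)) ∧
      ∃ c, Inverts H (j n) n c) :
    HasSelfDualCK H X Y (fun _ => 0) := by
  classical
  have h' : ∀ n : ℕ, ∃ c : C.A (X.prod X), n < X.dim → Inverts H (j n) n c := by
    intro n
    by_cases hn : n < X.dim
    · obtain ⟨c, hc⟩ := (h n hn).2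
      exact ⟨c, fun _ => hc⟩
    · exact ⟨0, fun h => absurd h hn⟩
  choose c hc using h'
  have hcg : ∀ n, C.cograph (j n) ∈ C.gr (X.prod (Y n)) ((X.dim : ℤ) + 0) := by
    intro n
    rw [add_zero]
    exact cograph_mem (j n)
  have hg : ∀ n, C.graph (j n) ∈
      C.gr ((Y n).prod X) (((Y n).dim : ℤ) + ((X.dim : ℤ) - (Y n).dim)) := by
    intro n
    rw [add_sub_cancel]
    exact graph_mem' (j n)
  have hβ : ∀ n < X.dim, C.comp (C.graph (j n)) (c n) ∈
      C.gr ((Y n).prod X) (((Y n).dim : ℤ) + 0) := by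
    intro n hn
    have hc' : c n ∈ C.gr (X.prod X) ((X.dim : ℤ) + (((Y n).dim : ℤ) - X.dim)) := by
      rw [add_sub_cancel]
      exact (hc n hn).1
    have := comp_mem C (hg n) hc'
    rwa [show ((Y n).dim : ℤ) + ((X.dim : ℤ) - (Y n).dim + (((Y n).dim : ℤ) - X.dim)) =
      (Y n).dim + 0 by ring] at this
  refine hasSelfDual_of_factor X Y (fun _ => 0)
    (fun n => C.cograph (j n)) (fun n => C.comp (C.graph (j n)) (c n)) fun n hn =>
      ⟨(h n hn).1, hcg n, ?_, ?_, ?_⟩
  · have := hβ n hn
    rw [add_zero] at this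
    rw [sub_zero]
    exact this
  · have := comp_mem C (hcg n) (hβ n hn)
    rw [add_zero, add_zero] at this
    exact this
  · intro m x hx
    rw [actH_comp, actH_comp, actH_cograph, actH_graph]
    split_ifs with hmn
    · subst hmn
      exact (hc n hn).2.1 x hx
    · have h1 := H.push_mem (j n) (H.pull_mem (j n) hx)
      exact (hc n hn).2.2 _ _ (by omega) h1

end Pool.Agent.U3.SD
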