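import Pool.Agent.U3.SD.Corner

/-!
# Rings with an involution: Witt cancellation of self-dual families
-/

set_option autoImplicit false
set_option linter.unusedSectionVars false

open Polynomial

universe u v

namespace Pool.Agent.U3.SD

/-- `W² (1 - X) = 1` has a solution modulo `X ^ (n + 1)`. -/
lemma exists_sqrt (n : ℕ) : ∃ W g : ℚ[X], W.coeff 0 = 1 ∧ W ^ 2 * (1 - X) = 1 + X ^ (n + 1) * g := by
  induction n with
  | zero => exact ⟨1, -1, by simp, by ring⟩
  | succ n ih =>
    obtain ⟨W, g, hW, hg⟩ := ih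
    obtain ⟨g', hg'⟩ : ∃ g' : ℚ[X], g = C (g.coeff 0) + X * g' := by
      refine ⟨g.divX, ?_⟩
      rw [add_comm]
      exact (X_mul_divX_add g).symm
    obtain ⟨W', hW'⟩ : ∃ W' : ℚ[X], W = 1 + X * W' := by
      refine ⟨W.divX, ?_⟩
      rw [add_comm]
      have := (X_mul_divX_add W).symm
      rw [hW, C_1] at this
      exact this
    set c : ℚ := g.coeff 0 with hc
    refine ⟨W - C (c / 2) * X ^ (n + 1),
      g' + C c - C c * W' * (1 - X) + C (c / 2) ^ 2 * X ^ n * (1 - X), ?_, ?_⟩
    · rw [coeff_sub, hW, mul_coeff_zero, coeff_X_pow, if_neg (by omega), mul_zero, sub_zero]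
    · have h2 : (2 : ℚ[X]) * C (c / 2) = C c := by
        rw [show (2 : ℚ[X]) = C 2 from rfl, ← C_mul]
        congr 1
        ring
      have h3 : W ^ 2 * (1 - X) = 1 + X ^ (n + 1) * (C c + X * g') := by rw [hg, ← hg']
      have h4 : (W - C (c / 2) * X ^ (n + 1)) ^ 2 * (1 - X) = W ^ 2 * (1 - X) -
          X ^ (n + 1) * (2 * C (c / 2)) * W * (1 - X) +
          C (c / 2) ^ 2 * (X ^ (n + 1)) ^ 2 * (1 - X) := by ring
      rw [h4, h2, h3, hW']
      ring

variable {R : Type u} [Ring R] [Algebra ℚ R] {t : R →+ R}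

lemma commute_aeval {z g : R} (h : z * g = g * z) (P : ℚ[X]) : aeval z P * g = g * aeval z P := by
  induction P using Polynomial.induction_on' with
  | add p q hp hq => rw [map_add, add_mul, mul_add, hp, hq]
  | monomial n a =>
    rw [aeval_monomial, mul_assoc, Algebra.left_comm]
    congr 1
    have hc : Commute z g := h
    exact (hc.pow_left n).eq

lemma eq_zero_of_nil {ε z : R} (h : ε = ε * z) (hz : IsNilpotent z) : ε = 0 := by
  obtain ⟨N, hN⟩ := hz
  have : ∀ k : ℕ, ε = ε * z ^ k := by
    intro k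
    induction k with
    | zero => rw [pow_zero, mul_one]
    | succ k ih =>
      rw [pow_succ, ← mul_assoc, ← ih]
      exact h
  rw [this N, hN, mul_zero]

lemma IsInv.sandwich (ht : IsInv t) (a b : R) : t (t a * b * a) = t a * t b * a := by
  rw [ht.mul, ht.mul, ht.inv, ← mul_assoc]

/-- **Cancellation.** -/
theorem cancel {S : Type v} [Ring S] (ρ : R →+* S) (ht : IsInv t)
    (hρ : ∀ x, ρ x = 0 → ρ (t x) = 0) (d : ℕ) (P : ℕ → R) (hP0 : ∀ n, 2 * d < n → P n = 0)
    (hPP : ∀ m n, P m * P n = if m = n then P m else 0)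
    (hsum : ∑ n ∈ Finset.range (2 * d + 1), P n = 1)
    (htP : ∀ n ≤ 2 * d, t (P n) = P (2 * d - n)) {e : R} (he : e * e = e) (hte : t e = e)
    (hnil : ∀ x, ρ x = 0 → IsNilpotent (e * x)) (hcomm : ∀ n, ρ e * ρ (P n) = ρ (P n) * ρ e) :
    ∃ p : ℕ → R, (∀ n, 2 * d < n → p n = 0) ∧ (∀ m n, p m * p n = if m = n then p m else 0) ∧
      ∑ n ∈ Finset.range (2 * d + 1), p n = 1 - e ∧ (∀ n ≤ 2 * d, t (p n) = p (2 * d - n)) ∧
      ∀ n, ρ (p n) = ρ (1 - e) * ρ (P n) := by
  have hJ : IsIdl t (fun x => ρ x = 0) :=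
    ⟨map_zero ρ, fun ha hb => by rw [map_add, ha, hb, add_zero], fun ha => by
      rw [map_neg, ha, neg_zero], fun r ha => by rw [map_mul, ha, mul_zero], fun r ha => by
      rw [map_mul, ha, zero_mul], fun ha => hρ _ ha⟩
  have hρt : ∀ x y, ρ x = ρ y → ρ (t x) = ρ (t y) := fun x y h => by
    rw [← sub_eq_zero, ← map_sub, ← map_sub]
    apply hρ
    rw [map_sub, h, sub_self]
  have rP : ∀ m n, ρ (P m) * ρ (P n) = if m = n then ρ (P m) else 0 := fun m n => by
    rw [← map_mul, hPP]
    split_ifs
    · rfl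
    · exact map_zero ρ
  have ree : ρ e * ρ e = ρ e := by rw [← map_mul, he]
  have reP : ∀ m n, ρ e * ρ (P m) * (ρ e * ρ (P n)) = if m = n then ρ e * ρ (P m) else 0 := by
    intro m n
    rw [hcomm n, ← mul_assoc, mul_assoc (ρ e), rP, mul_ite, ite_mul, mul_zero, zero_mul, mul_assoc,
      ← hcomm m, ← mul_assoc, ree]
  have ra : ∀ n, ρ (e * P n * e) = ρ e * ρ (P n) := fun n => by
    rw [map_mul, map_mul, mul_assoc, ← hcomm, ← mul_assoc, ree]
  have ta : ∀ n ≤ 2 * d, t (e * P n * e) = e * P (2 * d - n) * e := fun n hn => by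
    rw [ht.mul, ht.mul, hte, htP n hn, mul_assoc]
  -- the self-dual decomposition of the corner `e`
  obtain ⟨q₁, k1, k2, k3, k4, k5⟩ := exists_half_corner ht hJ he hte d (fun n => e * P n * e)
    (fun n _ => by rw [← mul_assoc, ← mul_assoc, he]) (fun n _ => by rw [mul_assoc, he])
    (fun m hm n hn => by
      rw [map_sub, map_mul, ra, ra, reP, sub_eq_zero]
      split_ifs
      · rw [ra]
      · rw [map_zero])
    (fun m hm n hn => by
      rw [map_mul, ta n (by omega), ra, ra, reP, if_neg (by omega)])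
    (fun m hm n hn => by
      rw [map_mul, ta m (by omega), ra, ra, reP, if_neg (by omega)])
    (fun n hn x hx => by
      rw [mul_assoc, mul_assoc]
      apply hnil
      rw [map_mul, map_mul, hx, mul_zero, mul_zero])
    d le_rfl
  obtain ⟨q, q1, -, q2, qq, qsum, tq⟩ := complete ht he hte d q₁ k1 k2 k3 k5
  have rq : ∀ n, ρ (q n) = ρ e * ρ (P n) := by
    have hlow : ∀ n < d, ρ (q n) = ρ e * ρ (P n) := fun n hn => by
      have h := k4 n hn
      rw [map_sub, sub_eq_zero] at h
      rw [q1 n hn, h, ra]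
    have hne : ∀ n, n ≠ d → ρ (q n) = ρ e * ρ (P n) := by
      intro n hn
      by_cases h1 : n < d
      · exact hlow n h1
      by_cases h2 : n ≤ 2 * d
      · have e1 : q n = t (q (2 * d - n)) := by
          rw [tq _ (by omega)]
          congr 1
          omega
        have e2 : ρ (t (q (2 * d - n))) = ρ (t (e * P (2 * d - n) * e)) := by
          apply hρt
          rw [hlow _ (by omega), ra]
        rw [e1, e2, ta _ (by omega), ra]
        congr 3
        omega
      · rw [q2 n (by omega), hP0 n (by omega), map_zero, mul_zero]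
    intro n
    by_cases hn : n = d
    · subst hn
      have h1 := congrArg ρ qsum
      rw [map_sum, ← Finset.add_sum_erase _ _ (Finset.mem_range.2 (show n < 2 * n + 1 by omega)),
        Finset.sum_congr rfl fun j hj => hne j (Finset.ne_of_mem_erase hj)] at h1
      have h2 := congrArg (fun x => ρ e * ρ x) hsum
      simp only [map_one, mul_one] at h2
      rw [map_sum, Finset.mul_sum, ← Finset.add_sum_erase _ _
        (Finset.mem_range.2 (show n < 2 * n + 1 by omega))] at h2
      exact add_right_cancel (h1.trans h2.symm)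
    · exact hne n hn
  have eq : ∀ n, e * q n = q n := by
    intro n
    by_cases hn : n < 2 * d + 1
    · rw [← qsum, Finset.sum_mul, Finset.sum_eq_single n]
      · rw [qq, if_pos rfl]
      · intro m _ hm
        rw [qq, if_neg hm]
      · intro h; exact absurd (Finset.mem_range.2 hn) h
    · rw [q2 n (by omega), mul_zero]
  have qe : ∀ n, q n * e = q n := by
    intro n
    by_cases hn : n < 2 * d + 1
    · rw [← qsum, Finset.mul_sum, Finset.sum_eq_single n]
      · rw [qq, if_pos rfl]
      · intro m _ hm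
        rw [qq, if_neg (Ne.symm hm)]
      · intro h; exact absurd (Finset.mem_range.2 hn) h
    · rw [q2 n (by omega), zero_mul]
  have qid : ∀ n, q n * q n = q n := fun n => by rw [qq, if_pos rfl]
  have Pid : ∀ n, P n * P n = P n := fun n => by rw [hPP, if_pos rfl]
  -- the inverses
  set y : ℕ → R := fun n => q n * P n * q n - q n with hy
  have ry : ∀ n, ρ (y n) = 0 := fun n => by
    simp only [hy]
    rw [map_sub, map_mul, map_mul, rq, mul_assoc (ρ e), rP, if_pos rfl, reP, if_pos rfl, sub_self]
  have ynil : ∀ n, IsNilpotent (y n) := fun n => by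
    have e1 : y n = e * y n := by
      simp only [hy]
      rw [mul_sub, ← mul_assoc, ← mul_assoc, eq]
    rw [e1]
    exact hnil _ (ry n)
  have hu : ∀ n, ∃ u : R, u * (1 + y n) = 1 ∧ (1 + y n) * u = 1 := fun n => by
    obtain ⟨U, hU⟩ := (ynil n).isUnit_one_add
    exact ⟨↑U⁻¹, by rw [← hU, Units.inv_mul], by rw [← hU, Units.mul_inv]⟩
  choose u hu1 hu2 using hu
  have ty : ∀ n ≤ 2 * d, t (y n) = y (2 * d - n) := fun n hn => by
    simp only [hy]
    rw [map_sub, ht.mul, ht.mul, tq n hn, htP n hn, mul_assoc]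
  have tu : ∀ n ≤ 2 * d, t (u n) = u (2 * d - n) := fun n hn => by
    have h1 : (1 + y (2 * d - n)) * t (u n) = 1 := by
      have := congrArg t (hu1 n)
      rwa [ht.mul, map_add, ht.one, ty n hn] at this
    calc t (u n) = (u (2 * d - n) * (1 + y (2 * d - n))) * t (u n) := by rw [hu1, one_mul]
      _ = u (2 * d - n) := by rw [mul_assoc, h1, mul_one]
  have ru : ∀ n, ρ (u n) = 1 := fun n => by
    have := congrArg ρ (hu1 n)
    rwa [map_mul, map_add, ry, add_zero, map_one, mul_one] at this
  have qPq : ∀ n, q n * P n * q n = q n * (1 + y n) := fun n => by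
    simp only [hy]
    rw [mul_add, mul_one, mul_sub, qid, ← mul_assoc, ← mul_assoc, qid]
    abel
  have qy : ∀ n, q n * (1 + y n) = (1 + y n) * q n := fun n => by
    simp only [hy]
    rw [mul_add, mul_one, mul_sub, qid, ← mul_assoc, ← mul_assoc, qid, add_mul, one_mul, sub_mul,
      mul_assoc _ (q n) (q n), qid]
  have qu : ∀ n, q n * u n = u n * q n := fun n => by
    calc q n * u n = (u n * (1 + y n)) * q n * u n := by rw [hu1, one_mul]
      _ = u n * (q n * (1 + y n)) * u n := by rw [qy]; simp only [mul_assoc]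
      _ = u n * q n := by rw [mul_assoc, mul_assoc, hu2, mul_one]
  set c : ℕ → R := fun n => q n * u n with hc
  have cq : ∀ n, c n * q n = c n := fun n => by
    simp only [hc]
    rw [mul_assoc, ← qu, ← mul_assoc, qid]
  have qc : ∀ n, q n * c n = c n := fun n => by
    simp only [hc]
    rw [← mul_assoc, qid]
  have qPc : ∀ n, q n * P n * c n = q n := fun n => by
    simp only [hc]
    rw [← mul_assoc, qPq, mul_assoc, hu2, mul_one]
  have cPc : ∀ n, c n * P n * c n = c n := fun n => by
    calc c n * P n * c n = (c n * q n) * P n * c n := by rw [cq]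
      _ = c n * (q n * P n * c n) := by simp only [mul_assoc]
      _ = c n := by rw [qPc, cq]
  have c0 : ∀ n, 2 * d < n → c n = 0 := fun n hn => by
    simp only [hc]
    rw [q2 n hn, zero_mul]
  have tc : ∀ n ≤ 2 * d, t (c n) = c (2 * d - n) := fun n hn => by
    simp only [hc]
    rw [ht.mul, tu n hn, tq n hn, qu]
  have rc : ∀ n, ρ (c n) = ρ e * ρ (P n) := fun n => by
    simp only [hc]
    rw [map_mul, ru, mul_one, rq]
  have cqm : ∀ m n, m ≠ n → c m * q n = 0 := fun m n hmn => by
    rw [← cq m, mul_assoc, qq, if_neg hmn, mul_zero]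
  -- the idempotents `Q n`
  set Q : ℕ → R := fun n => P n * c n * P n with hQ
  have QQ : ∀ m n, Q m * Q n = if m = n then Q m else 0 := fun m n => by
    simp only [hQ]
    by_cases hmn : m = n
    · subst hmn
      rw [if_pos rfl]
      calc P m * c m * P m * (P m * c m * P m) = P m * (c m * (P m * P m) * c m) * P m := by
            simp only [mul_assoc]
        _ = P m * c m * P m := by rw [Pid, cPc]
    · rw [if_neg hmn]
      calc P m * c m * P m * (P n * c n * P n) = P m * c m * (P m * P n) * c n * P n := by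
            simp only [mul_assoc]
        _ = 0 := by rw [hPP, if_neg hmn, mul_zero, zero_mul, zero_mul]
  have PQ : ∀ m n, P m * Q n = if m = n then Q m else 0 := fun m n => by
    simp only [hQ]
    by_cases hmn : m = n
    · subst hmn
      rw [if_pos rfl, ← mul_assoc, ← mul_assoc, Pid]
    · rw [if_neg hmn, ← mul_assoc, ← mul_assoc, hPP, if_neg hmn, zero_mul, zero_mul]
  have QP : ∀ m n, Q m * P n = if m = n then Q m else 0 := fun m n => by
    simp only [hQ]
    by_cases hmn : m = n
    · subst hmn
      rw [if_pos rfl, mul_assoc, Pid]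
    · rw [if_neg hmn, mul_assoc, hPP, if_neg hmn, mul_zero]
  have Q0 : ∀ n, 2 * d < n → Q n = 0 := fun n hn => by
    simp only [hQ]
    rw [c0 n hn, mul_zero, zero_mul]
  have tQ : ∀ n ≤ 2 * d, t (Q n) = Q (2 * d - n) := fun n hn => by
    change t (P n * c n * P n) = P (2 * d - n) * c (2 * d - n) * P (2 * d - n)
    rw [ht.mul, ht.mul, tc n hn, htP n hn, ← mul_assoc]
  have rQ : ∀ n, ρ (Q n) = ρ e * ρ (P n) := fun n => by
    simp only [hQ]
    rw [map_mul, map_mul, rc]
    calc ρ (P n) * (ρ e * ρ (P n)) * ρ (P n) = (ρ (P n) * ρ e) * (ρ (P n) * ρ (P n)) := by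
          simp only [mul_assoc]
      _ = ρ e * ρ (P n) := by rw [← hcomm, rP, if_pos rfl, mul_assoc, rP, if_pos rfl]
  set T : R := ∑ n ∈ Finset.range (2 * d + 1), Q n with hT
  have rT : ρ T = ρ e := by
    rw [hT, map_sum, Finset.sum_congr rfl fun n _ => rQ n, ← Finset.mul_sum, ← map_sum, hsum,
      map_one, mul_one]
  have tT : t T = T := by
    rw [hT, map_sum]
    have e1 : ∀ i ∈ Finset.range (2 * d + 1), t (Q i) = (fun j => Q j) (2 * d + 1 - 1 - i) := by
      intro i hi
      rw [Finset.mem_range] at hi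
      rw [tQ i (by omega)]
      rfl
    rw [Finset.sum_congr rfl e1, Finset.sum_range_reflect (fun j => Q j)]
  have QT : ∀ n, Q n * T = Q n := by
    intro n
    by_cases hn : n < 2 * d + 1
    · rw [hT, Finset.mul_sum, Finset.sum_eq_single n]
      · rw [QQ, if_pos rfl]
      · intro m _ hm
        rw [QQ, if_neg (Ne.symm hm)]
      · intro h; exact absurd (Finset.mem_range.2 hn) h
    · rw [Q0 n (by omega), zero_mul]
  have PT : ∀ n, P n * T = Q n := by
    intro n
    by_cases hn : n < 2 * d + 1
    · rw [hT, Finset.mul_sum, Finset.sum_eq_single n]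
      · rw [PQ, if_pos rfl]
      · intro m _ hm
        rw [PQ, if_neg (Ne.symm hm)]
      · intro h; exact absurd (Finset.mem_range.2 hn) h
    · rw [Q0 n (by omega), hP0 n (by omega), zero_mul]
  have TT : T * T = T := by
    conv_lhs => rw [hT]
    rw [Finset.sum_mul]
    exact Finset.sum_congr rfl fun n _ => QT n
  -- the factorisation of `T` through `e`
  set α : R := ∑ n ∈ Finset.range (2 * d + 1), P n * c n with hα
  set β : R := ∑ n ∈ Finset.range (2 * d + 1), q n * P n with hβ
  have αβ : α * β = T := by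
    rw [hα, hβ, hT, Finset.sum_mul]
    apply Finset.sum_congr rfl
    intro n hn
    rw [Finset.mul_sum, Finset.sum_eq_single n]
    · simp only [hQ]
      rw [mul_assoc, ← mul_assoc (c n), cq, ← mul_assoc]
    · intro m _ hm
      rw [mul_assoc, ← mul_assoc (c n), cqm n m (Ne.symm hm), zero_mul, mul_zero]
    · intro h; exact absurd hn h
  have eβ : e * β = β := by
    rw [hβ, Finset.mul_sum]
    apply Finset.sum_congr rfl
    intro n _
    rw [← mul_assoc, eq]
  have rα : ρ α = ρ e := by
    rw [hα, map_sum]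
    have : ∀ n ∈ Finset.range (2 * d + 1), ρ (P n * c n) = ρ e * ρ (P n) := fun n _ => by
      rw [map_mul, rc, ← mul_assoc, ← hcomm, mul_assoc, rP, if_pos rfl]
    rw [Finset.sum_congr rfl this, ← Finset.mul_sum, ← map_sum, hsum, map_one, mul_one]
  have rβ : ρ β = ρ e := by
    rw [hβ, map_sum]
    have : ∀ n ∈ Finset.range (2 * d + 1), ρ (q n * P n) = ρ e * ρ (P n) := fun n _ => by
      rw [map_mul, rq, mul_assoc, rP, if_pos rfl]
    rw [Finset.sum_congr rfl this, ← Finset.mul_sum, ← map_sum, hsum, map_one, mul_one]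
  set g : R := 1 - e with hg
  have gg : g * g = g := by
    rw [hg, mul_sub, sub_mul, sub_mul, one_mul, one_mul, mul_one, he, sub_self, sub_zero]
  have tg : t g = g := by rw [hg, map_sub, ht.one, hte]
  have rg : ρ g = 1 - ρ e := by rw [hg, map_sub, map_one]
  have rgg : (1 - ρ e) * (1 - ρ e) = 1 - ρ e := by
    rw [mul_sub, sub_mul, sub_mul, one_mul, one_mul, mul_one, ree, sub_self, sub_zero]
  set T' : R := 1 - T with hT'
  have T'T' : T' * T' = T' := by
    rw [hT', mul_sub, sub_mul, sub_mul, one_mul, one_mul, mul_one, TT, sub_self, sub_zero]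
  have tT' : t T' = T' := by rw [hT', map_sub, ht.one, tT]
  have rT' : ρ T' = 1 - ρ e := by rw [hT', map_sub, map_one, rT]
  set z : R := g * T * g with hz
  have znil : IsNilpotent z := by
    have e1 : z = (g * α) * (β * g) := by rw [hz, ← αβ]; simp only [mul_assoc]
    rw [e1]
    apply isNilpotent_mul_comm
    have e2 : β * g * (g * α) = e * (β * g * α) := by
      calc β * g * (g * α) = β * (g * g) * α := by simp only [mul_assoc]
        _ = (e * β) * g * α := by rw [gg, eβ]
        _ = _ := by simp only [mul_assoc]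
    rw [e2]
    apply hnil
    rw [map_mul, map_mul, rα, rβ, rg, mul_sub, mul_one, ree, sub_self, zero_mul]
  set z' : R := T' * e * T' with hz'
  have z'nil : IsNilpotent z' := by
    have e1 : z' = (T' * e) * (e * T') := by
      rw [hz', mul_assoc (T' : R) e (e * T'), ← mul_assoc e e, he, ← mul_assoc]
    rw [e1]
    apply isNilpotent_mul_comm
    have e2 : e * T' * (T' * e) = e * (T' * e) := by
      rw [mul_assoc, ← mul_assoc T' T', T'T']
    rw [e2]
    apply hnil
    rw [map_mul, rT', sub_mul, one_mul, ree, sub_self]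
  obtain ⟨N, hN⟩ := znil
  obtain ⟨W, G, hW0, hW⟩ := exists_sqrt N
  set w : R := aeval z W with hw
  have tz : t z = z := by rw [hz, ht.mul, ht.mul, tg, tT, mul_assoc]
  have gz : g * z = z := by rw [hz, ← mul_assoc, ← mul_assoc, gg]
  have zg : z * g = z := by rw [hz, mul_assoc, gg]
  have tw : t w = w := ht.aeval tz W
  have wg : w * g = g * w := commute_aeval (by rw [zg, gz]) W
  have wz : w * z = z * w := commute_aeval rfl W
  have rz : ρ z = 0 := by
    rw [hz, map_mul, map_mul, rg, rT, sub_mul, one_mul, ree, sub_self, zero_mul]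
  have rw1 : ρ w = 1 := by
    obtain ⟨b', -, h⟩ := aeval_split z W
    rw [hw, h, hW0, map_one, map_add, map_one, map_mul, rz, zero_mul, add_zero]
  have ww : w * w * (1 - z) = 1 := by
    have hz0 : z ^ (N + 1) = 0 := by rw [pow_succ, hN, zero_mul]
    have := congrArg (aeval z) hW
    rw [map_mul, map_pow, map_sub, map_one, aeval_X, map_add, map_one, map_mul, map_pow, aeval_X,
      hz0, zero_mul, add_zero, sq] at this
    exact this
  set A : R := T' * g with hA
  set s : R := A * w with hs
  have ts : t s = w * (g * T') := by rw [hs, hA, ht.mul, ht.mul, tw, tg, tT']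
  have hgTg : g * T' * g = g - z := by
    have e1 : ∀ a b : R, a * (1 - b) * a = a * a - a * b * a := fun a b => by noncomm_ring
    rw [hT', e1 g T, gg]
  have Ag : A * g = A := by rw [hA, mul_assoc, gg]
  have T'A : T' * A = A := by rw [hA, ← mul_assoc, T'T']
  have T's : T' * s = s := by rw [hs, ← mul_assoc, T'A]
  have tsT' : t s * T' = t s := by rw [ts, mul_assoc, mul_assoc, T'T']
  have tAA : (g * T') * A = g - z := by
    rw [hA, ← mul_assoc, mul_assoc g, T'T', hgTg]
  have wwg : w * w * (g - z) = g := by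
    have e1 : g - z = (1 - z) * g := by rw [sub_mul, one_mul, zg]
    rw [e1, ← mul_assoc, ww, one_mul]
  have cgw : ∀ x, w * (g * x) = g * (w * x) := fun x => by rw [← mul_assoc, wg, mul_assoc]
  have tss : t s * s = g := by
    calc t s * s = w * ((g * T') * A) * w := by rw [ts, hs]; simp only [mul_assoc]
      _ = w * (w * (g - z)) := by
        rw [tAA, mul_assoc, sub_mul, ← wg, ← wz, ← mul_sub]
      _ = g := by rw [← mul_assoc, wwg]
  have sts : s * t s = T' := by
    set E : R := s * t s with hE
    have EA : E * A = A := by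
      calc E * A = A * (w * (w * ((g * T') * A))) := by
            rw [hE, ts, hs]; simp only [mul_assoc]
        _ = A * (w * w * (g - z)) := by rw [tAA, ← mul_assoc w w]
        _ = A := by rw [wwg, Ag]
    have T'E : T' * E = E := by rw [hE, ← mul_assoc, T's]
    have ET' : E * T' = E := by rw [hE, mul_assoc, tsT']
    have hε : (T' - E) = (T' - E) * z' := by
      have e1 : (T' - E) * (A * (g * T')) = 0 := by
        rw [← mul_assoc, sub_mul, T'A, EA, sub_self, zero_mul]
      have e2 : A * (g * T') = T' - z' := by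
        have e3 : ∀ a b : R, a * (1 - b) * a = a * a - a * b * a := fun a b => by noncomm_ring
        calc A * (g * T') = T' * (g * g) * T' := by rw [hA]; simp only [mul_assoc]
          _ = T' - z' := by rw [gg, hg, e3 T' e, T'T']
      rw [e2, mul_sub, sub_eq_zero] at e1
      rw [← e1, sub_mul, T'T', ET']
    have := eq_zero_of_nil hε z'nil
    rw [sub_eq_zero] at this
    exact this.symm
  -- the decomposition
  set P' : ℕ → R := fun n => P n - Q n with hP'
  have P'P' : ∀ m n, P' m * P' n = if m = n then P' m else 0 := fun m n => by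
    simp only [hP']
    rw [mul_sub, sub_mul, sub_mul, hPP, QP, PQ, QQ]
    split_ifs
    · abel
    · abel
  have P'T' : ∀ n, P' n * T' = P' n := fun n => by
    simp only [hP', hT']
    rw [mul_sub, mul_one, sub_mul, PT, QT, sub_self, sub_zero]
  refine ⟨fun n => t s * P' n * s, fun n hn => ?_, fun m n => ?_, ?_, fun n hn => ?_, fun n => ?_⟩
  · simp only [hP']
    rw [hP0 n hn, Q0 n hn, sub_zero, mul_zero, zero_mul]
  · calc t s * P' m * s * (t s * P' n * s) = t s * (P' m * (s * t s) * P' n) * s := by
          simp only [mul_assoc]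
      _ = t s * (P' m * P' n) * s := by rw [sts, P'T']
      _ = _ := by
        rw [P'P']
        split_ifs
        · rfl
        · rw [mul_zero, zero_mul]
  · rw [← Finset.sum_mul, ← Finset.mul_sum]
    have e1 : ∑ n ∈ Finset.range (2 * d + 1), P' n = T' := by
      simp only [hP']
      rw [Finset.sum_sub_distrib, hsum]
    rw [e1, tsT', tss]
  · change t (t s * P' n * s) = t s * P' (2 * d - n) * s
    rw [ht.sandwich s (P' n)]
    congr 2
    change t (P n - Q n) = P (2 * d - n) - Q (2 * d - n)
    rw [map_sub, htP n hn, tQ n hn]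
  · simp only [hP']
    have rs : ρ s = 1 - ρ e := by rw [hs, hA, map_mul, map_mul, rT', rg, rgg, rw1, mul_one]
    have rts : ρ (t s) = 1 - ρ e := by
      rw [ts, map_mul, map_mul, rT', rg, rgg, rw1, one_mul]
    rw [map_mul, map_mul, rts, rs, map_sub, rQ, rg]
    have e1 : ρ (P n) - ρ e * ρ (P n) = (1 - ρ e) * ρ (P n) := by rw [sub_mul, one_mul]
    have e2 : ρ (P n) * (1 - ρ e) = (1 - ρ e) * ρ (P n) := by
      rw [sub_mul, one_mul, mul_sub, mul_one, hcomm]
    rw [e1, ← mul_assoc, rgg, mul_assoc, e2, ← mul_assoc, rgg]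

end Pool.Agent.U3.SD
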