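import Pool.Agent.U3.SD.Defs

/-!
# Isometric embeddings of Chow motives: definitions
-/

set_option autoImplicit false

open CategoryTheory AlgebraicGeometry

universe u v w

namespace Pool.Agent.U3.SD

open Pool.Agent.H914 Pool.Agent.H914.VarClass Pool.Agent.H914.VarClass.Obj Pool.Agent.W492.BB
  Pool.Agent.W550.Corr Pool.Agent.TH133 Pool.Agent.Y107 Pool.Agent.TH829.Kim

variable {k : Type u} [Field k] {𝒱 : VarClass k}

/-- The correspondence `a` of degree `r ≥ 0` from `X` to `Y`, `dim Y = dim X + 2 r`, satisfies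
`ᵗa ∘ a = l Δ_X` with a rational number `l ≠ 0`: up to the factor `l`, it is an isometric embedding
of a twist of the motive `h(X)` into `h(Y)`. For instance `r = 0` and `a = f^*`, the transpose of
the graph of a morphism `f : Y ⟶ X` of degree `l`. -/
structure IsEmbedding (C : TheoryData.{u, v, 0} 𝒱 ℚ) {X Y : 𝒱.Obj} (r : ℕ) (l : ℚ)
    (a : C.A (X.prod Y)) : Prop where
  dim : Y.dim = X.dim + 2 * r
  ne : l ≠ 0
  deg : C.Deg ((X.dim : ℤ) + r) a
  comp : C.comp a (tp C a) = l • dg C X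

/-- The projector `Δ_Y - l⁻¹ a ∘ ᵗa` onto the orthogonal complement of `h(X)` in `h(Y)`. -/
noncomputable def complement (C : TheoryData.{u, v, 0} 𝒱 ℚ) {X Y : 𝒱.Obj} (l : ℚ)
    (a : C.A (X.prod Y)) : C.A (Y.prod Y) :=
  dg C Y - l⁻¹ • C.comp (tp C a) a

/-- `X` has a self-dual Chow-Kunneth decomposition. -/
def HasSD {C : TheoryData.{u, v, 0} 𝒱 ℚ} {K : Type w} [Field K] (H : WeilTheoryData.{u, v, w} C K)
    (X : 𝒱.Obj) : Prop :=
  ∃ π : ℕ → C.A (X.prod X), IsCK H X π ∧ IsSelfDual C π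

/-- The Kunneth components of the diagonal of `Z` are algebraic (standard conjecture C). -/
def HasC {C : TheoryData.{u, v, 0} 𝒱 ℚ} {K : Type w} [Field K] (H : WeilTheoryData.{u, v, w} C K)
    (Z : 𝒱.Obj) : Prop :=
  ∀ n : ℕ, ∃ c : C.A (Z.prod Z), IsProj H n c

/-- `Y → X` is a morphism `f` of degree `l ≠ 0` of varieties of the same dimension, such that the
complement of `h(X) = f^* h(X)` in `h(Y)` is finite-dimensional: the projector
`Δ_Y - l⁻¹ f^* f_*` is a composition `Y ⟶ Z ⟶ Y` of correspondences of degrees `s` and `-s`, where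
`Z` is a variety whose motive is finite-dimensional in the sense of Kimura (or at least all of whose
homologically trivial self-correspondences of degree zero are nilpotent) and which satisfies the
standard conjecture C. For the blow-up of `X` along the smooth (geometrically irreducible) subvariety
`T` of codimension `c ≥ 2` one can take `Z = T × ℙ^(c-2)` and `s = -1`. -/
def FiniteModification {C : TheoryData.{u, v, 0} 𝒱 ℚ} {K : Type w} [Field K]
    (H : WeilTheoryData.{u, v, w} C K) (Y X : 𝒱.Obj) : Prop :=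
  Y.dim = X.dim ∧ ∃ (f : Y ⟶ X) (l : ℚ), l ≠ 0 ∧ C.push f 1 = l • 1 ∧
    ∃ (Z : 𝒱.Obj) (s : ℤ) (α : C.A (Y.prod Z)) (β : C.A (Z.prod Y)),
      (HomNil H (dg C Z) ∨ IsKimuraFinite C (ratFam C) Z) ∧ HasC H Z ∧
      C.Deg ((Y.dim : ℤ) + s) α ∧ C.Deg ((Z.dim : ℤ) - s) β ∧
      dg C Y - l⁻¹ • C.comp (C.graph f) (C.cograph f) = C.comp α β

end Pool.Agent.U3.SD
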