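import Pool.Agent.U3.SD.Main
import Pool.Agent.U3.SD.Cancel
import Pool.Agent.U3.SD.Defs2

/-!
# Witt cancellation for self-dual Chow-Kunneth decompositions
-/

set_option autoImplicit false

open CategoryTheory AlgebraicGeometry

universe u v w

namespace Pool.Agent.U3.SD

open Pool.Agent.H914 Pool.Agent.H914.VarClass Pool.Agent.H914.VarClass.Obj Pool.Agent.W492.BB
  Pool.Agent.W550.Corr Pool.Agent.TH133 Pool.Agent.Y107 Pool.Agent.TH829.Kim

set_option linter.unusedSectionVars false

variable {k : Type u} [Field k] {𝒱 : VarClass k}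

variable {C : TheoryData.{u, v, 0} 𝒱 ℚ} [hC : IsChowProj C] {X Y Z W : 𝒱.Obj}

section smul

include hC

lemma comp_smul' (q : ℚ) (Γ : C.A (X.prod Y)) (Δ : C.A (Y.prod Z)) :
    C.comp Γ (q • Δ) = q • C.comp Γ Δ := map_smul (compL C Γ) _ _

lemma smul_comp' (q : ℚ) (Γ : C.A (X.prod Y)) (Δ : C.A (Y.prod Z)) :
    C.comp (q • Γ) Δ = q • C.comp Γ Δ := LinearMap.map_smul₂ (compL C) _ _ _

end smul

/-- An embedding `a` with retraction `b`, both of opposite degrees, compatible with transposition -/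
structure Pair (C : TheoryData.{u, v, 0} 𝒱 ℚ) {X Y : 𝒱.Obj} (r : ℕ) (a : C.A (X.prod Y))
    (b : C.A (Y.prod X)) : Prop where
  dim : Y.dim = X.dim + 2 * r
  dega : C.Deg ((X.dim : ℤ) + r) a
  degb : C.Deg ((Y.dim : ℤ) + (-r : ℤ)) b
  ab : C.comp a b = dg C X
  tpY : ∀ p : C.A (X.prod X), tp C (C.comp (C.comp b p) a) = C.comp (C.comp b (tp C p)) a
  tpX : ∀ p : C.A (Y.prod Y), tp C (C.comp (C.comp a p) b) = C.comp (C.comp a (tp C p)) b

section chow

include hC

lemma IsEmbedding.pair {r : ℕ} {l : ℚ} {a : C.A (X.prod Y)} (h : IsEmbedding C r l a) :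
    Pair C r a (l⁻¹ • tp C a) where
  dim := h.dim
  dega := h.deg
  degb := by
    have h1 : tp C a ∈ C.gr (Y.prod X) ((X.dim : ℤ) + r) := tp_mem C h.deg
    have h2 : ((X.dim : ℤ) + r) = (Y.dim : ℤ) + (-r : ℤ) := by rw [h.dim]; push_cast; ring
    rw [h2] at h1
    exact Submodule.smul_mem _ _ h1
  ab := by rw [comp_smul', h.comp, smul_smul, inv_mul_cancel₀ h.ne, one_smul]
  tpY p := by
    rw [smul_comp', smul_comp', tp_smul, tp_comp C (ch_comm C), tp_comp C (ch_comm C), tp_tp,
      smul_comp', smul_comp', comp_assoc]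
  tpX p := by
    rw [comp_smul', tp_smul, tp_comp C (ch_comm C), tp_comp C (ch_comm C), tp_tp,
      comp_smul', comp_assoc]

variable {r : ℕ} {a : C.A (X.prod Y)} {b : C.A (Y.prod X)}

/-- The projector onto `h(X)`. -/
lemma Pair.gg (h : Pair C r a b) (Γ : C.A (Y.prod Z)) :
    C.comp (C.comp b a) (C.comp (C.comp b a) Γ) = C.comp (C.comp b a) Γ := by
  calc C.comp (C.comp b a) (C.comp (C.comp b a) Γ) = C.comp b (C.comp (C.comp a b) (C.comp a Γ)) := by
        simp only [comp_assoc]
    _ = _ := by rw [h.ab, dg_comp, comp_assoc]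

lemma Pair.tpg (h : Pair C r a b) : tp C (C.comp b a) = C.comp b a := by
  have := h.tpY (dg C X)
  rwa [comp_dg, tp_dg, comp_dg] at this

lemma Pair.memg (h : Pair C r a b) : C.comp b a ∈ C.gr (Y.prod Y) Y.dim := by
  have ha' : a ∈ C.gr (X.prod Y) ((X.dim : ℤ) + r) := h.dega
  have hb' : b ∈ C.gr (Y.prod X) ((Y.dim : ℤ) + (-r : ℤ)) := h.degb
  have := comp_mem C hb' ha'
  rwa [show (Y.dim : ℤ) + (-(r : ℤ) + r) = Y.dim by ring] at this

lemma Pair.mempsi (h : Pair C r a b) {p : C.A (X.prod X)} (hp : p ∈ C.gr (X.prod X) X.dim) :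
    C.comp (C.comp b p) a ∈ C.gr (Y.prod Y) Y.dim := by
  have ha' : a ∈ C.gr (X.prod Y) ((X.dim : ℤ) + r) := h.dega
  have hb' : b ∈ C.gr (Y.prod X) ((Y.dim : ℤ) + (-r : ℤ)) := h.degb
  have hp' : p ∈ C.gr (X.prod X) ((X.dim : ℤ) + 0) := by rwa [add_zero]
  have := comp_mem C (comp_mem C hb' hp') ha'
  rwa [show (Y.dim : ℤ) + (-(r : ℤ) + 0 + r) = Y.dim by ring] at this

lemma Pair.memphi (h : Pair C r a b) {p : C.A (Y.prod Y)} (hp : p ∈ C.gr (Y.prod Y) Y.dim) :
    C.comp (C.comp a p) b ∈ C.gr (X.prod X) X.dim := by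
  have ha' : a ∈ C.gr (X.prod Y) ((X.dim : ℤ) + r) := h.dega
  have hb' : b ∈ C.gr (Y.prod X) ((Y.dim : ℤ) + (-r : ℤ)) := h.degb
  have hp' : p ∈ C.gr (Y.prod Y) ((Y.dim : ℤ) + 0) := by rwa [add_zero]
  have := comp_mem C (comp_mem C ha' hp') hb'
  rwa [show (X.dim : ℤ) + (r + 0 + -(r : ℤ)) = X.dim by ring] at this

lemma Pair.psi_comp (h : Pair C r a b) (p p' : C.A (X.prod X)) :
    C.comp (C.comp (C.comp b p) a) (C.comp (C.comp b p') a) = C.comp (C.comp b (C.comp p p')) a := by
  calc C.comp (C.comp (C.comp b p) a) (C.comp (C.comp b p') a)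
      = C.comp (C.comp b p) (C.comp (C.comp a b) (C.comp p' a)) := by simp only [comp_assoc]
    _ = _ := by rw [h.ab, dg_comp]; simp only [comp_assoc]

lemma Pair.phi_comp (p p' : C.A (Y.prod Y)) (hp : C.comp p (C.comp b a) = p) :
    C.comp (C.comp (C.comp a p) b) (C.comp (C.comp a p') b) = C.comp (C.comp a (C.comp p p')) b := by
  calc C.comp (C.comp (C.comp a p) b) (C.comp (C.comp a p') b)
      = C.comp (C.comp (C.comp a (C.comp p (C.comp b a))) p') b := by simp only [comp_assoc]
    _ = _ := by rw [hp]; simp only [comp_assoc]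

end chow

section weil

variable {K : Type w} [Field K] {H : WeilTheoryData.{u, v, w} C K} [hH : IsWeilProj H]

include hC hH

/-- Assembling a self-dual decomposition from its lower half. -/
lemma hasSD_of_half (X : 𝒱.Obj) (q : ℕ → Cor C X) (hm : ∀ n < X.dim, q n ∈ cor0 C X)
    (hqq : ∀ m < X.dim, ∀ n < X.dim, q m * q n = if m = n then q m else 0)
    (h1 : ∀ m < X.dim, ∀ n < X.dim, q m * tpR C X (q n) = 0)
    (h2 : ∀ m < X.dim, ∀ n < X.dim, tpR C X (q m) * q n = 0)
    (hact : ∀ n < X.dim, ∀ (m : ℤ) (x : H.A X), x ∈ H.gr X m →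
      actH C X H (q n) x = if m = n then x else 0) : HasSD H X := by
  classical
  let Q : ℕ → Cor C X := fun n => if n < X.dim then q n else 0
  have hQ : ∀ n < X.dim, Q n = q n := fun n hn => by simp only [Q]; rw [if_pos hn]
  have hQ' : ∀ n, X.dim ≤ n → Q n = 0 := fun n hn => by simp only [Q]; rw [if_neg (by omega)]
  have hact' : ∀ (n : ℕ) (m : ℤ) (x : H.A X), n < X.dim → x ∈ H.gr X m →
      actH C X H (Q n) x = if m = n then x else 0 := fun n m x hn hx => by
    rw [hQ n hn]
    exact hact n hn m x hx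
  obtain ⟨π, p1, p2, -⟩ := half_strong (H := H) (X := X) Q
    (fun n => by
      by_cases hn : n < X.dim
      · rw [hQ n hn]; exact hm n hn
      · rw [hQ' n (by omega)]; exact (cor0 C X).zero_mem)
    (fun n hn => hQ' n hn)
    (fun m n => by
      by_cases hm : m < X.dim
      · by_cases hn : n < X.dim
        · rw [hQ m hm, hQ n hn]
          exact hqq m hm n hn
        · rw [hQ' n (by omega), mul_zero, if_neg (by omega)]
      · rw [hQ' m (by omega), zero_mul]
        split_ifs <;> rfl)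
    (fun m n => by
      by_cases hm : m < X.dim
      · by_cases hn : n < X.dim
        · rw [hQ m hm, hQ n hn]
          exact h1 m hm n hn
        · rw [hQ' n (by omega), map_zero, mul_zero]
      · rw [hQ' m (by omega), zero_mul])
    (fun m n => by
      by_cases hm : m < X.dim
      · by_cases hn : n < X.dim
        · rw [hQ m hm, hQ n hn]
          exact h2 m hm n hn
        · rw [hQ' n (by omega), mul_zero]
      · rw [hQ' m (by omega), map_zero, zero_mul])
    hact' (fun n m x hn hx => act_tp_proj (by omega) (fun m x hx => hact' n m x hn hx) m x hx)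
  exact ⟨π, p1, p2⟩

/-- The ring homomorphism to the operators on the cohomology. -/
noncomputable def rhoH (H : WeilTheoryData.{u, v, w} C K) [hH : IsWeilProj H] (Y : 𝒱.Obj) :
    cor0 C Y →+* Module.End K (H.A Y) := (actH C Y H).comp (cor0 C Y).toSubring.subtype

lemma rhoH_apply (x : cor0 C Y) : rhoH H Y x = actH C Y H (x : Cor C Y) := rfl

lemma rhoH_tp {x : cor0 C Y} (h : rhoH H Y x = 0) : rhoH H Y (tp0 C Y x) = 0 := by
  rw [rhoH_apply, tp0_coe]
  exact actH_tpR_zero h

lemma homNil_rho {e : cor0 C Y} (h : HomNil H (X := Y) (e : Cor C Y)) (x : cor0 C Y)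
    (hx : rhoH H Y x = 0) : IsNilpotent (e * x) := by
  have hx0 : H.cl (X := Y.prod Y) (x : Cor C Y) = 0 :=
    hom_zero_of_act H fun y => LinearMap.congr_fun hx y
  obtain ⟨N, hN⟩ := homNil_iff.1 h (x : Cor C Y) x.2 hx0
  refine ⟨N, Subtype.ext ?_⟩
  rw [SubmonoidClass.coe_pow, MulMemClass.coe_mul]
  exact hN

variable {r : ℕ} {a : C.A (X.prod Y)} {b : C.A (Y.prod X)}

lemma act_a_mem (h : Pair C r a b) {m : ℤ} {x : H.A X} (hx : x ∈ H.gr X m) :
    H.act (H.cl a) x ∈ H.gr Y (m + 2 * r) := actH_mem H h.dega hx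

lemma act_b_mem (h : Pair C r a b) {m : ℤ} {x : H.A Y} (hx : x ∈ H.gr Y m) :
    H.act (H.cl b) x ∈ H.gr X (m - 2 * r) := by
  have := actH_mem H h.degb hx
  rwa [show m + 2 * (-r : ℤ) = m - 2 * r by ring] at this

lemma act_ba (h : Pair C r a b) (x : H.A X) : H.act (H.cl b) (H.act (H.cl a) x) = x := by
  rw [← actH_comp, h.ab, actH_dg]

lemma hasSD_of_half0 (X : 𝒱.Obj) (q : ℕ → cor0 C X)
    (hqq : ∀ m < X.dim, ∀ n < X.dim, q m * q n = if m = n then q m else 0)
    (h1 : ∀ m < X.dim, ∀ n < X.dim, q m * tp0 C X (q n) = 0)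
    (h2 : ∀ m < X.dim, ∀ n < X.dim, tp0 C X (q m) * q n = 0)
    (hact : ∀ n < X.dim, ∀ (m : ℤ) (x : H.A X), x ∈ H.gr X m →
      rhoH H X (q n) x = if m = n then x else 0) : HasSD H X := by
  refine hasSD_of_half X (fun n => (q n : Cor C X)) (fun n _ => (q n).2) (fun m hm n hn => ?_)
    (fun m hm n hn => ?_) (fun m hm n hn => ?_) hact
  · rw [← MulMemClass.coe_mul, hqq m hm n hn]
    split_ifs
    · rfl
    · rfl
  · rw [← tp0_coe, ← MulMemClass.coe_mul, h1 m hm n hn]
    rfl
  · rw [← tp0_coe, ← MulMemClass.coe_mul, h2 m hm n hn]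
    rfl

/-- The projector onto `h(X)` in the ring of correspondences. -/
noncomputable def gP (h : Pair C r a b) : cor0 C Y := ⟨C.comp b a, h.memg⟩

omit hH in
lemma gP_mul (h : Pair C r a b) : gP h * gP h = gP h := by
  apply Subtype.ext
  have := h.gg (dg C Y)
  rw [comp_dg] at this
  exact this

omit hH in
lemma tp0_gP (h : Pair C r a b) : tp0 C Y (gP h) = gP h :=
  Subtype.ext h.tpg

lemma rho_gP (h : Pair C r a b) (x : H.A Y) :
    rhoH H Y (gP h) x = H.act (H.cl a) (H.act (H.cl b) x) :=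
  actH_comp H b a x

lemma homNil_gP (h : Pair C r a b) (hnil : HomNil H (dg C Y - C.comp b a)) (x : cor0 C Y)
    (hx : rhoH H Y x = 0) : IsNilpotent ((1 - gP h) * x) :=
  homNil_rho (e := 1 - gP h) hnil x hx

lemma rho_mem (c : cor0 C Y) {m : ℤ} {x : H.A Y} (hx : x ∈ H.gr Y m) : rhoH H Y c x ∈ H.gr Y m :=
  actH_mem0 c.2 hx

/-- **Descent** of self-dual decompositions. -/
theorem descend (h : Pair C r a b) (hnil : HomNil H (dg C Y - C.comp b a)) (hY : HasSD H Y) :
    HasSD H X := by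
  obtain ⟨π, h1, h2⟩ := hY
  let π' : ℕ → Cor C Y := π
  have hπ' : IsCK H Y π' := h1
  set g : cor0 C Y := gP h with hg
  have hgg : g * g = g := gP_mul h
  have htg : tp0 C Y g = g := tp0_gP h
  let P : ℕ → cor0 C Y := fun n => ⟨π' n, h1.deg n⟩
  have hP : ∀ n, (P n : Cor C Y) = π' n := fun n => rfl
  have hactP : ∀ (n : ℕ) (m : ℤ) (x : H.A Y), x ∈ H.gr Y m →
      rhoH H Y (P n) x = if m = n then x else 0 := fun n m x hx => h1.actH_eq n m hx
  have he : (1 - g) * (1 - g) = 1 - g := by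
    rw [mul_sub, sub_mul, sub_mul, one_mul, one_mul, mul_one, hgg, sub_self, sub_zero]
  have hcomm : ∀ n, rhoH H Y (1 - g) * rhoH H Y (P n) = rhoH H Y (P n) * rhoH H Y (1 - g) := by
    intro n
    apply ext_gr H
    intro m x hx
    rw [Module.End.mul_apply, Module.End.mul_apply, hactP n m x hx,
      hactP n m _ (rho_mem (1 - g) hx)]
    split_ifs
    · rfl
    · exact map_zero _
  obtain ⟨p, p0, pp, psum, tp', rp⟩ := cancel (rhoH H Y) isInv_tp0
    (fun x hx => rhoH_tp hx) Y.dim P (fun n hn => Subtype.ext (h1.out n hn))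
    (fun m n => Subtype.ext (by
      rw [MulMemClass.coe_mul, hP, hP, hπ'.mul_eq]
      split_ifs
      · rfl
      · rfl))
    (Subtype.ext (by
      rw [AddSubmonoidClass.coe_finset_sum]
      exact h1.sum))
    (fun n hn => Subtype.ext (h2 n hn)) he
    (by rw [map_sub, htg, isInv_tp0.one]) (fun x hx => homNil_gP h hnil x hx) hcomm
  rw [sub_sub_cancel] at psum
  have gp : ∀ n, g * p n = p n := by
    intro n
    by_cases hn : n < 2 * Y.dim + 1
    · rw [← psum, Finset.sum_mul, Finset.sum_eq_single n]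
      · rw [pp, if_pos rfl]
      · intro m _ hm
        rw [pp, if_neg hm]
      · intro h; exact absurd (Finset.mem_range.2 hn) h
    · rw [p0 n (by omega), mul_zero]
  have gp' : ∀ n, C.comp (X := Y) (Y := Y) (Z := Y) (p n : Cor C Y) (C.comp b a) =
      (p n : Cor C Y) := fun n => congrArg Subtype.val (gp n)
  have hdim := h.dim
  -- the lower half on `X`
  let φ : cor0 C Y → cor0 C X := fun c =>
    ⟨C.comp (C.comp a (c : Cor C Y)) b, h.memphi c.2⟩
  have φmul : ∀ m n, φ (p m) * φ (p n) = φ (p m * p n) := fun m n => by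
    apply Subtype.ext
    exact Pair.phi_comp _ _ (gp' n)
  have φ0 : φ 0 = 0 := by
    apply Subtype.ext
    change C.comp (C.comp a (0 : C.A (Y.prod Y))) b = 0
    rw [comp_zero, zero_comp]
  have φt : ∀ c, tp0 C X (φ c) = φ (tp0 C Y c) := fun c => Subtype.ext (h.tpX _)
  refine hasSD_of_half0 X (fun n => φ (p (n + 2 * r))) (fun m hm n hn => ?_)
    (fun m hm n hn => ?_) (fun m hm n hn => ?_) (fun n hn m x hx => ?_)
  · rw [φmul, pp]
    by_cases hmn : m = n
    · rw [if_pos (by omega), if_pos hmn]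
    · rw [if_neg (by omega), if_neg hmn, φ0]
  · rw [φt, tp' _ (by omega), φmul, pp, if_neg (by omega), φ0]
  · rw [φt, tp' _ (by omega), φmul, pp, if_neg (by omega), φ0]
  · have hy := act_a_mem (H := H) h hx
    set y := H.act (H.cl a) x with hyd
    have e1 : rhoH H X (φ (p (n + 2 * r))) x = H.act (H.cl b) (rhoH H Y (p (n + 2 * r)) y) := by
      have e0 : ∀ z : C.A (Y.prod Y), H.act (H.cl (C.comp (C.comp a z) b)) x =
          H.act (H.cl b) (H.act (H.cl z) y) := fun z => by rw [actH_comp, actH_comp]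
      exact e0 _
    have e2 : rhoH H Y g y = y := by
      rw [hg, rho_gP, hyd, act_ba h]
    rw [e1, rp, Module.End.mul_apply, hactP _ _ y hy, sub_sub_cancel]
    split_ifs with h3 h4 h4
    · rw [e2, hyd, act_ba h]
    · exfalso; apply h4; push_cast at h3; omega
    · exfalso; apply h3; rw [h4]; push_cast; ring
    · rw [map_zero, TheoryData.act_map_zero]

/-- **Ascent** of self-dual decompositions. -/
theorem ascend (h : Pair C r a b) (hnil : HomNil H (dg C Y - C.comp b a)) (hX : HasSD H X)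
    (hcY : ∀ n < Y.dim, ∃ c : C.A (Y.prod Y), IsProj H n c) : HasSD H Y := by
  classical
  obtain ⟨π, h1, h2⟩ := hX
  let π' : ℕ → Cor C X := π
  have hπ' : IsCK H X π' := h1
  have hdim := h.dim
  choose! c hc using hcY
  let c' : ℕ → cor0 C Y := fun n => if hn : n < Y.dim then ⟨c n, (hc n hn).1⟩ else 0
  have hc' : ∀ n < Y.dim, ∀ (m : ℤ) (x : H.A Y), x ∈ H.gr Y m →
      rhoH H Y (c' n) x = if m = n then x else 0 := fun n hn m x hx => by
    simp only [c']
    rw [dif_pos hn]
    exact (hc n hn).2 m x hx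
  have hc't : ∀ n < Y.dim, ∀ (m : ℤ) (x : H.A Y), x ∈ H.gr Y m →
      rhoH H Y (tp0 C Y (c' n)) x = if m = (2 * Y.dim - n : ℕ) then x else 0 :=
    fun n hn m x hx => act_tp_proj (by omega) (fun m x hx => hc' n hn m x hx) m x hx
  set g : cor0 C Y := gP h with hg
  have hgg : g * g = g := gP_mul h
  have htg : tp0 C Y g = g := tp0_gP h
  set e : cor0 C Y := 1 - g with hed
  have he : e * e = e := by
    rw [hed, mul_sub, sub_mul, sub_mul, one_mul, one_mul, mul_one, hgg, sub_self, sub_zero]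
  have hte : tp0 C Y e = e := by rw [hed, map_sub, htg, isInv_tp0.one]
  have hnil' : ∀ x, rhoH H Y x = 0 → IsNilpotent (e * x) := fun x hx => homNil_gP h hnil x hx
  have ree : ∀ x, rhoH H Y e (rhoH H Y e x) = rhoH H Y e x := fun x => by
    rw [← Module.End.mul_apply, ← map_mul, he]
  have ra : ∀ n < Y.dim, ∀ (m : ℤ) (x : H.A Y), x ∈ H.gr Y m →
      rhoH H Y (e * c' n * e) x = if m = n then rhoH H Y e x else 0 := fun n hn m x hx => by
    rw [map_mul, map_mul, Module.End.mul_apply, Module.End.mul_apply,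
      hc' n hn m _ (rho_mem e hx)]
    split_ifs
    · exact ree x
    · exact map_zero _
  have rat : ∀ n < Y.dim, ∀ (m : ℤ) (x : H.A Y), x ∈ H.gr Y m →
      rhoH H Y (tp0 C Y (e * c' n * e)) x =
        if m = (2 * Y.dim - n : ℕ) then rhoH H Y e x else 0 := fun n hn m x hx => by
    rw [isInv_tp0.mul, isInv_tp0.mul, hte, map_mul, map_mul, Module.End.mul_apply,
      Module.End.mul_apply, hc't n hn m _ (rho_mem e hx)]
    split_ifs
    · exact ree x
    · rw [map_zero]
  have hJ : IsIdl (tp0 C Y) (fun x => rhoH H Y x = 0) :=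
    ⟨map_zero _, fun ha hb => by rw [map_add, ha, hb, add_zero], fun ha => by
      rw [map_neg, ha, neg_zero], fun r ha => by rw [map_mul, ha, mul_zero], fun r ha => by
      rw [map_mul, ha, zero_mul], fun ha => rhoH_tp ha⟩
  obtain ⟨E, k1, k2, k3, k4, k5⟩ := exists_half_corner isInv_tp0 hJ he hte Y.dim
    (fun n => e * c' n * e)
    (fun n _ => by rw [← mul_assoc, ← mul_assoc, he]) (fun n _ => by rw [mul_assoc, he])
    (fun m hm n hn => by
      rw [map_sub, map_mul, sub_eq_zero]
      apply ext_gr H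
      intro j x hx
      rw [Module.End.mul_apply, ra n hn j x hx]
      by_cases hmn : m = n
      · rw [if_pos hmn, ra m hm j x hx]
        by_cases hj : j = n
        · rw [if_pos hj, if_pos (by omega), ra m hm j _ (rho_mem e hx), if_pos (by omega), ree]
        · rw [if_neg hj, if_neg (by omega), map_zero]
      · rw [if_neg hmn, map_zero, LinearMap.zero_apply]
        by_cases hj : j = n
        · rw [if_pos hj, ra m hm j _ (rho_mem e hx), if_neg (by omega)]
        · rw [if_neg hj, map_zero])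
    (fun m hm n hn => by
      rw [map_mul]
      apply ext_gr H
      intro j x hx
      rw [Module.End.mul_apply, rat n hn j x hx, LinearMap.zero_apply]
      by_cases hj : j = (2 * Y.dim - n : ℕ)
      · rw [if_pos hj, ra m hm j _ (rho_mem e hx), if_neg (by omega)]
      · rw [if_neg hj, map_zero])
    (fun m hm n hn => by
      rw [map_mul]
      apply ext_gr H
      intro j x hx
      rw [Module.End.mul_apply, ra n hn j x hx, LinearMap.zero_apply]
      by_cases hj : j = n
      · rw [if_pos hj, rat m hm j _ (rho_mem e hx), if_neg (by omega)]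
      · rw [if_neg hj, map_zero])
    (fun n hn x hx => by
      rw [mul_assoc, mul_assoc]
      apply hnil'
      rw [map_mul, map_mul, hx, mul_zero, mul_zero])
    Y.dim le_rfl
  have rE : ∀ n < Y.dim, rhoH H Y (E n) = rhoH H Y (e * c' n * e) := fun n hn => by
    rw [← sub_eq_zero, ← map_sub]
    exact k4 n hn
  -- the part coming from `X`
  let ψ : cor0 C X → cor0 C Y := fun c =>
    ⟨C.comp (C.comp b (c : Cor C X)) a, h.mempsi c.2⟩
  have ψmul : ∀ c c' : cor0 C X, ψ c * ψ c' = ψ (c * c') := fun c c' =>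
    Subtype.ext (h.psi_comp _ _)
  have ψ0 : ψ 0 = 0 := by
    apply Subtype.ext
    change C.comp (C.comp b (0 : C.A (X.prod X))) a = 0
    rw [comp_zero, zero_comp]
  have ψt : ∀ c, tp0 C Y (ψ c) = ψ (tp0 C X c) := fun c => Subtype.ext (h.tpY _)
  have ψ1 : ψ 1 = g := by
    apply Subtype.ext
    change C.comp (C.comp b (dg C X)) a = C.comp b a
    rw [comp_dg]
  have ψe : ∀ c, ψ c * e = 0 := fun c => by
    rw [hed, mul_sub, mul_one, ← ψ1, ψmul, mul_one, sub_self]
  have eψ : ∀ c, e * ψ c = 0 := fun c => by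
    rw [hed, sub_mul, one_mul, ← ψ1, ψmul, one_mul, sub_self]
  let Q : ℕ → cor0 C X := fun n => ⟨π' n, h1.deg n⟩
  have hQ : ∀ n, (Q n : Cor C X) = π' n := fun n => rfl
  have QQ : ∀ m n, Q m * Q n = if m = n then Q m else 0 := fun m n => Subtype.ext (by
      rw [MulMemClass.coe_mul, hQ, hQ, hπ'.mul_eq]
      split_ifs
      · rfl
      · rfl)
  have tQ : ∀ n ≤ 2 * X.dim, tp0 C X (Q n) = Q (2 * X.dim - n) := fun n hn =>
    Subtype.ext (h2 n hn)
  let G : ℕ → cor0 C Y := fun n => if 2 * r ≤ n then ψ (Q (n - 2 * r)) else 0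
  have G1 : ∀ n, 2 * r ≤ n → G n = ψ (Q (n - 2 * r)) := fun n hn => by
    simp only [G]; rw [if_pos hn]
  have G2 : ∀ n, ¬ 2 * r ≤ n → G n = 0 := fun n hn => by simp only [G]; rw [if_neg hn]
  have Ge : ∀ n, G n * e = 0 := fun n => by
    by_cases hn : 2 * r ≤ n
    · rw [G1 n hn, ψe]
    · rw [G2 n hn, zero_mul]
  have eG : ∀ n, e * G n = 0 := fun n => by
    by_cases hn : 2 * r ≤ n
    · rw [G1 n hn, eψ]
    · rw [G2 n hn, mul_zero]
  have tGe : ∀ n, tp0 C Y (G n) * e = 0 := fun n => by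
    have := congrArg (tp0 C Y) (eG n)
    rwa [isInv_tp0.mul, hte, map_zero] at this
  have etG : ∀ n, e * tp0 C Y (G n) = 0 := fun n => by
    have := congrArg (tp0 C Y) (Ge n)
    rwa [isInv_tp0.mul, hte, map_zero] at this
  have eE : ∀ n < Y.dim, e * E n = E n := fun n hn => (k5 n hn).1
  have Ee : ∀ n < Y.dim, E n * e = E n := fun n hn => (k5 n hn).2
  have etE : ∀ n < Y.dim, e * tp0 C Y (E n) = tp0 C Y (E n) := fun n hn => by
    have := congrArg (tp0 C Y) (Ee n hn)
    rwa [isInv_tp0.mul, hte] at this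
  have tEe : ∀ n < Y.dim, tp0 C Y (E n) * e = tp0 C Y (E n) := fun n hn => by
    have := congrArg (tp0 C Y) (eE n hn)
    rwa [isInv_tp0.mul, hte] at this
  have GG : ∀ m n, G m * G n = if m = n then G m else 0 := fun m n => by
    by_cases hm : 2 * r ≤ m
    · by_cases hn : 2 * r ≤ n
      · rw [G1 m hm, G1 n hn, ψmul, QQ]
        by_cases hmn : m = n
        · rw [if_pos (by omega), if_pos hmn]
        · rw [if_neg (by omega), if_neg hmn, ψ0]
      · rw [G2 n hn, mul_zero, if_neg (by omega)]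
    · rw [G2 m hm, zero_mul]
      split_ifs <;> rfl
  have GtG : ∀ m < Y.dim, ∀ n < Y.dim, G m * tp0 C Y (G n) = 0 := fun m hm n hn => by
    by_cases hm' : 2 * r ≤ m
    · by_cases hn' : 2 * r ≤ n
      · rw [G1 m hm', G1 n hn', ψt, tQ _ (by omega), ψmul, QQ, if_neg (by omega), ψ0]
      · rw [G2 n hn', map_zero, mul_zero]
    · rw [G2 m hm', zero_mul]
  have tGG : ∀ m < Y.dim, ∀ n < Y.dim, tp0 C Y (G m) * G n = 0 := fun m hm n hn => by
    by_cases hm' : 2 * r ≤ m
    · by_cases hn' : 2 * r ≤ n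
      · rw [G1 m hm', G1 n hn', ψt, tQ _ (by omega), ψmul, QQ, if_neg (by omega), ψ0]
      · rw [G2 n hn', mul_zero]
    · rw [G2 m hm', map_zero, zero_mul]
  have cross : ∀ x y : cor0 C Y, x * e = 0 → e * y = y → x * y = 0 := fun x y hx hy => by
    rw [← hy, ← mul_assoc, hx, zero_mul]
  have cross' : ∀ x y : cor0 C Y, x * e = x → e * y = 0 → x * y = 0 := fun x y hx hy => by
    rw [← hx, mul_assoc, hy, mul_zero]
  refine hasSD_of_half0 Y (fun n => G n + E n) (fun m hm n hn => ?_)
    (fun m hm n hn => ?_) (fun m hm n hn => ?_) (fun n hn m x hx => ?_)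
  · rw [mul_add, add_mul, add_mul, GG, k1 m hm n hn, cross _ _ (Ge m) (eE n hn),
      cross' _ _ (Ee m hm) (eG n)]
    split_ifs
    · abel
    · abel
  · rw [map_add, mul_add, add_mul, add_mul, GtG m hm n hn, k2 m hm n hn,
      cross _ _ (Ge m) (etE n hn), cross' _ _ (Ee m hm) (etG n)]
    abel
  · rw [map_add, mul_add, add_mul, add_mul, tGG m hm n hn, k3 m hm n hn,
      cross _ _ (tGe m) (eE n hn), cross' _ _ (tEe m hm) (eG n)]
    abel
  · have hb := act_b_mem (H := H) h hx
    have e1 : rhoH H Y (G n) x = if m = n then rhoH H Y g x else 0 := by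
      rw [hg, rho_gP]
      by_cases hn' : 2 * r ≤ n
      · rw [G1 n hn']
        have e2 : rhoH H Y (ψ (Q (n - 2 * r))) x =
            H.act (H.cl a) (H.act (H.cl (π (n - 2 * r))) (H.act (H.cl b) x)) := by
          change H.act (H.cl (C.comp (C.comp b (π (n - 2 * r))) a)) x = _
          rw [actH_comp, actH_comp]
        rw [e2, h1.actH_eq _ _ hb]
        split_ifs with h3 h4 h4
        · rfl
        · exfalso; apply h4; omega
        · exfalso; apply h3; omega
        · exact TheoryData.act_map_zero _ _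
      · rw [G2 n hn', map_zero, LinearMap.zero_apply]
        split_ifs with h3
        · have hb0 : H.act (H.cl b) x = 0 := by
            rw [H.gr_neg X _ (by omega)] at hb
            exact (Submodule.mem_bot _).1 hb
          rw [hb0, TheoryData.act_map_zero]
        · rfl
    rw [map_add, LinearMap.add_apply, e1, rE n hn, ra n hn m x hx]
    split_ifs
    · rw [← LinearMap.add_apply, ← map_add, hed, add_sub_cancel, map_one]
      rfl
    · exact add_zero 0

end weil

end Pool.Agent.U3.SD
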