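import Pool.Agent.U3.SD.Half

/-!
# Rings with an involution: self-dual lifts in corner rings
-/

set_option autoImplicit false
set_option linter.unusedSectionVars false

open Polynomial

universe u

namespace Pool.Agent.U3.SD

variable {R : Type u} [Ring R] [Algebra ℚ R] {t : R →+ R} {J : R → Prop}

/-- **Self-dual lifts** in a corner ring. -/
theorem exists_half_corner (ht : IsInv t) (hJ : IsIdl t J) {g₀ : R} (hg0 : g₀ * g₀ = g₀)
    (htg0 : t g₀ = g₀) (d : ℕ) (a : ℕ → R)
    (hga : ∀ n < d, g₀ * a n = a n) (hag : ∀ n < d, a n * g₀ = a n)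
    (h1 : ∀ m < d, ∀ n < d, J (a m * a n - if m = n then a m else 0))
    (h2 : ∀ m < d, ∀ n < d, J (a m * t (a n))) (h3 : ∀ m < d, ∀ n < d, J (t (a m) * a n))
    (h4 : ∀ n < d, ∀ x, J x → IsNilpotent (a n * x)) (l : ℕ) (hl : l ≤ d) :
    ∃ q : ℕ → R, (∀ m < l, ∀ n < l, q m * q n = if m = n then q m else 0) ∧
      (∀ m < l, ∀ n < l, q m * t (q n) = 0) ∧ (∀ m < l, ∀ n < l, t (q m) * q n = 0) ∧
      (∀ n < l, J (q n - a n)) ∧ ∀ n < l, g₀ * q n = q n ∧ q n * g₀ = q n := by
  induction l with
  | zero =>
    exact ⟨fun _ => 0, by simp, by simp, by simp, by simp, by simp⟩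
  | succ l ih =>
    obtain ⟨q, k1, k2, k3, k4, k5⟩ := ih (by omega)
    have hld : l < d := by omega
    have htt : ∀ m < l, ∀ n < l, t (q m) * t (q n) = if m = n then t (q m) else 0 := by
      intro m hm n hn
      rw [← ht.mul, k1 n hn m hm]
      by_cases h : n = m
      · rw [if_pos h, if_pos h.symm, h]
      · rw [if_neg h, if_neg (Ne.symm h), map_zero]
    set f : R := ∑ n ∈ Finset.range l, (q n + t (q n)) with hf
    have hqf : ∀ m < l, q m * f = q m := by
      intro m hm
      rw [hf, Finset.mul_sum, Finset.sum_eq_single m]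
      · rw [mul_add, k1 m hm m hm, if_pos rfl, k2 m hm m hm, add_zero]
      · intro n hn hnm
        rw [Finset.mem_range] at hn
        rw [mul_add, k1 m hm n hn, if_neg (Ne.symm hnm), k2 m hm n hn, add_zero]
      · intro h; exact absurd (Finset.mem_range.2 hm) h
    have hfq : ∀ m < l, f * q m = q m := by
      intro m hm
      rw [hf, Finset.sum_mul, Finset.sum_eq_single m]
      · rw [add_mul, k1 m hm m hm, if_pos rfl, k3 m hm m hm, add_zero]
      · intro n hn hnm
        rw [Finset.mem_range] at hn
        rw [add_mul, k1 n hn m hm, if_neg hnm, k3 n hn m hm, add_zero]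
      · intro h; exact absurd (Finset.mem_range.2 hm) h
    have htf : t f = f := by
      rw [hf, map_sum]
      apply Finset.sum_congr rfl
      intro n _
      rw [map_add, ht.inv, add_comm]
    have htqf : ∀ m < l, t (q m) * f = t (q m) := by
      intro m hm
      have := congrArg t (hfq m hm)
      rwa [ht.mul, htf] at this
    have hftq : ∀ m < l, f * t (q m) = t (q m) := by
      intro m hm
      have := congrArg t (hqf m hm)
      rwa [ht.mul, htf] at this
    have htq0 : ∀ m < l, t (q m) * g₀ = t (q m) := fun m hm => by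
      have := congrArg t (k5 m hm).1
      rwa [ht.mul, htg0] at this
    have h0tq : ∀ m < l, g₀ * t (q m) = t (q m) := fun m hm => by
      have := congrArg t (k5 m hm).2
      rwa [ht.mul, htg0] at this
    have h0f : g₀ * f = f := by
      rw [hf, Finset.mul_sum]
      apply Finset.sum_congr rfl
      intro n hn
      rw [Finset.mem_range] at hn
      rw [mul_add, (k5 n hn).1, h0tq n hn]
    have hf0 : f * g₀ = f := by
      rw [hf, Finset.sum_mul]
      apply Finset.sum_congr rfl
      intro n hn
      rw [Finset.mem_range] at hn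
      rw [add_mul, (k5 n hn).2, htq0 n hn]
    set g : R := g₀ - f with hg
    have htg : t g = g := by rw [hg, map_sub, htg0, htf]
    have hqg : ∀ m < l, q m * g = 0 := fun m hm => by
      rw [hg, mul_sub, (k5 m hm).2, hqf m hm, sub_self]
    have hgq : ∀ m < l, g * q m = 0 := fun m hm => by
      rw [hg, sub_mul, (k5 m hm).1, hfq m hm, sub_self]
    have htqg : ∀ m < l, t (q m) * g = 0 := fun m hm => by
      rw [hg, mul_sub, htq0 m hm, htqf m hm, sub_self]
    have h0g : g₀ * g = g := by rw [hg, mul_sub, hg0, h0f]
    have hgg0 : g * g₀ = g := by rw [hg, sub_mul, hg0, hf0]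
    have hff : f * f = f := by
      conv_lhs => rw [hf]
      rw [Finset.sum_mul]
      conv_rhs => rw [hf]
      apply Finset.sum_congr rfl
      intro n hn
      rw [Finset.mem_range] at hn
      rw [add_mul, hqf n hn, htqf n hn]
    have hgg : g * g = g := by
      conv_lhs => rw [hg]
      rw [sub_mul, h0g, hg, mul_sub, hf0, hff, sub_self, sub_zero]
    -- `f a_l` and `a_l f` are in `J`
    have hfa : J (f * a l) := by
      rw [hf, Finset.sum_mul]
      apply hJ.sum
      intro n hn
      rw [Finset.mem_range] at hn
      rw [add_mul]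
      apply hJ.add
      · apply hJ.of_sub (b := a n * a l)
        · rw [← sub_mul]; exact hJ.right _ (k4 n hn)
        · have := h1 n (by omega) l hld
          rwa [if_neg (by omega), sub_zero] at this
      · apply hJ.of_sub (b := t (a n) * a l)
        · rw [← sub_mul, ← map_sub]; exact hJ.right _ (hJ.inv (k4 n hn))
        · exact h3 n (by omega) l hld
    have haf : J (a l * f) := by
      rw [hf, Finset.mul_sum]
      apply hJ.sum
      intro n hn
      rw [Finset.mem_range] at hn
      rw [mul_add]
      apply hJ.add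
      · apply hJ.of_sub (b := a l * a n)
        · rw [← mul_sub]; exact hJ.left _ (k4 n hn)
        · have := h1 l hld n (by omega)
          rwa [if_neg (by omega), sub_zero] at this
      · apply hJ.of_sub (b := a l * t (a n))
        · rw [← mul_sub, ← map_sub]; exact hJ.left _ (hJ.inv (k4 n hn))
        · exact h2 l hld n (by omega)
    set a' : R := g * a l * g with ha'
    have haa : J (a' - a l) := by
      have : a' - a l = -(f * a l) - (a l * f) + f * (a l * f) := by
        have e1 : (g₀ - f) * a l * (g₀ - f) = (g₀ * a l) * g₀ - f * (a l * g₀) - (g₀ * a l) * f +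
          f * (a l * f) := by noncomm_ring
        rw [ha', hg, e1, hga l hld, hag l hld]
        abel
      rw [this]
      exact hJ.add (hJ.sub (hJ.neg hfa) haf) (hJ.left _ haf)
    have hidem : J (a' * a' - a') := by
      have h5 : J (a l * a l - a l) := by
        have := h1 l hld l hld
        rwa [if_pos rfl] at this
      have h6 : a' * a' - a' = (a' * a' - a l * a l) + (a l * a l - a l) - (a' - a l) := by abel
      rw [h6]
      exact hJ.sub (hJ.add (hJ.mul_congr haa haa) h5) haa
    have hnil : ∀ x, J x → IsNilpotent (a' * x) := by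
      intro x hx
      have h5 : a' * x = g * (a l * (g * x)) := by rw [ha']; simp only [mul_assoc]
      rw [h5]
      apply isNilpotent_mul_comm
      rw [mul_assoc]
      exact h4 l hld _ (hJ.right _ (hJ.left _ hx))
    obtain ⟨h, hc, hp, hpa⟩ := exists_idem hidem hnil hJ
    set p : R := a' * h with hpdef
    have hga' : g * a' = a' := by rw [ha', ← mul_assoc, ← mul_assoc, hgg]
    have ha'g : a' * g = a' := by rw [ha', mul_assoc, hgg]
    have hgp : g * p = p := by rw [hpdef, ← mul_assoc, hga']
    have hpg : p * g = p := by rw [hc, mul_assoc, ha'g]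
    have hpal : J (p - a l) := by
      have : p - a l = (p - a') + (a' - a l) := by abel
      rw [this]; exact hJ.add hpa haa
    have hsp : J (t p * p) := by
      apply hJ.of_sub (b := t (a l) * a l)
      · apply hJ.mul_congr _ hpal
        rw [← map_sub]; exact hJ.inv hpal
      · exact h3 l hld l hld
    have hps : J (p * t p) := by
      apply hJ.of_sub (b := a l * t (a l))
      · apply hJ.mul_congr hpal
        rw [← map_sub]; exact hJ.inv hpal
      · exact h2 l hld l hld
    have hnp : IsNilpotent (p * t p * p) := by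
      have : p * t p * p = a' * (h * (t p * p)) := by rw [hpdef]; simp only [mul_assoc]
      rw [this]
      exact hnil _ (hJ.left _ hsp)
    obtain ⟨φ, τ, x, y, z, u, v, r1, r2, r3, r4, r5, r6, r7, r8, r9⟩ := hyper ht hp hnp
    have hgs : g * t p = t p := by
      have := congrArg t hpg
      rwa [ht.mul, htg] at this
    have hsg : t p * g = t p := by
      have := congrArg t hgp
      rwa [ht.mul, htg] at this
    have hgφ : g * φ = φ := by rw [r6, mul_add, hgp, ← mul_assoc, hgs]
    have hτg : τ * g = τ := by
      rw [r7, add_mul, mul_assoc, hpg, mul_assoc, mul_assoc p, hsg]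
    set Q : R := φ * τ with hQ
    have hgQ : g * Q = Q := by rw [hQ, ← mul_assoc, hgφ]
    have hQg : Q * g = Q := by rw [hQ, mul_assoc, hτg]
    have hgtQ : g * t Q = t Q := by
      have := congrArg t hQg
      rwa [ht.mul, htg] at this
    have hQQ : Q * Q = Q := by
      calc Q * Q = φ * (τ * φ) * τ := by rw [hQ]; simp only [mul_assoc]
        _ = Q := by rw [r3, r1]
    have hQt : Q * t Q = 0 := by
      calc Q * t Q = φ * (τ * t τ) * t φ := by rw [hQ, ht.mul]; simp only [mul_assoc]
        _ = 0 := by rw [r5, mul_zero, zero_mul]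
    have htQ : t Q * Q = 0 := by
      calc t Q * Q = t τ * (t φ * φ) * τ := by rw [hQ, ht.mul]; simp only [mul_assoc]
        _ = 0 := by rw [r4, mul_zero, zero_mul]
    have hQa : J (Q - a l) := by
      have e1 : J (φ - p) := by rw [r8, add_sub_cancel_left]; exact hJ.right _ hsp
      have e2 : J (τ - p) := by rw [r9, add_sub_cancel_left]; exact hJ.right _ hps
      have e3 := hJ.mul_congr e1 e2
      rw [hp] at e3
      have : Q - a l = (φ * τ - p) + (p - a l) := by rw [hQ]; abel
      rw [this]
      exact hJ.add e3 hpal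
    have hQf : g₀ * Q = Q ∧ Q * g₀ = Q := by
      constructor
      · rw [← hgQ, ← mul_assoc, h0g]
      · conv_lhs => rw [← hQg]
        rw [mul_assoc, hgg0, hQg]
    have hx1 : ∀ m < l, q m * Q = 0 := fun m hm => by rw [← hgQ, ← mul_assoc, hqg m hm, zero_mul]
    have hx2 : ∀ m < l, Q * q m = 0 := fun m hm => by rw [← hQg, mul_assoc, hgq m hm, mul_zero]
    have hx3 : ∀ m < l, t (q m) * Q = 0 := fun m hm => by
      rw [← hgQ, ← mul_assoc, htqg m hm, zero_mul]
    have hx4 : ∀ m < l, q m * t Q = 0 := fun m hm => by
      rw [← hgtQ, ← mul_assoc, hqg m hm, zero_mul]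
    have hx5 : ∀ m < l, t Q * q m = 0 := fun m hm => by
      have := congrArg t (hx3 m hm)
      rwa [ht.mul, ht.inv, map_zero] at this
    have hx6 : ∀ m < l, Q * t (q m) = 0 := fun m hm => by
      have := congrArg t (hx4 m hm)
      rwa [ht.mul, ht.inv, map_zero] at this
    refine ⟨fun n => if n < l then q n else Q, ?_, ?_, ?_, ?_, ?_⟩
    · intro m hm n hn
      by_cases h5 : m < l
      · by_cases h6 : n < l
        · simp only [h5, h6, if_true]
          exact k1 m h5 n h6
        · simp only [h5, h6, if_true, if_false]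
          rw [hx1 m h5, if_neg (by omega)]
      · by_cases h6 : n < l
        · simp only [h5, h6, if_true, if_false]
          rw [hx2 n h6, if_neg (by omega)]
        · simp only [h5, h6, if_false]
          rw [hQQ, if_pos (by omega)]
    · intro m hm n hn
      by_cases h5 : m < l
      · by_cases h6 : n < l
        · simp only [h5, h6, if_true]
          exact k2 m h5 n h6
        · simp only [h5, h6, if_true, if_false]
          exact hx4 m h5
      · by_cases h6 : n < l
        · simp only [h5, h6, if_true, if_false]
          exact hx6 n h6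
        · simp only [h5, h6, if_false]
          exact hQt
    · intro m hm n hn
      by_cases h5 : m < l
      · by_cases h6 : n < l
        · simp only [h5, h6, if_true]
          exact k3 m h5 n h6
        · simp only [h5, h6, if_true, if_false]
          exact hx3 m h5
      · by_cases h6 : n < l
        · simp only [h5, h6, if_true, if_false]
          exact hx5 n h6
        · simp only [h5, h6, if_false]
          exact htQ
    · intro n hn
      by_cases h5 : n < l
      · simp only [h5, if_true]
        exact k4 n h5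
      · have h6 : n = l := by omega
        subst h6
        simp only [h5, if_false]
        exact hQa
    · intro n hn
      by_cases h5 : n < l
      · simp only [h5, if_true]
        exact k5 n h5
      · have h6 : n = l := by omega
        subst h6
        simp only [h5, if_false]
        exact hQf

/-- The completion of one half of a self-dual family. -/
theorem complete (ht : IsInv t) {g₀ : R} (hg0 : g₀ * g₀ = g₀) (htg0 : t g₀ = g₀) (d : ℕ)
    (q : ℕ → R) (k1 : ∀ m < d, ∀ n < d, q m * q n = if m = n then q m else 0)
    (k2 : ∀ m < d, ∀ n < d, q m * t (q n) = 0) (k3 : ∀ m < d, ∀ n < d, t (q m) * q n = 0)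
    (k4 : ∀ n < d, g₀ * q n = q n ∧ q n * g₀ = q n) :
    ∃ Q : ℕ → R, (∀ n < d, Q n = q n) ∧ Q d = g₀ - ∑ n ∈ Finset.range d, (q n + t (q n)) ∧
      (∀ n, 2 * d < n → Q n = 0) ∧ (∀ m n, Q m * Q n = if m = n then Q m else 0) ∧
      ∑ n ∈ Finset.range (2 * d + 1), Q n = g₀ ∧ ∀ n ≤ 2 * d, t (Q n) = Q (2 * d - n) := by
  have htt : ∀ m < d, ∀ n < d, t (q m) * t (q n) = if m = n then t (q m) else 0 := by
    intro m hm n hn
    rw [← ht.mul, k1 n hn m hm]
    by_cases h : n = m
    · rw [if_pos h, if_pos h.symm, h]
    · rw [if_neg h, if_neg (Ne.symm h), map_zero]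
  set e : R := ∑ n ∈ Finset.range d, (q n + t (q n)) with he
  have hqe : ∀ m < d, q m * e = q m := by
    intro m hm
    rw [he, Finset.mul_sum, Finset.sum_eq_single m]
    · rw [mul_add, k1 m hm m hm, if_pos rfl, k2 m hm m hm, add_zero]
    · intro n hn hnm
      rw [Finset.mem_range] at hn
      rw [mul_add, k1 m hm n hn, if_neg (Ne.symm hnm), k2 m hm n hn, add_zero]
    · intro h; exact absurd (Finset.mem_range.2 hm) h
  have heq : ∀ m < d, e * q m = q m := by
    intro m hm
    rw [he, Finset.sum_mul, Finset.sum_eq_single m]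
    · rw [add_mul, k1 m hm m hm, if_pos rfl, k3 m hm m hm, add_zero]
    · intro n hn hnm
      rw [Finset.mem_range] at hn
      rw [add_mul, k1 n hn m hm, if_neg hnm, k3 n hn m hm, add_zero]
    · intro h; exact absurd (Finset.mem_range.2 hm) h
  have hte0 : t e = e := by
    rw [he, map_sum]
    apply Finset.sum_congr rfl
    intro n _
    rw [map_add, ht.inv, add_comm]
  have hte : ∀ m < d, t (q m) * e = t (q m) := by
    intro m hm
    have := congrArg t (heq m hm)
    rwa [ht.mul, hte0] at this
  have het : ∀ m < d, e * t (q m) = t (q m) := by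
    intro m hm
    have := congrArg t (hqe m hm)
    rwa [ht.mul, hte0] at this
  have hee : e * e = e := by
    conv_lhs => rw [he]
    rw [Finset.sum_mul]
    conv_rhs => rw [he]
    apply Finset.sum_congr rfl
    intro n hn
    rw [Finset.mem_range] at hn
    rw [add_mul, hqe n hn, hte n hn]
  have htq0 : ∀ m < d, t (q m) * g₀ = t (q m) := fun m hm => by
    have := congrArg t (k4 m hm).1
    rwa [ht.mul, htg0] at this
  have h0tq : ∀ m < d, g₀ * t (q m) = t (q m) := fun m hm => by
    have := congrArg t (k4 m hm).2
    rwa [ht.mul, htg0] at this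
  have h0e : g₀ * e = e := by
    rw [he, Finset.mul_sum]
    apply Finset.sum_congr rfl
    intro n hn
    rw [Finset.mem_range] at hn
    rw [mul_add, (k4 n hn).1, h0tq n hn]
  have he0 : e * g₀ = e := by
    rw [he, Finset.sum_mul]
    apply Finset.sum_congr rfl
    intro n hn
    rw [Finset.mem_range] at hn
    rw [add_mul, (k4 n hn).2, htq0 n hn]
  let Q : ℕ → R := fun n => if n < d then q n else if n = d then g₀ - e else
    if n ≤ 2 * d then t (q (2 * d - n)) else 0
  have Q1 : ∀ n < d, Q n = q n := fun n hn => by simp only [Q]; rw [if_pos hn]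
  have Q2 : Q d = g₀ - e := by simp [Q]
  have Q3 : ∀ n, d < n → n ≤ 2 * d → Q n = t (q (2 * d - n)) := fun n hn hn' => by
    simp only [Q]; rw [if_neg (by omega), if_neg (by omega), if_pos hn']
  have Q4 : ∀ n, 2 * d < n → Q n = 0 := fun n hn => by
    simp only [Q]; rw [if_neg (by omega), if_neg (by omega), if_neg (by omega)]
  have Qcases : ∀ n, n < d ∨ n = d ∨ (d < n ∧ n ≤ 2 * d) ∨ 2 * d < n := fun n => by omega
  have Qe : ∀ n, n ≠ d → Q n * e = Q n ∧ e * Q n = Q n ∧ Q n * g₀ = Q n ∧ g₀ * Q n = Q n := by
    intro n hn
    rcases Qcases n with h | h | h | h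
    · rw [Q1 n h]; exact ⟨hqe n h, heq n h, (k4 n h).2, (k4 n h).1⟩
    · exact absurd h hn
    · rw [Q3 n h.1 h.2]
      exact ⟨hte _ (by omega), het _ (by omega), htq0 _ (by omega), h0tq _ (by omega)⟩
    · rw [Q4 n h]; exact ⟨zero_mul _, mul_zero _, zero_mul _, mul_zero _⟩
  refine ⟨Q, Q1, Q2, Q4, ?_, ?_, ?_⟩
  · intro m n
    by_cases hmd : m = d
    · rw [hmd]
      by_cases hnd : n = d
      · rw [if_pos hnd.symm, hnd, Q2, mul_sub, sub_mul, sub_mul, hg0, h0e, he0, hee, sub_self,
          sub_zero]
      · rw [if_neg (Ne.symm hnd), Q2, sub_mul, (Qe n hnd).2.1, (Qe n hnd).2.2.2, sub_self]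
    · by_cases hnd : n = d
      · rw [if_neg (by omega), hnd, Q2, mul_sub, (Qe m hmd).1, (Qe m hmd).2.2.1, sub_self]
      · rcases Qcases m with h | h | h | h
        · rw [Q1 m h]
          rcases Qcases n with h' | h' | h' | h'
          · rw [Q1 n h', k1 m h n h']
          · exact absurd h' hnd
          · rw [Q3 n h'.1 h'.2, k2 m h _ (by omega), if_neg (by omega)]
          · rw [Q4 n h', mul_zero, if_neg (by omega)]
        · exact absurd h hmd
        · rw [Q3 m h.1 h.2]
          rcases Qcases n with h' | h' | h' | h'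
          · rw [Q1 n h', k3 _ (by omega) n h', if_neg (by omega)]
          · exact absurd h' hnd
          · rw [Q3 n h'.1 h'.2, htt _ (by omega) _ (by omega)]
            by_cases hmn : m = n
            · rw [if_pos (by omega), if_pos hmn]
            · rw [if_neg (by omega), if_neg hmn]
          · rw [Q4 n h', mul_zero, if_neg (by omega)]
        · rw [Q4 m h, zero_mul]
          split_ifs
          · rfl
          · rfl
  · have e1 : Finset.range (2 * d + 1) = Finset.range (d + (d + 1)) := by congr 1; omega
    rw [e1, Finset.sum_range_add, Finset.sum_range_succ']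
    have e2 : ∑ x ∈ Finset.range d, Q x = ∑ x ∈ Finset.range d, q x :=
      Finset.sum_congr rfl fun x hx => Q1 x (Finset.mem_range.1 hx)
    have e3 : ∑ x ∈ Finset.range d, Q (d + (x + 1)) = ∑ x ∈ Finset.range d, t (q x) := by
      rw [← Finset.sum_range_reflect (fun x => t (q x))]
      apply Finset.sum_congr rfl
      intro x hx
      rw [Finset.mem_range] at hx
      rw [Q3 _ (by omega) (by omega)]
      congr 2
      omega
    rw [e2, e3, add_zero, Q2, he, Finset.sum_add_distrib]
    abel
  · intro n hn
    rcases Qcases n with h | h | h | h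
    · rw [Q1 n h]
      by_cases h0 : 2 * d - n ≤ 2 * d
      · rw [Q3 _ (by omega) (by omega)]
        congr 2
        omega
      · omega
    · rw [h, show 2 * d - d = d by omega, Q2, map_sub, htg0, hte0]
    · rw [Q3 n h.1 h.2, ht.inv, Q1 _ (by omega)]
    · omega

end Pool.Agent.U3.SD
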