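import Pool.Agent.U3.SD.Ring
import Pool.Agent.TH829.Kim.Alg2

/-!
# Rings with an involution: self-dual lifts of idempotents modulo an ideal
-/

set_option autoImplicit false
set_option linter.unusedSectionVars false

open Polynomial

universe u

namespace Pool.Agent.U3.SD

variable {R : Type u} [Ring R] [Algebra ℚ R]

/-- `J` is a two-sided ideal which is stable under `t`. -/
structure IsIdl (t : R →+ R) (J : R → Prop) : Prop where
  zero : J 0
  add : ∀ {a b}, J a → J b → J (a + b)
  neg : ∀ {a}, J a → J (-a)
  left : ∀ {a} (r : R), J a → J (r * a)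
  right : ∀ {a} (r : R), J a → J (a * r)
  inv : ∀ {a}, J a → J (t a)

variable {t : R →+ R} {J : R → Prop}

lemma IsIdl.sub (hJ : IsIdl t J) {a b : R} (ha : J a) (hb : J b) : J (a - b) := by
  rw [sub_eq_add_neg]; exact hJ.add ha (hJ.neg hb)

lemma IsIdl.sum (hJ : IsIdl t J) {ι : Type*} (s : Finset ι) (f : ι → R)
    (h : ∀ i ∈ s, J (f i)) : J (∑ i ∈ s, f i) := by
  classical
  induction s using Finset.induction_on with
  | empty => rw [Finset.sum_empty]; exact hJ.zero
  | insert a s ha ih =>
    rw [Finset.sum_insert ha]
    exact hJ.add (h a (Finset.mem_insert_self a s)) (ih fun i hi => h i (Finset.mem_insert_of_mem hi))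

/-- products of congruent elements are congruent -/
lemma IsIdl.mul_congr (hJ : IsIdl t J) {a b a' b' : R} (ha : J (a - a')) (hb : J (b - b')) :
    J (a * b - a' * b') := by
  have : a * b - a' * b' = (a - a') * b + a' * (b - b') := by noncomm_ring
  rw [this]
  exact hJ.add (hJ.right _ ha) (hJ.left _ hb)

lemma IsIdl.of_sub (hJ : IsIdl t J) {a b : R} (h : J (a - b)) (hb : J b) : J a := by
  have : a = (a - b) + b := by abel
  rw [this]; exact hJ.add h hb

/-- The lifting of idempotents, if the multiples `a x`, `x ∈ J`, are nilpotent. -/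
lemma exists_idem {a : R} (h1 : J (a * a - a)) (h2 : ∀ x, J x → IsNilpotent (a * x))
    (hJ : IsIdl t J) : ∃ h : R, a * h = h * a ∧ (a * h) * (a * h) = a * h ∧ J (a * h - a) := by
  have hc : Commute a (a * a - a) := by
    unfold Commute SemiconjBy
    noncomm_ring
  have h3 : IsNilpotent ((a * a) * (a * a) - a * a) := by
    have h4 : (a * a) * (a * a) - a * a = (a * (a * a - a)) * (a + 1) := by noncomm_ring
    rw [h4]
    have hcc : Commute (a * (a * a - a)) (a + 1) := by
      unfold Commute SemiconjBy
      noncomm_ring
    exact hcc.isNilpotent_mul_right (h2 _ h1)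
  obtain ⟨N, hN⟩ := h3
  obtain ⟨φ, ⟨r, hr⟩, ⟨s, hs⟩⟩ := Pool.Agent.TH829.Kim.exists_poly N
  -- `φ = X ρ`
  obtain ⟨ρ, hρ⟩ : ∃ ρ : ℚ[X], φ = X * ρ := by
    refine ⟨1 + (X - 1) * s, ?_⟩
    linear_combination hs
  set b := a * a with hb
  have hφ : aeval b φ = a * (a * aeval b ρ) := by
    rw [hρ, map_mul, aeval_X, ← mul_assoc, ← hb]
  have hcomm : a * aeval b ρ = aeval b ρ * a := by
    have h5 : aeval b ρ = aeval a (ρ.comp (X * X)) := by
      rw [aeval_comp, map_mul, aeval_X]
    rw [h5]
    have := congrArg (aeval a) (mul_comm X (ρ.comp (X * X)))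
    rwa [map_mul, map_mul, aeval_X] at this
  refine ⟨a * aeval b ρ, ?_, ?_, ?_⟩
  · rw [hcomm, ← mul_assoc, hcomm]
  · rw [← hφ]
    have h1 := congrArg (aeval b) hr
    rw [map_sub, map_pow, map_mul, map_pow, map_sub, map_pow, aeval_X, sq b,
      pow_eq_zero_of_le (Nat.le_succ N) hN, zero_mul, sub_eq_zero, sq] at h1
    exact h1
  · rw [← hφ]
    have h6 := congrArg (aeval b) hs
    rw [map_sub, map_mul, map_sub, map_pow, aeval_X, sq] at h6
    have h7 : aeval b φ - a = (aeval b φ - b) + (b - a) := by abel
    rw [h7, h6]
    have h8 : b * b - b = (a * a - a) * (a * a + a) := by rw [hb]; noncomm_ring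
    rw [h8, mul_assoc]
    exact hJ.add (hJ.right _ h1) h1

/-- **Self-dual lifts.** -/
theorem exists_half (ht : IsInv t) (hJ : IsIdl t J) (d : ℕ) (a : ℕ → R)
    (h1 : ∀ m < d, ∀ n < d, J (a m * a n - if m = n then a m else 0))
    (h2 : ∀ m < d, ∀ n < d, J (a m * t (a n))) (h3 : ∀ m < d, ∀ n < d, J (t (a m) * a n))
    (h4 : ∀ n < d, ∀ x, J x → IsNilpotent (a n * x)) (l : ℕ) (hl : l ≤ d) :
    ∃ q : ℕ → R, (∀ m < l, ∀ n < l, q m * q n = if m = n then q m else 0) ∧
      (∀ m < l, ∀ n < l, q m * t (q n) = 0) ∧ (∀ m < l, ∀ n < l, t (q m) * q n = 0) ∧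
      (∀ n < l, J (q n - a n)) ∧ ∀ n < l, ∃ u v : R, q n = u * a n * v := by
  induction l with
  | zero =>
    exact ⟨fun _ => 0, by simp, by simp, by simp, by simp, by simp⟩
  | succ l ih =>
    obtain ⟨q, k1, k2, k3, k4, k5⟩ := ih (by omega)
    have hld : l < d := by omega
    have htt : ∀ m < l, ∀ n < l, t (q m) * t (q n) = if m = n then t (q m) else 0 := by
      intro m hm n hn
      rw [← ht.mul, k1 n hn m hm]
      by_cases h : n = m
      · rw [if_pos h, if_pos h.symm, h]
      · rw [if_neg h, if_neg (Ne.symm h), map_zero]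
    set f : R := ∑ n ∈ Finset.range l, (q n + t (q n)) with hf
    have hqf : ∀ m < l, q m * f = q m := by
      intro m hm
      rw [hf, Finset.mul_sum, Finset.sum_eq_single m]
      · rw [mul_add, k1 m hm m hm, if_pos rfl, k2 m hm m hm, add_zero]
      · intro n hn hnm
        rw [Finset.mem_range] at hn
        rw [mul_add, k1 m hm n hn, if_neg (Ne.symm hnm), k2 m hm n hn, add_zero]
      · intro h; exact absurd (Finset.mem_range.2 hm) h
    have hfq : ∀ m < l, f * q m = q m := by
      intro m hm
      rw [hf, Finset.sum_mul, Finset.sum_eq_single m]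
      · rw [add_mul, k1 m hm m hm, if_pos rfl, k3 m hm m hm, add_zero]
      · intro n hn hnm
        rw [Finset.mem_range] at hn
        rw [add_mul, k1 n hn m hm, if_neg hnm, k3 n hn m hm, add_zero]
      · intro h; exact absurd (Finset.mem_range.2 hm) h
    have htf : t f = f := by
      rw [hf, map_sum]
      apply Finset.sum_congr rfl
      intro n _
      rw [map_add, ht.inv, add_comm]
    have htqf : ∀ m < l, t (q m) * f = t (q m) := by
      intro m hm
      have := congrArg t (hfq m hm)
      rwa [ht.mul, htf] at this
    have hftq : ∀ m < l, f * t (q m) = t (q m) := by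
      intro m hm
      have := congrArg t (hqf m hm)
      rwa [ht.mul, htf] at this
    set g : R := 1 - f with hg
    have htg : t g = g := by rw [hg, map_sub, ht.one, htf]
    have hqg : ∀ m < l, q m * g = 0 := fun m hm => by rw [hg, mul_sub, mul_one, hqf m hm, sub_self]
    have hgq : ∀ m < l, g * q m = 0 := fun m hm => by rw [hg, sub_mul, one_mul, hfq m hm, sub_self]
    have htqg : ∀ m < l, t (q m) * g = 0 := fun m hm => by
      rw [hg, mul_sub, mul_one, htqf m hm, sub_self]
    have hff : f * f = f := by
      conv_lhs => rw [hf]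
      rw [Finset.sum_mul]
      conv_rhs => rw [hf]
      apply Finset.sum_congr rfl
      intro n hn
      rw [Finset.mem_range] at hn
      rw [add_mul, hqf n hn, htqf n hn]
    have hgg : g * g = g := by rw [hg, sub_mul, one_mul, mul_sub, mul_one, hff]; abel
    -- `f a_l` and `a_l f` are in `J`
    have hfa : J (f * a l) := by
      rw [hf, Finset.sum_mul]
      apply hJ.sum
      intro n hn
      rw [Finset.mem_range] at hn
      rw [add_mul]
      apply hJ.add
      · apply hJ.of_sub (b := a n * a l)
        · rw [← sub_mul]; exact hJ.right _ (k4 n hn)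
        · have := h1 n (by omega) l hld
          rwa [if_neg (by omega), sub_zero] at this
      · apply hJ.of_sub (b := t (a n) * a l)
        · rw [← sub_mul, ← map_sub]; exact hJ.right _ (hJ.inv (k4 n hn))
        · exact h3 n (by omega) l hld
    have haf : J (a l * f) := by
      rw [hf, Finset.mul_sum]
      apply hJ.sum
      intro n hn
      rw [Finset.mem_range] at hn
      rw [mul_add]
      apply hJ.add
      · apply hJ.of_sub (b := a l * a n)
        · rw [← mul_sub]; exact hJ.left _ (k4 n hn)
        · have := h1 l hld n (by omega)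
          rwa [if_neg (by omega), sub_zero] at this
      · apply hJ.of_sub (b := a l * t (a n))
        · rw [← mul_sub, ← map_sub]; exact hJ.left _ (hJ.inv (k4 n hn))
        · exact h2 l hld n (by omega)
    set a' : R := g * a l * g with ha'
    have haa : J (a' - a l) := by
      have : a' - a l = -(f * a l) - (a l * f) + f * (a l * f) := by rw [ha', hg]; noncomm_ring
      rw [this]
      exact hJ.add (hJ.sub (hJ.neg hfa) haf) (hJ.left _ haf)
    have hidem : J (a' * a' - a') := by
      have h5 : J (a l * a l - a l) := by
        have := h1 l hld l hld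
        rwa [if_pos rfl] at this
      have h6 : a' * a' - a' = (a' * a' - a l * a l) + (a l * a l - a l) - (a' - a l) := by abel
      rw [h6]
      exact hJ.sub (hJ.add (hJ.mul_congr haa haa) h5) haa
    have hnil : ∀ x, J x → IsNilpotent (a' * x) := by
      intro x hx
      have h5 : a' * x = g * (a l * (g * x)) := by rw [ha']; simp only [mul_assoc]
      rw [h5]
      apply isNilpotent_mul_comm
      rw [mul_assoc]
      exact h4 l hld _ (hJ.right _ (hJ.left _ hx))
    obtain ⟨h, hc, hp, hpa⟩ := exists_idem hidem hnil hJ
    set p : R := a' * h with hpdef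
    have hga' : g * a' = a' := by rw [ha', ← mul_assoc, ← mul_assoc, hgg]
    have ha'g : a' * g = a' := by rw [ha', mul_assoc, hgg]
    have hgp : g * p = p := by rw [hpdef, ← mul_assoc, hga']
    have hpg : p * g = p := by rw [hc, mul_assoc, ha'g]
    have hpal : J (p - a l) := by
      have : p - a l = (p - a') + (a' - a l) := by abel
      rw [this]; exact hJ.add hpa haa
    have hsp : J (t p * p) := by
      apply hJ.of_sub (b := t (a l) * a l)
      · apply hJ.mul_congr _ hpal
        rw [← map_sub]; exact hJ.inv hpal
      · exact h3 l hld l hld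
    have hps : J (p * t p) := by
      apply hJ.of_sub (b := a l * t (a l))
      · apply hJ.mul_congr hpal
        rw [← map_sub]; exact hJ.inv hpal
      · exact h2 l hld l hld
    have hnp : IsNilpotent (p * t p * p) := by
      have : p * t p * p = a' * (h * (t p * p)) := by rw [hpdef]; simp only [mul_assoc]
      rw [this]
      exact hnil _ (hJ.left _ hsp)
    obtain ⟨φ, τ, x, y, z, u, v, r1, r2, r3, r4, r5, r6, r7, r8, r9⟩ := hyper ht hp hnp
    have hgs : g * t p = t p := by
      have := congrArg t hpg
      rwa [ht.mul, htg] at this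
    have hsg : t p * g = t p := by
      have := congrArg t hgp
      rwa [ht.mul, htg] at this
    have hgφ : g * φ = φ := by rw [r6, mul_add, hgp, ← mul_assoc, hgs]
    have hτg : τ * g = τ := by
      rw [r7, add_mul, mul_assoc, hpg, mul_assoc, mul_assoc p, hsg]
    set Q : R := φ * τ with hQ
    have hgQ : g * Q = Q := by rw [hQ, ← mul_assoc, hgφ]
    have hQg : Q * g = Q := by rw [hQ, mul_assoc, hτg]
    have hgtQ : g * t Q = t Q := by
      have := congrArg t hQg
      rwa [ht.mul, htg] at this
    have hQQ : Q * Q = Q := by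
      calc Q * Q = φ * (τ * φ) * τ := by rw [hQ]; simp only [mul_assoc]
        _ = Q := by rw [r3, r1]
    have hQt : Q * t Q = 0 := by
      calc Q * t Q = φ * (τ * t τ) * t φ := by rw [hQ, ht.mul]; simp only [mul_assoc]
        _ = 0 := by rw [r5, mul_zero, zero_mul]
    have htQ : t Q * Q = 0 := by
      calc t Q * Q = t τ * (t φ * φ) * τ := by rw [hQ, ht.mul]; simp only [mul_assoc]
        _ = 0 := by rw [r4, mul_zero, zero_mul]
    have hQa : J (Q - a l) := by
      have e1 : J (φ - p) := by rw [r8, add_sub_cancel_left]; exact hJ.right _ hsp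
      have e2 : J (τ - p) := by rw [r9, add_sub_cancel_left]; exact hJ.right _ hps
      have e3 := hJ.mul_congr e1 e2
      rw [hp] at e3
      have : Q - a l = (φ * τ - p) + (p - a l) := by rw [hQ]; abel
      rw [this]
      exact hJ.add e3 hpal
    have hQf : ∃ u v : R, Q = u * a l * v := by
      refine ⟨φ * g, g * h * τ, ?_⟩
      calc Q = φ * p * τ := by rw [r1]
        _ = _ := by rw [hpdef, ha']; simp only [mul_assoc]
    have hx1 : ∀ m < l, q m * Q = 0 := fun m hm => by rw [← hgQ, ← mul_assoc, hqg m hm, zero_mul]
    have hx2 : ∀ m < l, Q * q m = 0 := fun m hm => by rw [← hQg, mul_assoc, hgq m hm, mul_zero]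
    have hx3 : ∀ m < l, t (q m) * Q = 0 := fun m hm => by
      rw [← hgQ, ← mul_assoc, htqg m hm, zero_mul]
    have hx4 : ∀ m < l, q m * t Q = 0 := fun m hm => by
      rw [← hgtQ, ← mul_assoc, hqg m hm, zero_mul]
    have hx5 : ∀ m < l, t Q * q m = 0 := fun m hm => by
      have := congrArg t (hx3 m hm)
      rwa [ht.mul, ht.inv, map_zero] at this
    have hx6 : ∀ m < l, Q * t (q m) = 0 := fun m hm => by
      have := congrArg t (hx4 m hm)
      rwa [ht.mul, ht.inv, map_zero] at this
    refine ⟨fun n => if n < l then q n else Q, ?_, ?_, ?_, ?_, ?_⟩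
    · intro m hm n hn
      by_cases h5 : m < l
      · by_cases h6 : n < l
        · simp only [h5, h6, if_true]
          exact k1 m h5 n h6
        · simp only [h5, h6, if_true, if_false]
          rw [hx1 m h5, if_neg (by omega)]
      · by_cases h6 : n < l
        · simp only [h5, h6, if_true, if_false]
          rw [hx2 n h6, if_neg (by omega)]
        · simp only [h5, h6, if_false]
          rw [hQQ, if_pos (by omega)]
    · intro m hm n hn
      by_cases h5 : m < l
      · by_cases h6 : n < l
        · simp only [h5, h6, if_true]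
          exact k2 m h5 n h6
        · simp only [h5, h6, if_true, if_false]
          exact hx4 m h5
      · by_cases h6 : n < l
        · simp only [h5, h6, if_true, if_false]
          exact hx6 n h6
        · simp only [h5, h6, if_false]
          exact hQt
    · intro m hm n hn
      by_cases h5 : m < l
      · by_cases h6 : n < l
        · simp only [h5, h6, if_true]
          exact k3 m h5 n h6
        · simp only [h5, h6, if_true, if_false]
          exact hx3 m h5
      · by_cases h6 : n < l
        · simp only [h5, h6, if_true, if_false]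
          exact hx5 n h6
        · simp only [h5, h6, if_false]
          exact htQ
    · intro n hn
      by_cases h5 : n < l
      · simp only [h5, if_true]
        exact k4 n h5
      · have h6 : n = l := by omega
        subst h6
        simp only [h5, if_false]
        exact hQa
    · intro n hn
      by_cases h5 : n < l
      · simp only [h5, if_true]
        exact k5 n h5
      · have h6 : n = l := by omega
        subst h6
        simp only [h5, if_false]
        exact hQf

end Pool.Agent.U3.SD
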