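import Pool.Agent.U3.SD.Blow

/-!
# Self-dual Chow-Kunneth decompositions and modifications
-/

set_option autoImplicit false

open CategoryTheory AlgebraicGeometry

universe u v w

namespace Pool.Agent.U3.SD

open Pool.Agent.H914 Pool.Agent.H914.VarClass Pool.Agent.H914.VarClass.Obj Pool.Agent.W492.BB
  Pool.Agent.W550.Corr Pool.Agent.TH133 Pool.Agent.Y107 Pool.Agent.TH829.Kim

set_option linter.unusedSectionVars false

variable {k : Type u} [Field k] {𝒱 : VarClass k}

variable {C : TheoryData.{u, v, 0} 𝒱 ℚ} [hC : IsChowProj C] {X Y Z W : 𝒱.Obj}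
variable {K : Type w} [Field K] {H : WeilTheoryData.{u, v, w} C K} [hH : IsWeilProj H]

include hC

lemma tp_cograph (f : Y ⟶ X) : tp C (C.cograph f) = C.graph f := by
  rw [tp_eq_push, TheoryData.cograph, TheoryData.graph, ← C.push_comp]
  have e1 : Obj.lift f (𝟙 Y) ≫ sw X Y = Obj.lift (𝟙 Y) f := by
    apply prod_ext <;> simp [sw, comp_lift]
  rw [e1]

lemma isEmbedding_cograph (f : Y ⟶ X) (hd : Y.dim = X.dim) {l : ℚ} (hl : l ≠ 0)
    (hf : C.push f 1 = l • 1) : IsEmbedding C 0 l (C.cograph f) where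
  dim := by omega
  ne := hl
  deg := by
    have h := cograph_mem (C := C) f
    change C.cograph f ∈ C.gr (X.prod Y) ((X.dim : ℤ) + (0 : ℕ))
    rwa [Nat.cast_zero, add_zero]
  comp := by
    have h2 : C.mulCorr (l • (1 : C.A X)) = l • dg C X := map_smul (C.push _) _ _
    rw [tp_cograph, cograph_graph, hf, h2]

lemma complement_cograph (f : Y ⟶ X) (l : ℚ) :
    complement C l (C.cograph f) = dg C Y - l⁻¹ • C.comp (C.graph f) (C.cograph f) := by
  rw [complement, tp_cograph]

lemma complement_eq (l : ℚ) (a : C.A (X.prod Y)) :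
    complement C l a = dg C Y - C.comp (l⁻¹ • tp C a) a := by
  rw [complement, smul_comp']

include hH

lemma HasSD.hasC (h : HasSD H X) : HasC H X := by
  obtain ⟨π, h1, -⟩ := h
  exact fun n => ⟨π n, h1.deg n, fun m x hx => h1.actH_eq n m hx⟩

/-- **Witt cancellation.** -/
theorem hasSD_iff_of_embedding {r : ℕ} {l : ℚ} {a : C.A (X.prod Y)} (h : IsEmbedding C r l a)
    (hnil : HomNil H (complement C l a)) :
    HasSD H Y ↔ HasSD H X ∧ ∀ n < Y.dim, ∃ c : C.A (Y.prod Y), IsProj H n c := by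
  rw [complement_eq] at hnil
  constructor
  · intro hY
    exact ⟨descend h.pair hnil hY, fun n _ => hY.hasC n⟩
  · rintro ⟨hX, hc⟩
    exact ascend h.pair hnil hX hc

lemma hasC_of_pair {r : ℕ} {a : C.A (X.prod Y)} {b : C.A (Y.prod X)} (h : Pair C r a b)
    (hX : HasC H X) (hZ : HasC H Z) {s : ℤ} {α : C.A (Y.prod Z)} {β : C.A (Z.prod Y)}
    (hα : C.Deg ((Y.dim : ℤ) + s) α) (hβ : C.Deg ((Z.dim : ℤ) - s) β)
    (he : dg C Y - C.comp b a = C.comp α β) : HasC H Y := by
  classical
  intro n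
  -- the part from `X`
  have hα' : α ∈ C.gr (Y.prod Z) ((Y.dim : ℤ) + s) := hα
  have hβ' : β ∈ C.gr (Z.prod Y) ((Z.dim : ℤ) + -s) := hβ
  have hg : ∀ x : H.A Y, x = H.act (H.cl a) (H.act (H.cl b) x) +
      H.act (H.cl β) (H.act (H.cl α) x) := fun x => by
    rw [← actH_comp, ← actH_comp, ← he, map_sub, TheoryData.act_sub, actH_dg]
    abel
  obtain ⟨c₁, hc₁, ha₁⟩ : ∃ c : C.A (Y.prod Y), c ∈ C.gr (Y.prod Y) Y.dim ∧
      ∀ (m : ℤ) (x : H.A Y), x ∈ H.gr Y m → H.act (H.cl c) x =
        if m = n then H.act (H.cl a) (H.act (H.cl b) x) else 0 := by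
    by_cases hn : 2 * r ≤ n
    · obtain ⟨c, hc1, hc2⟩ := hX (n - 2 * r)
      refine ⟨C.comp (C.comp b c) a, h.mempsi hc1, fun m x hx => ?_⟩
      have hb := act_b_mem (H := H) h hx
      rw [actH_comp, actH_comp, hc2 _ _ hb]
      split_ifs with h3 h4 h4
      · rfl
      · exfalso; apply h4; omega
      · exfalso; apply h3; omega
      · exact TheoryData.act_map_zero _ _
    · refine ⟨0, Submodule.zero_mem _, fun m x hx => ?_⟩
      have hb := act_b_mem (H := H) h hx
      rw [actH_zero]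
      split_ifs with h3
      · have hb0 : H.act (H.cl b) x = 0 := by
          rw [H.gr_neg X _ (by omega)] at hb
          exact (Submodule.mem_bot _).1 hb
        rw [hb0, TheoryData.act_map_zero]
      · rfl
  obtain ⟨c₂, hc₂, ha₂⟩ : ∃ c : C.A (Y.prod Y), c ∈ C.gr (Y.prod Y) Y.dim ∧
      ∀ (m : ℤ) (x : H.A Y), x ∈ H.gr Y m → H.act (H.cl c) x =
        if m = n then H.act (H.cl β) (H.act (H.cl α) x) else 0 := by
    by_cases hn : 0 ≤ (n : ℤ) + 2 * s
    · obtain ⟨c, hc1, hc2⟩ := hZ ((n : ℤ) + 2 * s).toNat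
      have hc1' : c ∈ C.gr (Z.prod Z) ((Z.dim : ℤ) + 0) := by rw [add_zero]; exact hc1
      refine ⟨C.comp (C.comp α c) β, ?_, fun m x hx => ?_⟩
      · have := comp_mem C (comp_mem C hα' hc1') hβ'
        rwa [show (Y.dim : ℤ) + (s + 0 + -s) = Y.dim by ring] at this
      · have hb : H.act (H.cl α) x ∈ H.gr Z (m + 2 * s) := actH_mem H hα' hx
        rw [actH_comp, actH_comp, hc2 _ _ hb]
        have e1 : (((n : ℤ) + 2 * s).toNat : ℤ) = n + 2 * s := Int.toNat_of_nonneg hn
        rw [e1]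
        split_ifs with h3 h4 h4
        · rfl
        · exfalso; apply h4; omega
        · exfalso; apply h3; omega
        · exact TheoryData.act_map_zero _ _
    · refine ⟨0, Submodule.zero_mem _, fun m x hx => ?_⟩
      have hb : H.act (H.cl α) x ∈ H.gr Z (m + 2 * s) := actH_mem H hα' hx
      rw [actH_zero]
      split_ifs with h3
      · have hb0 : H.act (H.cl α) x = 0 := by
          rw [H.gr_neg Z _ (by omega)] at hb
          exact (Submodule.mem_bot _).1 hb
        rw [hb0, TheoryData.act_map_zero]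
      · rfl
  refine ⟨c₁ + c₂, Submodule.add_mem _ hc₁ hc₂, fun m x hx => ?_⟩
  rw [map_add, H.act_add, ha₁ m x hx, ha₂ m x hx]
  split_ifs
  · exact (hg x).symm
  · exact add_zero 0

/-- **Modifications.** -/
theorem hasSD_iff_of_modification (h : FiniteModification H Y X) : HasSD H Y ↔ HasSD H X := by
  obtain ⟨hd, f, l, hl, hf, Z, s, α, β, hZ, hCZ, hα, hβ, he⟩ := h
  have hemb := isEmbedding_cograph (C := C) f hd hl hf
  have hnilZ : HomNil H (dg C Z) := by
    rcases hZ with h1 | h1
    · exact h1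
    · exact homNil_of_kimura h1
  have hnil : HomNil H (complement C l (C.cograph f)) := by
    rw [complement_cograph, he]
    exact homNil_factor hα hβ hnilZ
  rw [hasSD_iff_of_embedding hemb hnil]
  constructor
  · exact fun h => h.1
  · intro hX
    refine ⟨hX, fun n _ => ?_⟩
    refine hasC_of_pair hemb.pair hX.hasC hCZ hα hβ ?_ n
    rw [← complement_eq, complement_cograph, he]

/-- Chains of modifications. -/
theorem hasSD_iff_of_chain (h : Relation.EqvGen (FiniteModification H) X Y) :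
    HasSD H X ↔ HasSD H Y := by
  induction h with
  | rel X Y h => exact hasSD_iff_of_modification h
  | refl X => exact Iff.rfl
  | symm X Y _ ih => exact ih.symm
  | trans X Y Z _ _ ih1 ih2 => exact ih1.trans ih2

end Pool.Agent.U3.SD
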