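import Mathlib

/-!
# Rings with an involution: splitting off hyperbolic pairs of idempotents
-/

set_option autoImplicit false

open Polynomial

universe u

namespace Pool.Agent.U3.SD

/-! ### Polynomials -/

/-- `X β² + 2 β + 1 = 0` has a solution modulo `X ^ n`. -/
lemma exists_beta (n : ℕ) : ∃ β g : ℚ[X], 1 + 2 * β + X * β ^ 2 = X ^ n * g := by
  induction n with
  | zero => exact ⟨0, 1, by simp⟩
  | succ n ih =>
    obtain ⟨β, g, hg⟩ := ih
    obtain ⟨g', hg'⟩ : ∃ g' : ℚ[X], g = C (g.coeff 0) + X * g' := by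
      refine ⟨g.divX, ?_⟩
      rw [add_comm]
      exact (X_mul_divX_add g).symm
    set c : ℚ := g.coeff 0 with hc
    refine ⟨β - C (c / 2) * X ^ n, g' - 2 * C (c / 2) * β + C (c / 2) ^ 2 * X ^ n, ?_⟩
    have h2 : (2 : ℚ[X]) * C (c / 2) = C c := by
      rw [show (2 : ℚ[X]) = C 2 from rfl, ← C_mul]
      congr 1
      ring
    have h3 : 1 + 2 * β + X * β ^ 2 = X ^ n * (C c + X * g') := by rw [hg, ← hg']
    linear_combination h3 - X ^ n * h2

/-- Polynomials with constant term one are units modulo `X ^ n`. -/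
lemma exists_delta (n : ℕ) (γ : ℚ[X]) (hγ : γ.coeff 0 = 1) : ∃ δ h : ℚ[X],
    δ * γ = 1 + X ^ n * h := by
  induction n with
  | zero => exact ⟨0, -1, by simp⟩
  | succ n ih =>
    obtain ⟨δ, h, hh⟩ := ih
    obtain ⟨γ', hγ'⟩ : ∃ γ' : ℚ[X], γ = 1 + X * γ' := by
      refine ⟨γ.divX, ?_⟩
      rw [add_comm]
      have := (X_mul_divX_add γ).symm
      rw [hγ, C_1] at this
      exact this
    obtain ⟨h', hh'⟩ : ∃ h' : ℚ[X], h = C (h.coeff 0) + X * h' := by
      refine ⟨h.divX, ?_⟩
      rw [add_comm]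
      exact (X_mul_divX_add h).symm
    set c : ℚ := h.coeff 0 with hc
    refine ⟨δ - C c * X ^ n, h' - C c * γ', ?_⟩
    have h3 : δ * γ = 1 + X ^ n * (C c + X * h') := by rw [hh, ← hh']
    rw [sub_mul, h3, hγ']
    ring

/-- Polynomials with constant term one, second form. -/
lemma exists_pair (n : ℕ) : ∃ β δ g h : ℚ[X], 1 + 2 * β + X * β ^ 2 = X ^ n * g ∧
    δ * (1 + 2 * X * β + X * β ^ 2) = 1 + X ^ (n + 1) * h := by
  obtain ⟨β, g, hg⟩ := exists_beta n
  obtain ⟨δ, h, hh⟩ := exists_delta (n + 1) (1 + 2 * X * β + X * β ^ 2) (by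
    rw [show 1 + 2 * X * β + X * β ^ 2 = 1 + X * (2 * β + β ^ 2) by ring, coeff_add, coeff_one_zero,
      mul_coeff_zero, coeff_X_zero, zero_mul, add_zero])
  exact ⟨β, δ, g, h, hg, hh⟩

set_option linter.unusedSectionVars false

section ring

variable {R : Type u} [Ring R]

lemma isNilpotent_mul_comm {x y : R} (h : IsNilpotent (x * y)) : IsNilpotent (y * x) := by
  obtain ⟨n, hn⟩ := h
  refine ⟨n + 1, ?_⟩
  have h1 : ∀ k : ℕ, (y * x) ^ (k + 1) = y * (x * y) ^ k * x := by
    intro k
    induction k with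
    | zero => simp
    | succ k ih => rw [pow_succ, ih, pow_succ]; simp only [mul_assoc]
  rw [h1, hn, mul_zero, zero_mul]

variable [Algebra ℚ R]

lemma aeval_split (w : R) (P : ℚ[X]) : ∃ b' : R, Commute b' w ∧
    aeval w P = algebraMap ℚ R (P.coeff 0) + w * b' := by
  refine ⟨aeval w P.divX, ?_, ?_⟩
  · have := congrArg (aeval w) (mul_comm P.divX X)
    rwa [map_mul, map_mul, aeval_X] at this
  · conv_lhs => rw [← X_mul_divX_add P]
    rw [map_add, map_mul, aeval_X, aeval_C, add_comm]

lemma aeval_comm (w : R) (P Q : ℚ[X]) : aeval w P * aeval w Q = aeval w Q * aeval w P := by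
  rw [← map_mul, mul_comm, map_mul]

/-- An anti-involution of a ring. -/
structure IsInv (t : R →+ R) : Prop where
  mul : ∀ a b, t (a * b) = t b * t a
  inv : ∀ a, t (t a) = a

lemma IsInv.one {t : R →+ R} (ht : IsInv t) : t 1 = 1 := by
  have h1 : t (t 1 * 1) = t 1 * t (t 1) := ht.mul _ _
  rw [mul_one, ht.inv, mul_one] at h1
  exact h1.symm

lemma IsInv.smul {t : R →+ R} (q : ℚ) (a : R) : t (q • a) = q • t a := map_rat_smul t q a

lemma IsInv.algebraMap {t : R →+ R} (ht : IsInv t) (q : ℚ) :
    t (algebraMap ℚ R q) = algebraMap ℚ R q := by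
  rw [Algebra.algebraMap_eq_smul_one, IsInv.smul, ht.one]

lemma IsInv.aeval {t : R →+ R} (ht : IsInv t) {w : R} (hw : t w = w) (P : ℚ[X]) :
    t (aeval w P) = aeval w P := by
  induction P using Polynomial.induction_on' with
  | add p q hp hq => rw [map_add, map_add, hp, hq]
  | monomial n a =>
    rw [aeval_monomial, ht.mul, ht.algebraMap, ← Algebra.commutes]
    congr 1
    induction n with
    | zero => rw [pow_zero, ht.one]
    | succ n ih => rw [pow_succ, ht.mul, hw, ih, ← pow_succ', pow_succ]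

/-- An idempotent `e` with `e t(e) e` nilpotent can be replaced by an idempotent `φ τ` such that
`φ τ` and `t(φ τ)` are orthogonal on both sides. -/
theorem hyper {t : R →+ R} (ht : IsInv t) {e : R} (he : e * e = e)
    (hn : IsNilpotent (e * t e * e)) : ∃ φ τ x y z u v : R,
      φ * e = φ ∧ e * τ = τ ∧ τ * φ = e ∧ t φ * φ = 0 ∧ τ * t τ = 0 ∧
      φ = e + t e * x ∧ τ = y * e + z * (e * t e) ∧ φ = e + (t e * e) * u ∧
      τ = e + (e * t e) * v := by
  obtain ⟨N, hN⟩ := hn
  set s := t e with hs
  set w := e * s with hw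
  have hss : s * s = s := by rw [hs, ← ht.mul, he]
  have hts : t s = e := ht.inv e
  have htw : t w = w := by rw [hw, ht.mul, hts]
  have hew : e * w = w := by rw [hw, ← mul_assoc, he]
  have hws : w * s = w := by rw [hw, mul_assoc, hss]
  have hpow : ∀ k : ℕ, w ^ k * e = e * (e * s * e) ^ k := by
    intro k
    induction k with
    | zero => simp
    | succ k ih =>
      have h1 : w ^ (k + 1) * e = (w ^ k * e) * (e * s * e) := by
        rw [pow_succ, mul_assoc, mul_assoc (w ^ k) e]
        congr 1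
        rw [← mul_assoc, ← mul_assoc, he]
      rw [h1, ih, mul_assoc, pow_succ]
  have hwe : w ^ N * e = 0 := by rw [hpow, hN, mul_zero]
  have hw0 : w ^ (N + 1) = 0 := by
    have : w ^ (N + 1) = w ^ N * e * s := by rw [pow_succ, mul_assoc, hw]
    rw [this, hwe, zero_mul]
  obtain ⟨β, δ, g, h, hg, hh⟩ := exists_pair N
  set b := aeval w β with hb
  set d := aeval w δ with hd
  have htb : t b = b := ht.aeval htw β
  have htd : t d = d := ht.aeval htw δ
  have cbw : b * w = w * b := by
    have := aeval_comm w β X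
    rwa [aeval_X] at this
  have cdw : d * w = w * d := by
    have := aeval_comm w δ X
    rwa [aeval_X] at this
  have cbd : b * d = d * b := aeval_comm w β δ
  obtain ⟨b', hb'w, hb'⟩ := aeval_split w β
  obtain ⟨d', hd'w, hd'⟩ := aeval_split w δ
  rw [← hb] at hb'
  rw [← hd] at hd'
  have hδ0 : δ.coeff 0 = 1 := by
    have h1 := congrArg (fun P => Polynomial.coeff P 0) hh
    simp only [mul_coeff_zero, coeff_add, coeff_one_zero] at h1
    rw [pow_succ, mul_coeff_zero, coeff_X_zero] at h1
    simpa using h1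
  rw [hδ0, map_one] at hd'
  have hebe : e * b * e = b * e := by
    rw [hb', mul_add, add_mul, add_mul, ← Algebra.commutes, mul_assoc, he, ← mul_assoc e w, hew]
  have hede : e * d * e = d * e := by
    rw [hd', mul_add, add_mul, add_mul, mul_one, he, one_mul, ← mul_assoc e w, hew]
  have rel1 : 1 + 2 * b + w * b ^ 2 = w ^ N * aeval w g := by
    have := congrArg (aeval w) hg
    simpa only [map_add, map_mul, map_one, map_pow, aeval_X, map_ofNat] using this
  have rel2 : d * (1 + 2 * w * b + w * b ^ 2) = 1 := by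
    have := congrArg (aeval w) hh
    simp only [map_add, map_mul, map_one, map_pow, aeval_X, map_ofNat] at this
    rw [hw0, zero_mul, add_zero] at this
    exact this
  have cgw : w ^ N * aeval w g = aeval w g * w ^ N := by
    have := aeval_comm w (X ^ N) g
    rwa [map_pow, aeval_X] at this
  have rel1e : (1 + 2 * b + w * b ^ 2) * e = 0 := by
    rw [rel1, cgw, mul_assoc, hwe, mul_zero]
  have rel1w : (1 + 2 * b + w * b ^ 2) * w = 0 := by
    rw [rel1, cgw, mul_assoc, ← pow_succ, hw0, mul_zero]
  have hes : e * s = w := rfl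
  have hwbs : w * b * s = w * b := by rw [← cbw, mul_assoc, hws]
  have hebw : e * b * w = w * b := by rw [mul_assoc, cbw, ← mul_assoc, hew]
  -- `φ = e + s b e`, `τ = d (e + w b)`
  refine ⟨e + s * b * e, d * (e + w * b), b * e, d, d * b, algebraMap ℚ R (β.coeff 0) + s * b' * e,
    d' * e + d * b, ?_, ?_, ?_, ?_, ?_, ?_, ?_, ?_, ?_⟩
  · rw [add_mul, he, mul_assoc (s * b), he]
  · have h1 : e * (d * (e + w * b)) = e * d * e + e * (d * w) * b := by noncomm_ring
    have h2 : d * (e + w * b) = d * e + (d * w) * b := by noncomm_ring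
    rw [h1, h2, hede, cdw, ← mul_assoc e w, hew]
  · have h1 : (e + w * b) * (e + s * b * e) = (1 + 2 * w * b + w * b ^ 2) * e := by
      have h2 : (e + w * b) * (e + s * b * e) = e * e + (e * s) * b * e + w * b * e +
        (w * b * s) * b * e := by noncomm_ring
      rw [h2, he, hwbs, hes]
      noncomm_ring
    rw [mul_assoc, h1, ← mul_assoc, rel2, one_mul]
  · have h1 : t (e + s * b * e) = s + s * b * e := by
      rw [map_add, ht.mul, ht.mul, hts, htb, ← hs, mul_assoc]
    have h2 : (s + s * b * e) * (e + s * b * e) = s * ((1 + 2 * b + w * b ^ 2) * e) := by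
      have h3 : (s + s * b * e) * (e + s * b * e) = s * e + (s * s) * b * e + s * b * (e * e) +
        s * b * (e * s) * b * e := by noncomm_ring
      rw [h3, hss, he, hes, mul_assoc s b w, cbw]
      noncomm_ring
    rw [h1, h2, rel1e, mul_zero]
  · have h1 : t (d * (e + w * b)) = (s + b * w) * d := by
      rw [ht.mul, map_add, ht.mul, htw, htb, htd]
    have h2 : (e + w * b) * (s + b * w) = (1 + 2 * b + w * b ^ 2) * w := by
      have h3 : (e + w * b) * (s + b * w) = e * s + e * b * w + w * b * s + w * b * b * w := by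
        noncomm_ring
      rw [h3, hes, hebw, hwbs, add_mul, add_mul, one_mul]
      have h4 : 2 * b * w = w * b + w * b := by rw [mul_assoc, cbw]; noncomm_ring
      rw [h4]
      noncomm_ring
    rw [h1, mul_assoc d, ← mul_assoc (e + w * b), h2, rel1w, zero_mul, mul_zero]
  · rw [mul_assoc]
  · rw [mul_add, mul_assoc d b w, cbw]
  · have h1 : s * b * e = (s * e) * (algebraMap ℚ R (β.coeff 0) + s * b' * e) := by
      have h2 : s * w = s * e * s := by rw [hw, mul_assoc]
      rw [hb', mul_add, add_mul, mul_add, ← mul_assoc s w, h2, ← Algebra.commutes,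
        mul_assoc (algebraMap ℚ R (β.coeff 0)), Algebra.commutes]
      simp only [mul_assoc]
    rw [h1]
  · have h1 : d * e = e + w * (d' * e) := by rw [hd', add_mul, one_mul, mul_assoc]
    have h2 : d * (w * b) = w * (d * b) := by rw [← mul_assoc, cdw, mul_assoc]
    rw [mul_add, h1, h2, mul_add, add_assoc]

end ring

end Pool.Agent.U3.SD
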